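import Pool.Agent.H17.HF.Defs

set_option autoImplicit false

/-!
# Reductions from one factor problem to another
-/

namespace Pool.Agent.H34.HF

open Pool.Agent.H72.NP Pool.Agent.H80.Poly Pool.Agent.H17.HF

/-- There is a polynomial-time many-one reduction from the unrestricted `K`-factor problem to
`FACTOR(H, c)`: a polynomial-time computable map `f` from graphs to graphs of minimum degree at least
`c n` such that `G` has a `K`-factor iff `f G` has an `H`-factor. -/
def ReducesTo {W V : Type} (K : SimpleGraph W) (H : SimpleGraph V) (c : ℝ) : Prop :=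
  ∃ f : Gr → {g : Gr // MinDeg c g},
    PolyTimeFun encGr (fun g : {g : Gr // MinDeg c g} => encGr g.1) f ∧
    ∀ g : Gr, HasFactor K g.2 ↔ HasFactor H (f g).1.2

end Pool.Agent.H34.HF
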