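import Pool.Agent.H17.HF.Poly
import Pool.Agent.H34.HF.Def

set_option autoImplicit false
set_option linter.unusedSectionVars false

/-!
# Hosts with a certificate
-/

namespace Pool.Agent.H34.HF

open scoped Classical
open Finset Pool.Agent.H17.HF

variable {V : Type} [Fintype V] {C ρ : Type}

/-- tiles: maps `V → C` under which every edge goes to an `R`-edge or into the class `o` -/
def IsTile (H : SimpleGraph V) (R : C → C → Prop) (o : C) (φ : V → C) : Prop :=
  ∀ u v, H.Adj u v → R (φ u) (φ v) ∨ (φ u = o ∧ φ v = o)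

/-- the core of a tile -/
noncomputable def tcore (H : SimpleGraph V) (o : C) (φ : V → C) : Finset V :=
  univ.filter fun v => φ v = o ∧ ∃ u, φ u = o ∧ H.Adj u v

theorem mem_tcore {H : SimpleGraph V} {o : C} {φ : V → C} {v : V} :
    v ∈ tcore H o φ ↔ φ v = o ∧ ∃ u, φ u = o ∧ H.Adj u v := by
  simp [tcore]

/-- certificates -/
structure Cert (H : SimpleGraph V) (R : C → C → Prop) (o : C) (w : C → ℤ) (lam mu : ℤ)
    (ψ : V → C) (fil : ρ → V → C) : Prop where
  symm : ∀ x y, R x y → R y x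
  irr : ¬ R o o
  tile : IsTile H R o ψ
  fill : ∀ r u v, H.Adj u v → R (fil r u) (fil r v)
  pos : 0 < mu
  ne : (tcore H o ψ).Nonempty
  eqψ : ∑ v, w (ψ v) = lam + mu * (tcore H o ψ).card
  eqf : ∀ r, ∑ v, w (fil r v) = lam
  le : ∀ φ, IsTile H R o φ → ∑ v, w (φ v) ≤ lam + mu * (tcore H o φ).card
  fac : ∀ φ, IsTile H R o φ → ∑ v, w (φ v) = lam + mu * (tcore H o φ).card →
    HasFactor (H.induce (tcore H o ψ : Set V)) (H.induce (tcore H o φ : Set V))

/-! ### the host -/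

/-- the vertex set of the host -/
abbrev HV (m m' N e q : ℕ) : Type := Fin m ⊕ ((Fin m' × Fin e) ⊕ (Fin N × Fin q))

/-- the class of a vertex of the host -/
def cls3 {m m' N e q : ℕ} (o : C) (tA : Fin e → C) (tB : Fin q → C) : HV m m' N e q → C
  | Sum.inl _ => o
  | Sum.inr (Sum.inl x) => tA x.2
  | Sum.inr (Sum.inr y) => tB y.2

/-- the host -/
def host3 {m m' N e q : ℕ} (R : C → C → Prop) (hR : ∀ x y, R x y → R y x) (o : C)
    (tA : Fin e → C) (tB : Fin q → C) (F : SimpleGraph (Fin m)) : SimpleGraph (HV m m' N e q) where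
  Adj := fun p q => (∃ x y, p = Sum.inl x ∧ q = Sum.inl y ∧ F.Adj x y) ∨
    (p ≠ q ∧ R (cls3 o tA tB p) (cls3 o tA tB q))
  symm := ⟨by
    rintro p q (⟨x, y, hx, hy, h⟩ | ⟨h1, h2⟩)
    · exact Or.inl ⟨y, x, hy, hx, F.adj_symm h⟩
    · exact Or.inr ⟨fun e => h1 e.symm, hR _ _ h2⟩⟩
  loopless := ⟨by
    rintro p (⟨x, y, hx, hy, h⟩ | ⟨h1, h2⟩)
    · rw [hx] at hy
      rw [Sum.inl.inj hy] at h
      exact F.loopless.irrefl _ h
    · exact h1 rfl⟩

/-! ### forward -/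

theorem host3_fwd {H : SimpleGraph V} {R : C → C → Prop} (hR : ∀ x y, R x y → R y x) {o : C}
    {ψ : V → C} {fil : ρ → V → C} (htile : IsTile H R o ψ)
    (hfill : ∀ r u v, H.Adj u v → R (fil r u) (fil r v)) (hne : (tcore H o ψ).Nonempty)
    {m m' N e q : ℕ} (hm : (tcore H o ψ).card * m' = m)
    (eA : {v // v ∉ tcore H o ψ} ≃ Fin e) (eB : ρ × V ≃ Fin q) {F : SimpleGraph (Fin m)}
    (hF : HasFactor (H.induce (tcore H o ψ : Set V)) F) :
    HasFactor H (host3 (m' := m') (N := N) R hR o (fun x => ψ (eA.symm x).1)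
      (fun y => fil (eB.symm y).1 (eB.symm y).2) F) := by
  obtain ⟨κ, Ψ, hΨ⟩ := hF
  obtain ⟨u₀, hu₀⟩ := hne
  have hfin : Finite κ := Finite.of_injective
    (fun i => Ψ (i, (⟨u₀, Finset.mem_coe.2 hu₀⟩ : (tcore H o ψ : Set V))))
    (fun i j h => congrArg Prod.fst (Ψ.injective h))
  have hκ : Nat.card κ = m' := by
    have h1 : Nat.card (κ × (tcore H o ψ : Set V)) = m := by
      rw [Nat.card_congr Ψ, Nat.card_eq_fintype_card, Fintype.card_fin]
    rw [Nat.card_prod, ← hm] at h1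
    have h2 : Nat.card (tcore H o ψ : Set V) = (tcore H o ψ).card := by
      rw [Nat.card_coe_set_eq, Set.ncard_coe_finset]
    rw [h2, Nat.mul_comm] at h1
    exact Nat.eq_of_mul_eq_mul_left (Finset.card_pos.2 ⟨u₀, hu₀⟩) h1
  obtain ⟨eκ⟩ := (Finite.card_eq (α := κ) (β := Fin m')).1 (by
    rw [hκ, Nat.card_eq_fintype_card, Fintype.card_fin])
  let f : (κ ⊕ (Fin N × ρ)) × V → HV m m' N e q := fun z =>
    match z with
    | (Sum.inl i, v) => if h : v ∈ tcore H o ψ then Sum.inl (Ψ (i, ⟨v, Finset.mem_coe.2 h⟩))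
        else Sum.inr (Sum.inl (eκ i, eA ⟨v, h⟩))
    | (Sum.inr (j, r), v) => Sum.inr (Sum.inr (j, eB (r, v)))
  have hf1 : ∀ (i : κ) (v : V) (h : v ∈ tcore H o ψ),
      f (Sum.inl i, v) = Sum.inl (Ψ (i, ⟨v, Finset.mem_coe.2 h⟩)) := by
    intro i v h
    simp only [f]
    rw [dif_pos h]
  have hf2 : ∀ (i : κ) (v : V) (h : v ∉ tcore H o ψ),
      f (Sum.inl i, v) = Sum.inr (Sum.inl (eκ i, eA ⟨v, h⟩)) := by
    intro i v h
    simp only [f]
    rw [dif_neg h]
  have hinj : Function.Injective f := by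
    rintro ⟨i | ⟨j, r⟩, v⟩ ⟨i' | ⟨j', r'⟩, v'⟩ h
    · by_cases hv : v ∈ tcore H o ψ <;> by_cases hv' : v' ∈ tcore H o ψ
      · rw [hf1 i v hv, hf1 i' v' hv'] at h
        have h1 := Ψ.injective (Sum.inl.inj h)
        simp only [Prod.mk.injEq, Subtype.mk.injEq] at h1
        rw [h1.1, h1.2]
      · rw [hf1 i v hv, hf2 i' v' hv'] at h
        exact absurd h (by simp)
      · rw [hf2 i v hv, hf1 i' v' hv'] at h
        exact absurd h (by simp)
      · rw [hf2 i v hv, hf2 i' v' hv'] at h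
        have h1 := Sum.inl.inj (Sum.inr.inj h)
        simp only [Prod.mk.injEq, EmbeddingLike.apply_eq_iff_eq, Subtype.mk.injEq] at h1
        rw [h1.1, h1.2]
    · by_cases hv : v ∈ tcore H o ψ
      · rw [hf1 i v hv] at h
        exact absurd h (by simp [f])
      · rw [hf2 i v hv] at h
        exact absurd h (by simp [f])
    · by_cases hv : v' ∈ tcore H o ψ
      · rw [hf1 i' v' hv] at h
        exact absurd h (by simp [f])
      · rw [hf2 i' v' hv] at h
        exact absurd h (by simp [f])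
    · have h1 : (j, eB (r, v)) = (j', eB (r', v')) := Sum.inr.inj (Sum.inr.inj h)
      simp only [Prod.mk.injEq, EmbeddingLike.apply_eq_iff_eq] at h1
      obtain ⟨rfl, rfl, rfl⟩ := h1
      rfl
  have hsurj : Function.Surjective f := by
    rintro (x | ⟨i, x⟩ | ⟨j, y⟩)
    · refine ⟨(Sum.inl (Ψ.symm x).1, (Ψ.symm x).2.1), ?_⟩
      rw [hf1 _ _ (Finset.mem_coe.1 (Ψ.symm x).2.2)]
      congr 1
      exact Ψ.apply_symm_apply x
    · refine ⟨(Sum.inl (eκ.symm i), (eA.symm x).1), ?_⟩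
      rw [hf2 _ _ (eA.symm x).2]
      simp
    · refine ⟨(Sum.inr (j, (eB.symm y).1), (eB.symm y).2), ?_⟩
      simp [f]
  have hcls1 : ∀ (i : κ) (v : V), cls3 o (fun x => ψ (eA.symm x).1)
      (fun y => fil (eB.symm y).1 (eB.symm y).2) (f (Sum.inl i, v)) = ψ v := by
    intro i v
    by_cases hv : v ∈ tcore H o ψ
    · rw [hf1 i v hv]
      exact (mem_tcore.1 hv).1.symm
    · rw [hf2 i v hv]
      simp [cls3]
  have hcls2 : ∀ (j : Fin N) (r : ρ) (v : V), cls3 o (fun x => ψ (eA.symm x).1)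
      (fun y => fil (eB.symm y).1 (eB.symm y).2) (f (Sum.inr (j, r), v)) = fil r v := by
    intro j r v
    simp [f, cls3]
  refine ⟨κ ⊕ (Fin N × ρ), Equiv.ofBijective f ⟨hinj, hsurj⟩, fun s u v huv => ?_⟩
  change (host3 R hR o _ _ F).Adj (f (s, u)) (f (s, v))
  have hne : f (s, u) ≠ f (s, v) := fun h => huv.ne (congrArg Prod.snd (hinj h))
  rcases s with i | ⟨j, r⟩
  · rcases htile u v huv with h | ⟨h1, h2⟩
    · refine Or.inr ⟨hne, ?_⟩
      rw [hcls1, hcls1]
      exact h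
    · have hu : u ∈ tcore H o ψ := mem_tcore.2 ⟨h1, v, h2, huv.symm⟩
      have hv : v ∈ tcore H o ψ := mem_tcore.2 ⟨h2, u, h1, huv⟩
      refine Or.inl ⟨_, _, hf1 i u hu, hf1 i v hv, ?_⟩
      exact hΨ i _ _ huv
  · refine Or.inr ⟨hne, ?_⟩
    rw [hcls2, hcls2]
    exact hfill r u v huv

end Pool.Agent.H34.HF
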