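import Pool.Agent.H34.HF.CertOut

set_option autoImplicit false
set_option linter.unusedSectionVars false

/-!
# Hosts with a certificate: the reduction
-/

namespace Pool.Agent.H34.HF

open scoped Classical
open Finset Pool.Agent.H17.HF Pool.Agent.H80.Poly Pool.Agent.H72.NP

variable {V : Type} [Fintype V] {C ρ : Type} [Fintype C] [Fintype ρ]

theorem factor_dvd {W : Type} [Fintype W] {K : SimpleGraph W} {m : ℕ} {Q : Type} [Fintype Q]
    {G : SimpleGraph Q} (hQ : Fintype.card Q = m) (hW : 0 < Fintype.card W) (h : HasFactor K G) :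
    Fintype.card W ∣ m := by
  obtain ⟨ι, Φ, -⟩ := h
  obtain ⟨w⟩ := Fintype.card_pos_iff.1 hW
  have hfin : Finite ι := Finite.of_injective (fun i => Φ (i, w))
    (fun i j e => congrArg Prod.fst (Φ.injective e))
  have h1 : Nat.card (ι × W) = Nat.card Q := Nat.card_congr Φ
  rw [Nat.card_prod, Nat.card_eq_fintype_card (α := W), Nat.card_eq_fintype_card (α := Q), hQ] at h1
  exact ⟨Nat.card ι, by rw [← h1, Nat.mul_comm]⟩

theorem Cert.equiv {H : SimpleGraph V} {R : C → C → Prop} {o : C} {w : C → ℤ}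
    {lam mu : ℤ} {ψ : V → C} {fil : ρ → V → C} (hc : Cert H R o w lam mu ψ fil) {e q : ℕ}
    (eA : {v // v ∉ tcore H o ψ} ≃ Fin e) (eB : ρ × V ≃ Fin q) (R₀ : ℕ) (g : Gr) :
    HasFactor (H.induce (tcore H o ψ : Set V)) g.2 ↔ HasFactor H
      (hout3 (tcore H o ψ).card R₀ R hc.symm o (fun x => ψ (eA.symm x).1)
        (fun y => fil (eB.symm y).1 (eB.symm y).2) g).2 := by
  have hkpos : 0 < (tcore H o ψ).card := Finset.card_pos.2 hc.ne
  have hV : 0 < Fintype.card V := by
    obtain ⟨x, -⟩ := hc.ne
    exact Fintype.card_pos_iff.2 ⟨x⟩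
  rw [show HasFactor H (hout3 (tcore H o ψ).card R₀ R hc.symm o (fun x => ψ (eA.symm x).1)
        (fun y => fil (eB.symm y).1 (eB.symm y).2) g).2 ↔ _ from
    hasFactor_comap (H := H) (enum3 g.1 (g.1 / (tcore H o ψ).card) (R₀ * (g.1 + 1)) e q)]
  by_cases hdvd : (tcore H o ψ).card ∣ g.1
  · have hm : (tcore H o ψ).card * (g.1 / (tcore H o ψ).card) = g.1 := Nat.mul_div_cancel' hdvd
    constructor
    · intro hF
      exact host3_fwd hc.symm hc.tile hc.fill hc.ne hm eA eB hF
    · intro hG
      exact host3_rev hc hm eA eB hG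
  · have he : (tcore H o ψ).card + e = Fintype.card V := by
      have h1 : Fintype.card {v // v ∉ tcore H o ψ} = e := by
        rw [Fintype.card_congr eA, Fintype.card_fin]
      rw [← h1, Fintype.card_subtype_compl, Fintype.card_coe]
      have := Finset.card_le_univ (tcore H o ψ)
      omega
    have hq : q = Fintype.card ρ * Fintype.card V := by
      have h1 : Fintype.card (ρ × V) = q := by rw [Fintype.card_congr eB, Fintype.card_fin]
      rw [← h1, Fintype.card_prod]
    have hUc : Fintype.card (tcore H o ψ : Set V) = (tcore H o ψ).card := by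
      rw [← Nat.card_eq_fintype_card, Nat.card_coe_set_eq, Set.ncard_coe_finset]
    constructor
    · intro hF
      exfalso
      have h1 := factor_dvd (m := g.1) (Fintype.card_fin _) (by rw [hUc]; exact hkpos) hF
      rw [hUc] at h1
      exact hdvd h1
    · intro hG
      exfalso
      have h1 := factor_dvd (m := g.1 + ((g.1 / (tcore H o ψ).card) * e + (R₀ * (g.1 + 1)) * q)) (by
            rw [Fintype.card_sum, Fintype.card_sum, Fintype.card_prod, Fintype.card_prod,
              Fintype.card_fin, Fintype.card_fin, Fintype.card_fin, Fintype.card_fin,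
              Fintype.card_fin]) hV hG
      have hdm := Nat.div_add_mod g.1 (tcore H o ψ).card
      have h2 : g.1 + ((g.1 / (tcore H o ψ).card) * e + (R₀ * (g.1 + 1)) * q) =
          Fintype.card V * (g.1 / (tcore H o ψ).card + (R₀ * (g.1 + 1)) * Fintype.card ρ) +
            g.1 % (tcore H o ψ).card := by
        rw [hq, ← he]
        set s := g.1 / (tcore H o ψ).card with hs
        set r := g.1 % (tcore H o ψ).card with hr
        set N := R₀ * (g.1 + 1) with hN
        calc g.1 + (s * e + N * (Fintype.card ρ * ((tcore H o ψ).card + e)))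
            = ((tcore H o ψ).card * s + r) +
              (s * e + N * (Fintype.card ρ * ((tcore H o ψ).card + e))) := by rw [hdm]
          _ = _ := by ring
      rw [h2] at h1
      have h3 : Fintype.card V ∣ g.1 % (tcore H o ψ).card :=
        (Nat.dvd_add_right ⟨_, rfl⟩).1 h1
      have h4 : g.1 % (tcore H o ψ).card < (tcore H o ψ).card := Nat.mod_lt _ hkpos
      have h5 : g.1 % (tcore H o ψ).card = 0 := Nat.eq_zero_of_dvd_of_lt h3 (by omega)
      exact hdvd (Nat.dvd_of_mod_eq_zero h5)

theorem dl_fil {R : C → C → Prop} (fil : ρ → V → C) {q : ℕ} (eB : ρ × V ≃ Fin q) (x : C) :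
    dl R (fun y => fil (eB.symm y).1 (eB.symm y).2) x =
      ∑ r, (univ.filter fun v => R x (fil r v)).card := by
  have h1 : ∀ r, (univ.filter fun v => R x (fil r v)).card = ∑ v, if R x (fil r v) then 1 else 0 :=
    fun r => Finset.card_filter _ _
  rw [Finset.sum_congr rfl (fun r _ => h1 r), ← Fintype.sum_prod_type']
  unfold dl
  rw [Finset.card_filter]
  exact Equiv.sum_comp eB.symm (fun z : ρ × V => if R x (fil z.1 z.2) then 1 else 0)

/-- **The reduction from a certificate.** -/
theorem Cert.reducesTo {H : SimpleGraph V} {R : C → C → Prop} {o : C} {w : C → ℤ}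
    {lam mu : ℤ} {ψ : V → C} {fil : ρ → V → C} (hc : Cert H R o w lam mu ψ fil) {c : ℝ}
    (hdeg : ∀ x : C, c * ((Fintype.card ρ * Fintype.card V : ℕ) : ℝ) <
      ((∑ r, (univ.filter fun v => R x (fil r v)).card : ℕ) : ℝ)) :
    ReducesTo (H.induce (tcore H o ψ : Set V)) H c := by
  set e := Fintype.card {v // v ∉ tcore H o ψ} with he
  set q := Fintype.card (ρ × V) with hq
  let eA : {v // v ∉ tcore H o ψ} ≃ Fin e := Fintype.equivFin _
  let eB : ρ × V ≃ Fin q := Fintype.equivFin _
  have hq' : (q : ℝ) = ((Fintype.card ρ * Fintype.card V : ℕ) : ℝ) := by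
    rw [hq, Fintype.card_prod]
  have hpos : ∀ x : C, 0 < (dl R (fun y => fil (eB.symm y).1 (eB.symm y).2) x : ℝ) - c * q := by
    intro x
    rw [dl_fil fil eB x, hq']
    have := hdeg x
    linarith
  have hex : ∀ x : C, ∃ r : ℕ, (|c| * (1 + e) + 1) /
      ((dl R (fun y => fil (eB.symm y).1 (eB.symm y).2) x : ℝ) - c * q) < r := fun x =>
    exists_nat_gt _
  choose r hr using hex
  have hR : ∀ x : C, |c| * (1 + e) + 1 ≤ ((∑ y, r y : ℕ) : ℝ) *
      ((dl R (fun y => fil (eB.symm y).1 (eB.symm y).2) x : ℝ) - c * q) := by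
    intro x
    have h1 := hr x
    rw [div_lt_iff₀ (hpos x)] at h1
    have h2 : (r x : ℝ) ≤ ((∑ y, r y : ℕ) : ℝ) := by
      exact_mod_cast Finset.single_le_sum (f := r) (fun y _ => Nat.zero_le _) (Finset.mem_univ x)
    exact h1.le.trans (mul_le_mul_of_nonneg_right h2 (hpos x).le)
  have hmin : ∀ g, MinDeg c (hout3 (tcore H o ψ).card (∑ y, r y) R hc.symm o
      (fun x => ψ (eA.symm x).1) (fun y => fil (eB.symm y).1 (eB.symm y).2) g) := fun g =>
    minDeg_hout3 hc.symm _ _ hR g
  exact ⟨_, hout3_poly hc.symm hc.irr _ _ _ _ hmin, fun g => hc.equiv eA eB _ g⟩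

end Pool.Agent.H34.HF
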