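import Pool.Agent.H34.HF.CertRev

set_option autoImplicit false
set_option linter.unusedSectionVars false

/-!
# Hosts with a certificate: numbering, minimum degree, polynomial time
-/

namespace Pool.Agent.H34.HF

open scoped Classical
open Finset Pool.Agent.H17.HF Pool.Agent.H80.Poly Pool.Agent.H72.NP

variable {V : Type} [Fintype V] {C ρ : Type}

/-! ### numbering -/

/-- the numbering of the vertices of the host -/
def enum3 (m m' N e q : ℕ) : HV m m' N e q ≃ Fin (m + (m' * e + N * q)) :=
  (Equiv.sumCongr (Equiv.refl _)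
    ((Equiv.sumCongr finProdFinEquiv finProdFinEquiv).trans finSumFinEquiv)).trans finSumFinEquiv

theorem enum3_0 (m m' N e q : ℕ) (x : Fin m) : (enum3 m m' N e q (Sum.inl x)).val = x.val := by
  simp [enum3]

theorem enum3_1 (m m' N e q : ℕ) (x : Fin m' × Fin e) :
    (enum3 m m' N e q (Sum.inr (Sum.inl x))).val = m + (x.2.val + e * x.1.val) := by
  simp [enum3]

theorem enum3_2 (m m' N e q : ℕ) (x : Fin N × Fin q) :
    (enum3 m m' N e q (Sum.inr (Sum.inr x))).val = m + (m' * e + (x.2.val + q * x.1.val)) := by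
  simp [enum3]

theorem enum3_lt {m m' N e q : ℕ} (p : HV m m' N e q) :
    (enum3 m m' N e q p).val < m ↔ ∃ x, p = Sum.inl x := by
  rcases p with x | x | x
  · rw [enum3_0]
    exact ⟨fun _ => ⟨x, rfl⟩, fun _ => x.2⟩
  · rw [enum3_1]
    exact ⟨fun h => by omega, fun ⟨y, hy⟩ => absurd hy (by simp)⟩
  · rw [enum3_2]
    exact ⟨fun h => by omega, fun ⟨y, hy⟩ => absurd hy (by simp)⟩

/-- the output graph -/
def hout3 {e q : ℕ} (k R₀ : ℕ) (R : C → C → Prop) (hR : ∀ x y, R x y → R y x) (o : C)
    (tA : Fin e → C) (tB : Fin q → C) (g : Gr) : Gr :=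
  ⟨g.1 + ((g.1 / k) * e + (R₀ * (g.1 + 1)) * q),
    (host3 (m' := g.1 / k) (N := R₀ * (g.1 + 1)) R hR o tA tB g.2).comap
      (enum3 g.1 (g.1 / k) (R₀ * (g.1 + 1)) e q).symm⟩

/-! ### the minimum degree -/

/-- the number of neighbours in one block of fillers -/
noncomputable def dl {q : ℕ} (R : C → C → Prop) (tB : Fin q → C) (x : C) : ℕ :=
  (univ.filter (fun y : Fin q => R x (tB y))).card

theorem deg_host3 {m m' N e q : ℕ} {R : C → C → Prop} (hR : ∀ x y, R x y → R y x) {o : C}
    (tA : Fin e → C) (tB : Fin q → C) (F : SimpleGraph (Fin m)) (p : HV m m' N e q) :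
    N * dl R tB (cls3 o tA tB p) ≤ ((host3 R hR o tA tB F).neighborSet p).ncard + 1 := by
  set x := cls3 o tA tB p with hx
  let S : Set (HV m m' N e q) :=
    (fun z : Fin N × Fin q => (Sum.inr (Sum.inr z) : HV m m' N e q)) ''
      (((univ : Finset (Fin N)) ×ˢ univ.filter (fun y : Fin q => R x (tB y)) :
        Finset (Fin N × Fin q)) : Set (Fin N × Fin q))
  have hS : S.ncard = N * dl R tB x := by
    rw [Set.ncard_image_of_injective _ (fun a b h => Sum.inr.inj (Sum.inr.inj h)),
      Set.ncard_coe_finset, Finset.card_product, Finset.card_univ, Fintype.card_fin]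
    rfl
  have hsub : S \ {p} ⊆ (host3 R hR o tA tB F).neighborSet p := by
    rintro z ⟨⟨⟨j, y⟩, hy, rfl⟩, hz⟩
    have hy' : R x (tB y) := by
      have := Finset.mem_coe.1 hy
      rw [Finset.mem_product, Finset.mem_filter] at this
      exact this.2.2
    exact Or.inr ⟨fun e => hz e.symm, hy'⟩
  have h1 := Set.ncard_le_ncard hsub (Set.toFinite _)
  have h2 := Set.ncard_le_ncard_sdiff_add_ncard S {p} (Set.toFinite _)
  rw [Set.ncard_singleton] at h2
  rw [← hS]
  omega

theorem deg_hout3 {m m' N e q : ℕ} {R : C → C → Prop} (hR : ∀ x y, R x y → R y x) {o : C}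
    (tA : Fin e → C) (tB : Fin q → C) (F : SimpleGraph (Fin m)) (v : Fin (m + (m' * e + N * q))) :
    N * dl R tB (cls3 o tA tB ((enum3 m m' N e q).symm v)) ≤
      (((host3 R hR o tA tB F).comap (enum3 m m' N e q).symm).neighborSet v).ncard + 1 := by
  have h1 : (((host3 R hR o tA tB F).comap (enum3 m m' N e q).symm).neighborSet v) =
      (enum3 m m' N e q) '' ((host3 R hR o tA tB F).neighborSet ((enum3 m m' N e q).symm v)) := by
    ext w
    constructor
    · intro hw
      exact ⟨(enum3 m m' N e q).symm w, hw, (enum3 m m' N e q).apply_symm_apply w⟩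
    · rintro ⟨z, hz, rfl⟩
      change (host3 R hR o tA tB F).Adj ((enum3 m m' N e q).symm v)
        ((enum3 m m' N e q).symm (enum3 m m' N e q z))
      rw [(enum3 m m' N e q).symm_apply_apply]
      exact hz
  rw [h1, Set.ncard_image_of_injective _ (enum3 m m' N e q).injective]
  exact deg_host3 hR tA tB F _

theorem minDeg_hout3 {e q : ℕ} {k R₀ : ℕ} {R : C → C → Prop} (hR : ∀ x y, R x y → R y x) {o : C}
    (tA : Fin e → C) (tB : Fin q → C) {c : ℝ}
    (hc : ∀ x : C, |c| * (1 + e) + 1 ≤ R₀ * ((dl R tB x : ℝ) - c * q)) (g : Gr) :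
    MinDeg c (hout3 k R₀ R hR o tA tB g) := by
  intro v
  set x := cls3 o tA tB ((enum3 g.1 (g.1 / k) (R₀ * (g.1 + 1)) e q).symm v) with hx
  have h2 : (R₀ * (g.1 + 1)) * dl R tB x ≤
      ((hout3 k R₀ R hR o tA tB g).2.neighborSet v).ncard + 1 :=
    deg_hout3 (N := R₀ * (g.1 + 1)) hR tA tB g.2 v
  have h3 : (((R₀ * (g.1 + 1)) * dl R tB x : ℕ) : ℝ) ≤
      (((hout3 k R₀ R hR o tA tB g).2.neighborSet v).ncard : ℝ) + 1 := by
    exact_mod_cast h2
  have h5 : ((hout3 k R₀ R hR o tA tB g).1 : ℝ) =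
      g.1 + ((g.1 / k) * e + (R₀ * (g.1 + 1)) * q : ℕ) := by
    simp [hout3]
  rw [h5]
  have hq : g.1 / k ≤ g.1 := Nat.div_le_self _ _
  set s := g.1 / k with hs
  have hsR : (s : ℝ) ≤ g.1 := by exact_mod_cast hq
  have hs0 : (0 : ℝ) ≤ s := Nat.cast_nonneg _
  have hm0 : (0 : ℝ) ≤ g.1 := Nat.cast_nonneg _
  have he0 : (0 : ℝ) ≤ e := Nat.cast_nonneg _
  push_cast at h3 ⊢
  have hx1 : (g.1 : ℝ) + s * e ≤ (1 + e) * (g.1 + 1) := by
    have e1 : (s : ℝ) * e ≤ (g.1 + 1) * e := mul_le_mul_of_nonneg_right (by linarith) he0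
    nlinarith
  have h6 : c * ((g.1 : ℝ) + s * e) ≤ |c| * ((1 + e) * (g.1 + 1)) := by
    have e1 : c * ((g.1 : ℝ) + s * e) ≤ |c| * ((g.1 : ℝ) + s * e) :=
      mul_le_mul_of_nonneg_right (le_abs_self c) (by positivity)
    exact e1.trans (mul_le_mul_of_nonneg_left hx1 (abs_nonneg c))
  have h7 : (|c| * (1 + e) + 1) * ((g.1 : ℝ) + 1) ≤
      R₀ * ((dl R tB x : ℝ) - c * q) * ((g.1 : ℝ) + 1) :=
    mul_le_mul_of_nonneg_right (hc x) (by positivity)
  nlinarith

/-! ### polynomial time -/

/-- the code of the class of the vertex `u` -/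
def ccode (co : ℕ) (LA LB : List ℕ) (e q k n u : ℕ) : ℕ :=
  bif decide (u < n) then co else
    bif decide (u < n + (n / k) * e) then LA.getD ((u - n) % e) 0
    else LB.getD ((u - (n + (n / k) * e)) % q) 0

/-- the entry `(u, v)` of the output matrix, from the input matrix -/
def entry3 (co : ℕ) (LA LB : List ℕ) (TR : List (List Bool)) (e q k : ℕ)
    (w : List (List Bool) × ℕ × ℕ) : Bool :=
  bif (decide (w.2.1 < w.1.length) && decide (w.2.2 < w.1.length)) then
    (w.1.getD w.2.1 []).getD w.2.2 false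
  else
    !(decide (w.2.1 = w.2.2)) &&
      (TR.getD (ccode co LA LB e q k w.1.length w.2.1) []).getD
        (ccode co LA LB e q k w.1.length w.2.2) false

theorem ccode_poly {β : Type} [BEnc β] {f g : β → ℕ} (hf : PolyTime f) (hg : PolyTime g) (co : ℕ)
    (LA LB : List ℕ) (e q k : ℕ) :
    PolyTime (fun x => ccode co LA LB e q k (f x) (g x)) := by
  have hke : PolyTime (fun x => f x + (f x / k) * e) :=
    hf.add ((hf.div (PolyTime.const k)).mul (PolyTime.const e))
  exact PolyTime.cond (PolyTime.lt hg hf) (PolyTime.const co)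
    (PolyTime.cond (PolyTime.lt hg hke)
      (PolyTime.list_getD (PolyTime.const LA) ((hg.sub hf).mod (PolyTime.const e))
        (PolyTime.const 0))
      (PolyTime.list_getD (PolyTime.const LB) ((hg.sub hke).mod (PolyTime.const q))
        (PolyTime.const 0)))

theorem entry3_poly (co : ℕ) (LA LB : List ℕ) (TR : List (List Bool)) (e q k : ℕ) :
    PolyTime (entry3 co LA LB TR e q k) := by
  have hw : PolyTime (fun w : List (List Bool) × ℕ × ℕ => w) := PolyTime.id
  have hn : PolyTime (fun w : List (List Bool) × ℕ × ℕ => w.1.length) := hw.fst.length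
  have hf : PolyTime (fun _ : List (List Bool) × ℕ × ℕ => false) := PolyTime.const false
  have hnil : PolyTime (fun _ : List (List Bool) × ℕ × ℕ => ([] : List Bool)) :=
    PolyTime.const []
  have hu := ccode_poly hn hw.snd.fst co LA LB e q k
  have hv := ccode_poly hn hw.snd.snd co LA LB e q k
  exact PolyTime.cond (PolyTime.and (PolyTime.lt hw.snd.fst hn) (PolyTime.lt hw.snd.snd hn))
    (PolyTime.list_getD (PolyTime.list_getD hw.fst hw.snd.fst hnil) hw.snd.snd hf)
    (PolyTime.and (PolyTime.not (PolyTime.eq hw.snd.fst hw.snd.snd))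
      (PolyTime.list_getD (PolyTime.list_getD (PolyTime.const TR) hu hnil) hv hf))

/-- the number of vertices of the output -/
def osz3 (e q k R₀ n : ℕ) : ℕ := n + ((n / k) * e + (R₀ * (n + 1)) * q)

/-- the output matrix -/
def outMat3 (co : ℕ) (LA LB : List ℕ) (TR : List (List Bool)) (e q k R₀ : ℕ)
    (M : List (List Bool)) : List (List Bool) :=
  (List.range (osz3 e q k R₀ M.length)).map fun u =>
    (List.range (osz3 e q k R₀ M.length)).map fun v => entry3 co LA LB TR e q k (M, u, v)

theorem outMat3_poly (co : ℕ) (LA LB : List ℕ) (TR : List (List Bool)) (e q k R₀ : ℕ) :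
    PolyTime (outMat3 co LA LB TR e q k R₀) := by
  have hM : PolyTime (fun M : List (List Bool) => M) := PolyTime.id
  have hN : PolyTime (fun M : List (List Bool) => osz3 e q k R₀ M.length) :=
    hM.length.add (((hM.length.div (PolyTime.const k)).mul (PolyTime.const e)).add
      (((PolyTime.const R₀).mul hM.length.succ).mul (PolyTime.const q)))
  have bd : ∃ b, PB b ∧ ∀ M : List (List Bool), osz3 e q k R₀ M.length ≤ b (size M) := by
    refine ⟨fun n => n + (n * e + (R₀ * (n + 1)) * q),
      PB.id.add ((PB.id.mul (PB.const e)).add (((PB.const R₀).mul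
      (PB.id.add (PB.const 1))).mul (PB.const q))), fun M => ?_⟩
    have h1 := length_le_size M
    have h2 : M.length / k ≤ size M := (Nat.div_le_self _ _).trans h1
    unfold osz3
    have h3 : (R₀ * (M.length + 1)) * q ≤ (R₀ * (size M + 1)) * q :=
      Nat.mul_le_mul_right _ (Nat.mul_le_mul_left _ (Nat.succ_le_succ h1))
    exact Nat.add_le_add h1 (Nat.add_le_add (Nat.mul_le_mul_right _ h2) h3)
  have hR : PolyTime (fun M : List (List Bool) => List.range (osz3 e q k R₀ M.length)) :=
    PolyTime.range hN bd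
  have hR2 : PolyTime (fun w : List (List Bool) × ℕ =>
      List.range (osz3 e q k R₀ w.1.length)) :=
    hR.comp (g := fun M : List (List Bool) => List.range (osz3 e q k R₀ M.length))
      PolyTime.fst'
  have hw : PolyTime (fun w : (List (List Bool) × ℕ) × ℕ => w) := PolyTime.id
  refine PolyTime.map (l := fun M : List (List Bool) => List.range (osz3 e q k R₀ M.length))
    (g := fun w : List (List Bool) × ℕ =>
      (List.range (osz3 e q k R₀ w.1.length)).map fun v => entry3 co LA LB TR e q k (w.1, w.2, v))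
    hR ?_
  refine PolyTime.map (l := fun w : List (List Bool) × ℕ =>
      List.range (osz3 e q k R₀ w.1.length))
    (g := fun z : (List (List Bool) × ℕ) × ℕ => entry3 co LA LB TR e q k (z.1.1, z.1.2, z.2)) hR2 ?_
  exact (entry3_poly co LA LB TR e q k).comp (hw.fst.fst.pair (hw.fst.snd.pair hw.snd))

/-! ### the tables -/

/-- the code of a class -/
noncomputable def code [Fintype C] (x : C) : ℕ := (Fintype.equivFin C x).val

/-- a table of classes -/
noncomputable def tabC [Fintype C] {e : ℕ} (t : Fin e → C) : List ℕ :=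
  (List.finRange e).map fun x => code (t x)

/-- the table of `R` -/
noncomputable def tabR [Fintype C] (R : C → C → Prop) : List (List Bool) :=
  (List.finRange (Fintype.card C)).map fun j =>
    (List.finRange (Fintype.card C)).map fun k =>
      decide (R ((Fintype.equivFin C).symm j) ((Fintype.equivFin C).symm k))

theorem getD_tabR [Fintype C] (R : C → C → Prop) (x y : C) :
    ((tabR R).getD (code x) []).getD (code y) false = decide (R x y) := by
  unfold code tabR
  rw [getD_finRange_map, getD_finRange_map, Equiv.symm_apply_apply, Equiv.symm_apply_apply]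

theorem getD_tabC [Fintype C] {e : ℕ} (t : Fin e → C) (x : Fin e) :
    (tabC t).getD x.val 0 = code (t x) := by
  unfold tabC
  rw [getD_finRange_map]

theorem ccode_eq [Fintype C] {m N e q k : ℕ} (o : C) (tA : Fin e → C) (tB : Fin q → C)
    (p : HV m (m / k) N e q) :
    ccode (code o) (tabC tA) (tabC tB) e q k m (enum3 m (m / k) N e q p).val =
      code (cls3 o tA tB p) := by
  unfold ccode
  rcases p with x | ⟨i, x⟩ | ⟨j, y⟩
  · simp only [enum3_0, x.2, decide_true, cond_true]
    rfl
  · have h1 : ¬ (m + (x.val + e * i.val) < m) := by omega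
    have h2 : m + (x.val + e * i.val) < m + (m / k) * e := by
      have h3 : i.val + 1 ≤ m / k := i.2
      have h4 : (i.val + 1) * e ≤ (m / k) * e := Nat.mul_le_mul_right _ h3
      have h5 : (i.val + 1) * e = e * i.val + e := by ring
      have := x.2
      omega
    have h3 : (x.val + e * i.val) % e = x.val := by
      rw [Nat.add_mul_mod_self_left, Nat.mod_eq_of_lt x.2]
    simp only [enum3_1, h1, h2, decide_true, decide_false, cond_true, cond_false,
      Nat.add_sub_cancel_left, h3, getD_tabC]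
    rfl
  · have h1 : ¬ (m + ((m / k) * e + (y.val + q * j.val)) < m) := by omega
    have h2 : ¬ (m + ((m / k) * e + (y.val + q * j.val)) < m + (m / k) * e) := by omega
    have h3 : (m + ((m / k) * e + (y.val + q * j.val)) - (m + (m / k) * e)) % q = y.val := by
      have h4 : m + ((m / k) * e + (y.val + q * j.val)) - (m + (m / k) * e) =
          y.val + q * j.val := by omega
      rw [h4, Nat.add_mul_mod_self_left, Nat.mod_eq_of_lt y.2]
    simp only [enum3_2, h1, h2, decide_false, cond_false, h3, getD_tabC]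
    rfl

theorem entry3_eq [Fintype C] {R : C → C → Prop} (hR : ∀ x y, R x y → R y x) {o : C}
    (hirr : ¬ R o o) {e q : ℕ} (tA : Fin e → C) (tB : Fin q → C) (k : ℕ) (g : Gr) (N : ℕ)
    (p r : HV g.1 (g.1 / k) N e q) :
    entry3 (code o) (tabC tA) (tabC tB) (tabR R) e q k
      (matrix g, (enum3 _ _ _ _ _ p).val, (enum3 _ _ _ _ _ r).val) =
      decide ((host3 R hR o tA tB g.2).Adj p r) := by
  unfold entry3
  simp only [length_matrix]
  rw [ccode_eq, ccode_eq, getD_tabR]
  by_cases h : (∃ x, p = Sum.inl x) ∧ ∃ y, r = Sum.inl y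
  · obtain ⟨⟨x, rfl⟩, y, rfl⟩ := h
    simp only [enum3_0, x.2, y.2, decide_true, Bool.and_self, cond_true]
    rw [getD_matrix g x y]
    refine decide_eq_decide.2 ⟨fun h => Or.inl ⟨x, y, rfl, rfl, h⟩, fun h => ?_⟩
    rcases h with ⟨x', y', hx, hy, h⟩ | ⟨-, h⟩
    · rw [Sum.inl.inj hx, Sum.inl.inj hy]
      exact h
    · exact absurd h hirr
  · have h1 : (decide ((enum3 g.1 (g.1 / k) N e q p).val < g.1) &&
        decide ((enum3 g.1 (g.1 / k) N e q r).val < g.1)) = false := by
      rw [Bool.and_eq_false_iff, decide_eq_false_iff_not, decide_eq_false_iff_not, enum3_lt,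
        enum3_lt]
      exact not_and_or.1 h
    rw [h1, cond_false, Bool.eq_iff_iff, Bool.and_eq_true, Bool.not_eq_true',
      decide_eq_false_iff_not, decide_eq_true_eq, decide_eq_true_eq]
    constructor
    · rintro ⟨h2, h3⟩
      exact Or.inr ⟨fun e => h2 (by rw [e]), h3⟩
    · rintro (⟨x, y, hx, hy, -⟩ | ⟨h2, h3⟩)
      · exact absurd ⟨⟨x, hx⟩, y, hy⟩ h
      · exact ⟨fun e => h2 ((enum3 _ _ _ _ _).injective (Fin.ext e)), h3⟩

theorem entry3_eq' [Fintype C] {R : C → C → Prop} (hR : ∀ x y, R x y → R y x) {o : C}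
    (hirr : ¬ R o o) {e q : ℕ} (tA : Fin e → C) (tB : Fin q → C) (k : ℕ) (g : Gr) (N : ℕ)
    (u v : Fin (g.1 + ((g.1 / k) * e + N * q))) :
    entry3 (code o) (tabC tA) (tabC tB) (tabR R) e q k (matrix g, u.val, v.val) =
      decide (((host3 R hR o tA tB g.2).comap (enum3 g.1 (g.1 / k) N e q).symm).Adj u v) := by
  have h := entry3_eq hR hirr tA tB k g N ((enum3 g.1 (g.1 / k) N e q).symm u)
    ((enum3 g.1 (g.1 / k) N e q).symm v)
  rw [Equiv.apply_symm_apply, Equiv.apply_symm_apply] at h
  rw [h]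
  exact decide_eq_decide.2 Iff.rfl

theorem matrix_hout3 [Fintype C] {R : C → C → Prop} (hR : ∀ x y, R x y → R y x) {o : C}
    (hirr : ¬ R o o) {e q : ℕ} (tA : Fin e → C) (tB : Fin q → C) (k R₀ : ℕ) (g : Gr) :
    matrix (hout3 k R₀ R hR o tA tB g) =
      outMat3 (code o) (tabC tA) (tabC tB) (tabR R) e q k R₀ (matrix g) := by
  have hlen : osz3 e q k R₀ (matrix g).length = (hout3 k R₀ R hR o tA tB g).1 := by
    rw [length_matrix]; rfl
  unfold outMat3
  rw [hlen]
  have hr : List.range (hout3 k R₀ R hR o tA tB g).1 =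
      (List.finRange (hout3 k R₀ R hR o tA tB g).1).map Fin.val := by
    rw [List.map_coe_finRange_eq_range]
  rw [hr, List.map_map]
  unfold matrix
  refine List.map_congr_left fun u _ => ?_
  simp only [Function.comp_apply]
  rw [List.map_map]
  refine List.map_congr_left fun v _ => ?_
  simp only [Function.comp_apply]
  exact (entry3_eq' hR hirr tA tB k g (R₀ * (g.1 + 1)) u v).symm

theorem hout3_poly [Fintype C] {R : C → C → Prop} (hR : ∀ x y, R x y → R y x) {o : C}
    (hirr : ¬ R o o) {e q : ℕ} (tA : Fin e → C) (tB : Fin q → C) (k R₀ : ℕ) {c : ℝ}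
    (hmin : ∀ g, MinDeg c (hout3 k R₀ R hR o tA tB g)) :
    PolyTimeFun encGr (fun g : {g : Gr // MinDeg c g} => encGr g.1)
      (fun g => ⟨hout3 k R₀ R hR o tA tB g, hmin g⟩) := by
  obtain ⟨p, b, ⟨t, ht⟩, hp⟩ := outMat3_poly (code o) (tabC tA) (tabC tB) (tabR R) e q k R₀
  refine Prog.tm2 _ _ _ p t fun g => ?_
  obtain ⟨n, hn, h⟩ := hp (matrix g)
  refine ⟨n, hn.trans (ht _), ?_⟩
  have h1 := matrix_hout3 hR hirr tA tB k R₀ g
  unfold encGr
  simp only
  rw [h1]
  exact h

end Pool.Agent.H34.HF
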