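import Pool.Agent.H34.HF.Cert

set_option autoImplicit false
set_option linter.unusedSectionVars false

/-!
# Hosts with a certificate: from a factor of the host to a factor of `F`
-/

namespace Pool.Agent.H34.HF

open scoped Classical
open Finset Pool.Agent.H17.HF

variable {V : Type} [Fintype V] {C ρ : Type}

/-- composing factors -/
theorem compose {ι Q W : Type} {H : SimpleGraph V} {K : SimpleGraph W} {m : ℕ}
    {F : SimpleGraph (Fin m)} (Φ : ι × V ≃ Q) (emb : Fin m → Q) (hemb : Function.Injective emb)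
    (Fi : ι → Finset V) (hFi : ∀ i v, v ∈ Fi i ↔ ∃ x, Φ (i, v) = emb x)
    (hfac : ∀ i, HasFactor K (H.induce (Fi i : Set V)))
    (hadj : ∀ i u v x y, H.Adj u v → Φ (i, u) = emb x → Φ (i, v) = emb y → F.Adj x y) :
    HasFactor K F := by
  choose κ Ψ hΨ using hfac
  have hpt : ∀ z : (Σ i : ι, (Fi i : Set V)), ∃ x : Fin m, Φ (z.1, z.2.1) = emb x := by
    rintro ⟨i, v, hv⟩
    exact (hFi i v).1 (Finset.mem_coe.1 hv)
  choose g hg using hpt
  have hgb : Function.Bijective g := by
    constructor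
    · rintro ⟨i, v, hv⟩ ⟨j, w, hw⟩ h1
      have h2 := hg ⟨i, v, hv⟩
      have h3 := hg ⟨j, w, hw⟩
      rw [h1, ← h3] at h2
      have h4 := Φ.injective h2
      simp only [Prod.mk.injEq] at h4
      obtain ⟨rfl, rfl⟩ := h4
      rfl
    · intro x
      have h1 : Φ ((Φ.symm (emb x)).1, (Φ.symm (emb x)).2) = emb x := by simp
      have h2 : (Φ.symm (emb x)).2 ∈ (Fi (Φ.symm (emb x)).1 : Set V) :=
        Finset.mem_coe.2 ((hFi _ _).2 ⟨x, h1⟩)
      refine ⟨⟨(Φ.symm (emb x)).1, (Φ.symm (emb x)).2, h2⟩, ?_⟩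
      have h3 := hg ⟨(Φ.symm (emb x)).1, (Φ.symm (emb x)).2, h2⟩
      exact hemb (h3.symm.trans h1)
  let T : (Σ i : ι, κ i) × W ≃ Fin m :=
    (Equiv.sigmaProdDistrib (fun i => κ i) _).trans
      ((Equiv.sigmaCongrRight Ψ).trans (Equiv.ofBijective g hgb))
  refine ⟨Σ i : ι, κ i, T, ?_⟩
  rintro ⟨i, k⟩ u v huv
  change F.Adj (g ⟨i, Ψ i (k, u)⟩) (g ⟨i, Ψ i (k, v)⟩)
  exact hadj i _ _ _ _ (hΨ i k u v huv) (hg ⟨i, Ψ i (k, u)⟩) (hg ⟨i, Ψ i (k, v)⟩)

theorem host3_rev [Fintype ρ] {H : SimpleGraph V} {R : C → C → Prop} {o : C} {w : C → ℤ}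
    {lam mu : ℤ} {ψ : V → C} {fil : ρ → V → C} (hc : Cert H R o w lam mu ψ fil)
    {m m' N e q : ℕ} (hm : (tcore H o ψ).card * m' = m)
    (eA : {v // v ∉ tcore H o ψ} ≃ Fin e) (eB : ρ × V ≃ Fin q) {F : SimpleGraph (Fin m)}
    (hG : HasFactor H (host3 (m' := m') (N := N) R hc.symm o (fun x => ψ (eA.symm x).1)
      (fun y => fil (eB.symm y).1 (eB.symm y).2) F)) :
    HasFactor (H.induce (tcore H o ψ : Set V)) F := by
  obtain ⟨ι, Φ, hΦ⟩ := hG
  obtain ⟨x₀, hx₀⟩ := hc.ne
  have hfin : Finite ι := Finite.of_injective (fun i => Φ (i, x₀))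
    (fun i j e => congrArg Prod.fst (Φ.injective e))
  obtain ⟨instι⟩ := nonempty_fintype ι
  have hV : 0 < Fintype.card V := Fintype.card_pos_iff.2 ⟨x₀⟩
  set cl : HV m m' N e q → C := cls3 o (fun x => ψ (eA.symm x).1)
      (fun y => fil (eB.symm y).1 (eB.symm y).2) with hcl
  have he : (tcore H o ψ).card + e = Fintype.card V := by
    have h1 : Fintype.card {v // v ∉ tcore H o ψ} = e := by
      rw [Fintype.card_congr eA, Fintype.card_fin]
    rw [← h1, Fintype.card_subtype_compl, Fintype.card_coe]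
    have := Finset.card_le_univ (tcore H o ψ)
    omega
  have hq : q = Fintype.card ρ * Fintype.card V := by
    have h1 : Fintype.card (ρ × V) = q := by rw [Fintype.card_congr eB, Fintype.card_fin]
    rw [← h1, Fintype.card_prod]
  -- the number of tiles
  have hι : Fintype.card ι = m' + N * Fintype.card ρ := by
    have h1 : Fintype.card (ι × V) = Fintype.card (HV m m' N e q) := Fintype.card_congr Φ
    rw [Fintype.card_prod, Fintype.card_sum, Fintype.card_sum, Fintype.card_prod,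
      Fintype.card_prod, Fintype.card_fin, Fintype.card_fin, Fintype.card_fin, Fintype.card_fin,
      Fintype.card_fin] at h1
    have h2 : Fintype.card ι * Fintype.card V = (m' + N * Fintype.card ρ) * Fintype.card V := by
      rw [h1, hq, ← hm]
      calc (tcore H o ψ).card * m' + (m' * e + N * (Fintype.card ρ * Fintype.card V))
          = m' * ((tcore H o ψ).card + e) + N * (Fintype.card ρ * Fintype.card V) := by ring
        _ = (m' + N * Fintype.card ρ) * Fintype.card V := by rw [he]; ring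
    exact Nat.eq_of_mul_eq_mul_right hV h2
  set φ : ι → V → C := fun i v => cl (Φ (i, v)) with hφ
  have hφt : ∀ i, IsTile H R o (φ i) := by
    intro i u v huv
    rcases hΦ i u v huv with ⟨x, y, hx, hy, -⟩ | ⟨-, h⟩
    · right
      exact ⟨by simp only [hφ, hx]; rfl, by simp only [hφ, hy]; rfl⟩
    · left
      exact h
  set Fi : ι → Finset V := fun i => univ.filter (fun v => ∃ x, Φ (i, v) = Sum.inl x) with hFi
  have hcore : ∀ i, tcore H o (φ i) ⊆ Fi i := by
    intro i v hv
    obtain ⟨h1, u, h2, huv⟩ := mem_tcore.1 hv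
    refine Finset.mem_filter.2 ⟨Finset.mem_univ _, ?_⟩
    rcases hΦ i u v huv with ⟨x, y, hx, hy, -⟩ | ⟨-, h⟩
    · exact ⟨y, hy⟩
    · exfalso
      have h3 : R (φ i u) (φ i v) := h
      rw [h1, h2] at h3
      exact hc.irr h3
  have hsumF : ∑ i, (Fi i).card = m := by
    have e1 : (Σ i : ι, {v : V // ∃ x, Φ (i, v) = Sum.inl x}) ≃ Fin m :=
      Equiv.ofBijective (fun z => z.2.2.choose) (by
        constructor
        · rintro ⟨i, v, hv⟩ ⟨j, w, hw⟩ h
          have h1 := hv.choose_spec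
          have h2 := hw.choose_spec
          have h3 : hv.choose = hw.choose := h
          rw [h3, ← h2] at h1
          have h4 := Φ.injective h1
          simp only [Prod.mk.injEq] at h4
          obtain ⟨rfl, rfl⟩ := h4
          rfl
        · intro x
          have h1 : Φ ((Φ.symm (Sum.inl x)).1, (Φ.symm (Sum.inl x)).2) = Sum.inl x := by simp
          refine ⟨⟨(Φ.symm (Sum.inl x)).1, (Φ.symm (Sum.inl x)).2, x, h1⟩, ?_⟩
          have h2 : ∃ y, Φ ((Φ.symm (Sum.inl x)).1, (Φ.symm (Sum.inl x)).2) = Sum.inl y := ⟨x, h1⟩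
          exact Sum.inl.inj (h2.choose_spec.symm.trans h1))
    rw [← Fintype.card_fin m, ← Fintype.card_congr e1, Fintype.card_sigma]
    refine Finset.sum_congr rfl fun i _ => ?_
    rw [Fintype.card_subtype]
  have hsum : ∑ i, ∑ v, w (φ i v) = (Fintype.card ι : ℤ) * lam + mu * m := by
    have h1 : ∑ i, ∑ v, w (φ i v) = ∑ p : HV m m' N e q, w (cl p) := by
      rw [← Fintype.sum_prod_type' (f := fun i v => w (φ i v))]
      exact Equiv.sum_comp Φ (fun p => w (cl p))
    have h2 : ∑ x : Fin e, w (ψ (eA.symm x).1) = lam + mu * (tcore H o ψ).card - (tcore H o ψ).card * w o := by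
      have h3 : ∑ x : Fin e, w (ψ (eA.symm x).1) = ∑ v : {v // v ∉ tcore H o ψ}, w (ψ v.1) :=
        Equiv.sum_comp eA.symm (fun v : {v // v ∉ tcore H o ψ} => w (ψ v.1))
      have h4 : ∑ v, w (ψ v) = ∑ v ∈ tcore H o ψ, w (ψ v) + ∑ v ∈ (tcore H o ψ)ᶜ, w (ψ v) :=
        (Finset.sum_add_sum_compl (tcore H o ψ) _).symm
      have h5 : ∑ v ∈ tcore H o ψ, w (ψ v) = (tcore H o ψ).card * w o := by
        rw [Finset.sum_congr rfl (fun v hv => by rw [(mem_tcore.1 hv).1]), Finset.sum_const,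
          nsmul_eq_mul]
      have h6 : ∑ v ∈ (tcore H o ψ)ᶜ, w (ψ v) = ∑ v : {v // v ∉ tcore H o ψ}, w (ψ v.1) := by
        rw [← Finset.sum_subtype (tcore H o ψ)ᶜ (p := fun v => v ∉ tcore H o ψ) (by simp) (fun v => w (ψ v))]
      rw [hc.eqψ] at h4
      rw [h3, ← h6]
      linarith
    have h3 : ∑ y : Fin q, w (fil (eB.symm y).1 (eB.symm y).2) = Fintype.card ρ * lam := by
      have h4 : ∑ y : Fin q, w (fil (eB.symm y).1 (eB.symm y).2) =
          ∑ z : ρ × V, w (fil z.1 z.2) := Equiv.sum_comp eB.symm (fun z : ρ × V => w (fil z.1 z.2))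
      rw [h4, Fintype.sum_prod_type]
      rw [Finset.sum_congr rfl (fun r _ => hc.eqf r), Finset.sum_const, Finset.card_univ,
        nsmul_eq_mul]
    rw [h1, Fintype.sum_sum_type, Fintype.sum_sum_type, Fintype.sum_prod_type,
      Fintype.sum_prod_type]
    have h4 : ∀ i : Fin m', ∑ x : Fin e, w (cl (Sum.inr (Sum.inl (i, x)))) =
        lam + mu * (tcore H o ψ).card - (tcore H o ψ).card * w o := fun i => h2
    have h5 : ∀ j : Fin N, ∑ y : Fin q, w (cl (Sum.inr (Sum.inr (j, y)))) =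
        Fintype.card ρ * lam := fun j => h3
    have h6 : ∑ x : Fin m, w (cl (Sum.inl x)) = m * w o := by
      have : ∀ x : Fin m, w (cl (Sum.inl x)) = w o := fun x => rfl
      rw [Finset.sum_congr rfl (fun x _ => this x), Finset.sum_const, Finset.card_univ,
        Fintype.card_fin, nsmul_eq_mul]
    rw [Finset.sum_congr rfl (fun i _ => h4 i), Finset.sum_congr rfl (fun j _ => h5 j), h6,
      Finset.sum_const, Finset.sum_const, Finset.card_univ, Finset.card_univ, Fintype.card_fin,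
      Fintype.card_fin, hι, ← hm]
    push_cast
    simp only [nsmul_eq_mul]
    ring
  have hle1 : ∀ i, ∑ v, w (φ i v) ≤ lam + mu * (tcore H o (φ i)).card := fun i =>
    hc.le (φ i) (hφt i)
  have hle2 : ∀ i, lam + mu * ((tcore H o (φ i)).card : ℤ) ≤ lam + mu * ((Fi i).card : ℤ) := by
    intro i
    have h1 : ((tcore H o (φ i)).card : ℤ) ≤ ((Fi i).card : ℤ) := by
      exact_mod_cast Finset.card_le_card (hcore i)
    have := mul_le_mul_of_nonneg_left h1 hc.pos.le
    linarith
  have htot : ∑ i, ∑ v, w (φ i v) = ∑ i, (lam + mu * ((Fi i).card : ℤ)) := by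
    rw [hsum, Finset.sum_add_distrib, ← Finset.mul_sum, Finset.sum_const, Finset.card_univ,
      nsmul_eq_mul]
    congr 2
    rw [← Nat.cast_sum, hsumF]
  have heq := (Finset.sum_eq_sum_iff_of_le
    (fun i (_ : i ∈ univ) => (hle1 i).trans (hle2 i))).1 htot
  have heq1 : ∀ i, tcore H o (φ i) = Fi i := by
    intro i
    have h1 := heq i (Finset.mem_univ i)
    have h2 := hle1 i
    have h3 := hle2 i
    have h4 : mu * ((tcore H o (φ i)).card : ℤ) = mu * ((Fi i).card : ℤ) := by linarith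
    have h5 : ((tcore H o (φ i)).card : ℤ) = ((Fi i).card : ℤ) := mul_left_cancel₀ hc.pos.ne' h4
    have h6 : (tcore H o (φ i)).card = (Fi i).card := by exact_mod_cast h5
    exact Finset.eq_of_subset_of_card_le (hcore i) h6.ge
  have hfac : ∀ i, HasFactor (H.induce (tcore H o ψ : Set V)) (H.induce (Fi i : Set V)) := by
    intro i
    have h1 := heq i (Finset.mem_univ i)
    have h2 := hc.fac (φ i) (hφt i) (by rw [heq1 i]; exact h1)
    rw [heq1 i] at h2
    exact h2
  refine compose Φ Sum.inl Sum.inl_injective Fi (fun i v => by simp [hFi]) hfac ?_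
  intro i u v x y huv hx hy
  rcases hΦ i u v huv with ⟨x', y', hx', hy', h⟩ | ⟨-, h⟩
  · rw [hx] at hx'
    rw [hy] at hy'
    rw [Sum.inl.inj hx', Sum.inl.inj hy']
    exact h
  · exfalso
    have h3 : R (cl (Φ (i, u))) (cl (Φ (i, v))) := h
    rw [hx, hy] at h3
    exact hc.irr h3

end Pool.Agent.H34.HF
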