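import Pool.Agent.H34.HF.Out

set_option autoImplicit false
set_option linter.unusedSectionVars false

/-!
# The reduction for vertex-transitive graphs
-/

namespace Pool.Agent.H34.HF

open scoped Classical
open Finset Pool.Agent.H17.HF Pool.Agent.H80.Poly Pool.Agent.H72.NP

variable {V : Type} [Fintype V] {H : SimpleGraph V} {X₀ : Finset V}

theorem card_dvd {W : Type} [Fintype W] {K : SimpleGraph W} {m : ℕ} {Q : Type} [Fintype Q]
    {G : SimpleGraph Q} (hQ : Fintype.card Q = m) (hW : 0 < Fintype.card W) (h : HasFactor K G) :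
    Fintype.card W ∣ m := by
  obtain ⟨ι, Φ, -⟩ := h
  obtain ⟨w⟩ := Fintype.card_pos_iff.1 hW
  have hfin : Finite ι := Finite.of_injective (fun i => Φ (i, w))
    (fun i j e => congrArg Prod.fst (Φ.injective e))
  have h1 : Nat.card (ι × W) = Nat.card Q := Nat.card_congr Φ
  rw [Nat.card_prod, Nat.card_eq_fintype_card (α := W), Nat.card_eq_fintype_card (α := Q), hQ] at h1
  exact ⟨Nat.card ι, by rw [← h1, Nat.mul_comm]⟩

theorem VT.equiv (h : VT H X₀) (hlt : X₀.card < Fintype.card V) {I : Finset V}
    (hI : Prim H X₀ I) (R : ℕ) (g : Gr) :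
    HasFactor (H.induce (core H I : Set V)) g.2 ↔ HasFactor H
      (hout (core H I).card I.card X₀.card (Fintype.card V - (core H I).card - I.card)
        (Fintype.card V - X₀.card) R g).2 := by
  have hkpos : 0 < (core H I).card := Finset.card_pos.2 (hI.core_nonempty h)
  have hV : 0 < Fintype.card V := by omega
  rw [show HasFactor H (hout (core H I).card I.card X₀.card
      (Fintype.card V - (core H I).card - I.card) (Fintype.card V - X₀.card) R g).2 ↔ _ from
    hasFactor_comap (H := H) (enum g.1 (szA (core H I).card I.card X₀.card R g.1)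
      (szB (core H I).card (Fintype.card V - (core H I).card - I.card)
        (Fintype.card V - X₀.card) R g.1))]
  by_cases hdvd : (core H I).card ∣ g.1
  · have hm : (core H I).card * (g.1 / (core H I).card) = g.1 := Nat.mul_div_cancel' hdvd
    constructor
    · intro hF
      exact host_fwd (N := R * (g.1 + 1)) hI.opt.ind h.ind (hI.core_nonempty h) hm rfl rfl hF
    · intro hG
      exact h.host_rev (N := R * (g.1 + 1)) hlt hI hm rfl rfl hG
  · have hUc : Fintype.card (core H I : Set V) = (core H I).card := by
      rw [← Nat.card_eq_fintype_card, Nat.card_coe_set_eq, Set.ncard_coe_finset]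
    have hUI : (core H I).card + I.card ≤ Fintype.card V := by
      rw [← Finset.card_union_of_disjoint (disj_core (Finset.Subset.refl (core H I))).symm]
      exact Finset.card_le_univ _
    constructor
    · intro hF
      exfalso
      have h1 := card_dvd (m := g.1) (Fintype.card_fin _) (by rw [hUc]; exact hkpos) hF
      rw [hUc] at h1
      exact hdvd h1
    · intro hG
      exfalso
      have h1 := card_dvd (m := g.1 + (szA (core H I).card I.card X₀.card R g.1 +
        szB (core H I).card (Fintype.card V - (core H I).card - I.card)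
          (Fintype.card V - X₀.card) R g.1)) (by
            rw [Fintype.card_sum, Fintype.card_sum, Fintype.card_fin, Fintype.card_fin,
              Fintype.card_fin]) hV hG
      obtain ⟨e, he⟩ := Nat.exists_eq_add_of_le hUI
      obtain ⟨d, hd⟩ := Nat.exists_eq_add_of_le hlt.le
      have hd' : Fintype.card V - X₀.card = d := by omega
      have he' : Fintype.card V - (core H I).card - I.card = e := by omega
      rw [hd', he'] at h1
      have hdm := Nat.div_add_mod g.1 (core H I).card
      have h2 : g.1 + (szA (core H I).card I.card X₀.card R g.1 + szB (core H I).card e d R g.1) =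
          Fintype.card V * (g.1 / (core H I).card + R * (g.1 + 1)) + g.1 % (core H I).card := by
        unfold szA szB
        set q := g.1 / (core H I).card with hq
        set s := g.1 % (core H I).card with hs
        set N := R * (g.1 + 1) with hN
        calc g.1 + (q * I.card + N * X₀.card + (q * e + N * d))
            = ((core H I).card * q + s) + (q * I.card + N * X₀.card + (q * e + N * d)) := by
              rw [hdm]
          _ = ((core H I).card + I.card + e) * q + (X₀.card + d) * N + s := by ring
          _ = Fintype.card V * (q + N) + s := by rw [← he, ← hd]; ring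
      rw [h2] at h1
      have h3 : Fintype.card V ∣ g.1 % (core H I).card :=
        (Nat.dvd_add_right ⟨_, rfl⟩).1 h1
      have h4 : g.1 % (core H I).card < (core H I).card := Nat.mod_lt _ hkpos
      have h5 : g.1 % (core H I).card = 0 := Nat.eq_zero_of_dvd_of_lt h3 (by omega)
      exact hdvd (Nat.dvd_of_mod_eq_zero h5)

/-- **The reduction.** -/
theorem VT.reducesTo (h : VT H X₀) (hlt : X₀.card < Fintype.card V) {I : Finset V}
    (hI : Prim H X₀ I) {c : ℝ} (hc : c < 1 - (X₀.card : ℝ) / Fintype.card V) :
    ReducesTo (H.induce (core H I : Set V)) H c := by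
  have hα : 0 < X₀.card := Finset.card_pos.2 h.ne
  have hV : (0 : ℝ) < Fintype.card V := by
    have : 0 < Fintype.card V := by omega
    exact_mod_cast this
  have hβ : ((Fintype.card V - X₀.card : ℕ) : ℝ) = (Fintype.card V : ℝ) - X₀.card :=
    Nat.cast_sub hlt.le
  set δ : ℝ := ((Fintype.card V - X₀.card : ℕ) : ℝ) -
    c * (X₀.card + ((Fintype.card V - X₀.card : ℕ) : ℝ)) with hδ
  have hδ0 : 0 < δ := by
    have h1 : c * Fintype.card V < (1 - (X₀.card : ℝ) / Fintype.card V) * Fintype.card V :=
      mul_lt_mul_of_pos_right hc hV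
    have h2 : (1 - (X₀.card : ℝ) / Fintype.card V) * Fintype.card V =
        (Fintype.card V : ℝ) - X₀.card := by
      field_simp
    rw [h2] at h1
    rw [hδ, hβ]
    have h3 : c * ((X₀.card : ℝ) + ((Fintype.card V : ℝ) - X₀.card)) = c * Fintype.card V := by ring
    rw [h3]
    linarith
  set s : ℝ := |c| * (1 + (I.card : ℝ) +
    ((Fintype.card V - (core H I).card - I.card : ℕ) : ℝ)) with hs
  have hs0 : 0 ≤ s := by positivity
  obtain ⟨R, hR⟩ := exists_nat_gt (s / δ)
  have hR0 : 0 < R := by
    have : (0 : ℝ) < R := lt_of_le_of_lt (div_nonneg hs0 hδ0.le) hR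
    exact_mod_cast this
  have hR1 : s ≤ R * δ := by
    rw [div_lt_iff₀ hδ0] at hR
    exact hR.le
  have hmin : ∀ g, MinDeg c (hout (core H I).card I.card X₀.card
      (Fintype.card V - (core H I).card - I.card) (Fintype.card V - X₀.card) R g) := fun g =>
    minDeg_hout hα hR0 hR1 g
  exact ⟨_, hout_poly _ _ _ _ _ R hmin, fun g => h.equiv hlt hI R g⟩

/-- **Vertex-transitive graphs.** -/
theorem reducesTo_of_transitive (H : SimpleGraph V) (htr : ∀ u v, ∃ γ : H ≃g H, γ u = v)
    (hdeg : ∃ u v w, H.Adj u v ∧ H.Adj u w ∧ v ≠ w) (X₀ : Finset V)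
    (hind : ∀ x ∈ X₀, ∀ y ∈ X₀, ¬ H.Adj x y)
    (hmax : ∀ X : Finset V, (∀ x ∈ X, ∀ y ∈ X, ¬ H.Adj x y) → X.card ≤ X₀.card) :
    ∃ U : Finset V, 3 ≤ U.card ∧ (H.induce (U : Set V)).Connected ∧
      Fintype.card V ∣ X₀.card * U.card ∧
      ∀ c : ℝ, c < 1 - (X₀.card : ℝ) / Fintype.card V → ReducesTo (H.induce (U : Set V)) H c := by
  obtain ⟨u, v, w, huv, huw, hvw⟩ := hdeg
  have hne : X₀.Nonempty := by
    rw [← Finset.card_pos]
    have h1 := hmax {u} (by
      intro x hx y hy
      rw [Finset.mem_singleton.1 hx, Finset.mem_singleton.1 hy]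
      exact H.loopless.irrefl u)
    rw [Finset.card_singleton] at h1
    exact h1
  have h : VT H X₀ := ⟨htr, hind, hmax, hne⟩
  obtain ⟨I, hI⟩ := h.exists_prim
  exact ⟨core H I, h.three_le hI huv huw hvw, h.connected hI, hI.opt.dvd,
    fun c hc => h.reducesTo (h.card_lt huv) hI hc⟩

end Pool.Agent.H34.HF
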