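import Pool.Agent.H34.HF.Host

set_option autoImplicit false
set_option linter.unusedSectionVars false

/-!
# From a factor of `F` to a factor of the host
-/

namespace Pool.Agent.H34.HF

open scoped Classical
open Finset Pool.Agent.H17.HF

variable {V : Type} [Fintype V] {H : SimpleGraph V} {X₀ : Finset V}

/-- two class functions on the two kinds of tiles -/
def cl2 {κ : Type} {N : ℕ} (c1 c2 : V → Fin 3) : (κ ⊕ Fin N) × V → Fin 3
  | (Sum.inl _, v) => c1 v
  | (Sum.inr _, v) => c2 v

theorem card_cl2 {κ : Type} [Finite κ] {N : ℕ} (c1 c2 : V → Fin 3) (c : Fin 3) :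
    Nat.card {p : (κ ⊕ Fin N) × V // cl2 c1 c2 p = c} =
      Nat.card κ * (univ.filter (fun v => c1 v = c)).card +
        N * (univ.filter (fun v => c2 v = c)).card := by
  let f : (κ × {v // c1 v = c}) ⊕ (Fin N × {v // c2 v = c}) →
      {p : (κ ⊕ Fin N) × V // cl2 c1 c2 p = c} := fun z =>
    match z with
    | Sum.inl y => ⟨(Sum.inl y.1, y.2.1), y.2.2⟩
    | Sum.inr y => ⟨(Sum.inr y.1, y.2.1), y.2.2⟩
  have hf : Function.Bijective f := by
    constructor
    · rintro (⟨i, v, hv⟩ | ⟨i, v, hv⟩) (⟨j, w, hw⟩ | ⟨j, w, hw⟩) h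
      · have h1 := Subtype.ext_iff.1 h
        simp only [f, Prod.mk.injEq, Sum.inl.injEq] at h1
        obtain ⟨rfl, rfl⟩ := h1
        rfl
      · have h1 := Subtype.ext_iff.1 h
        simp [f] at h1
      · have h1 := Subtype.ext_iff.1 h
        simp [f] at h1
      · have h1 := Subtype.ext_iff.1 h
        simp only [f, Prod.mk.injEq, Sum.inr.injEq] at h1
        obtain ⟨rfl, rfl⟩ := h1
        rfl
    · rintro ⟨⟨i | j, v⟩, hv⟩
      · exact ⟨Sum.inl (i, ⟨v, hv⟩), rfl⟩
      · exact ⟨Sum.inr (j, ⟨v, hv⟩), rfl⟩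
  rw [← Nat.card_congr (Equiv.ofBijective f hf), Nat.card_sum, Nat.card_prod, Nat.card_prod,
    Nat.card_eq_fintype_card (α := Fin N), Fintype.card_fin,
    Nat.card_eq_fintype_card (α := {v // c1 v = c}), Nat.card_eq_fintype_card (α := {v // c2 v = c}),
    Fintype.card_subtype, Fintype.card_subtype]

/-- the classes of a tile of the first kind -/
noncomputable def cA (H : SimpleGraph V) (I : Finset V) (v : V) : Fin 3 :=
  if v ∈ core H I then 0 else if v ∈ I then 1 else 2

/-- the classes of a tile of the second kind -/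
noncomputable def cB (X₀ : Finset V) (v : V) : Fin 3 := if v ∈ X₀ then 1 else 2

theorem cA_zero {I : Finset V} {v : V} : cA H I v = 0 ↔ v ∈ core H I := by
  unfold cA
  split_ifs with h1 h2
  · exact ⟨fun _ => h1, fun _ => rfl⟩
  · exact ⟨fun h => absurd h (by decide), fun h => absurd h h1⟩
  · exact ⟨fun h => absurd h (by decide), fun h => absurd h h1⟩

theorem cA_one {I : Finset V} {v : V} : cA H I v = 1 ↔ v ∈ I := by
  unfold cA
  split_ifs with h1 h2
  · exact ⟨fun h => absurd h (by decide), fun h => absurd h (mem_core.1 h1).1⟩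
  · exact ⟨fun _ => h2, fun _ => rfl⟩
  · exact ⟨fun h => absurd h (by decide), fun h => absurd h h2⟩

theorem cA_ne_two {I : Finset V} {v : V} (h : cA H I v ≠ 2) : v ∈ core H I ∨ v ∈ I := by
  unfold cA at h
  split_ifs at h with h1 h2
  · exact Or.inl h1
  · exact Or.inr h2
  · exact absurd rfl h

theorem card_cA_one (I : Finset V) : (univ.filter (fun v => cA H I v = 1)).card = I.card := by
  congr 1
  ext v
  rw [Finset.mem_filter, cA_one]
  exact ⟨fun h => h.2, fun h => ⟨Finset.mem_univ _, h⟩⟩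

theorem card_cA_two (I : Finset V) : (univ.filter (fun v => cA H I v = 2)).card =
    Fintype.card V - (core H I).card - I.card := by
  have h1 : univ.filter (fun v => cA H I v = 2) = (core H I ∪ I)ᶜ := by
    ext v
    rw [Finset.mem_filter, Finset.mem_compl, Finset.mem_union]
    constructor
    · rintro ⟨-, h⟩ (h' | h')
      · rw [cA_zero.2 h'] at h
        exact absurd h (by decide)
      · rw [cA_one.2 h'] at h
        exact absurd h (by decide)
    · intro h
      refine ⟨Finset.mem_univ _, ?_⟩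
      by_contra hne
      exact h (cA_ne_two hne)
  have h2 : Disjoint (core H I) I := (disj_core (Finset.Subset.refl _)).symm
  rw [h1, Finset.card_compl, Finset.card_union_of_disjoint h2]
  omega

theorem cB_ne_two {v : V} (h : cB X₀ v ≠ 2) : v ∈ X₀ := by
  unfold cB at h
  split_ifs at h with h1
  · exact h1
  · exact absurd rfl h

theorem card_cB_one : (univ.filter (fun v => cB X₀ v = 1)).card = X₀.card := by
  congr 1
  ext v
  rw [Finset.mem_filter]
  unfold cB
  split_ifs with h1
  · exact ⟨fun _ => h1, fun _ => ⟨Finset.mem_univ _, rfl⟩⟩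
  · exact ⟨fun h => absurd h.2 (by decide), fun h => absurd h h1⟩

theorem card_cB_two : (univ.filter (fun v => cB X₀ v = 2)).card =
    Fintype.card V - X₀.card := by
  rw [← Finset.card_compl]
  congr 1
  ext v
  rw [Finset.mem_filter, Finset.mem_compl]
  unfold cB
  split_ifs with h1
  · exact ⟨fun h => absurd h.2 (by decide), fun h => absurd h1 h⟩
  · exact ⟨fun _ => h1, fun _ => ⟨Finset.mem_univ _, rfl⟩⟩

theorem host_fwd {I : Finset V} (hI : Ind H I) (hX : Ind H X₀) (hU : (core H I).Nonempty)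
    {m m' N a b : ℕ} (hm : (core H I).card * m' = m) {F : SimpleGraph (Fin m)}
    (ha : a = m' * I.card + N * X₀.card)
    (hb : b = m' * (Fintype.card V - (core H I).card - I.card) + N * (Fintype.card V - X₀.card))
    (hF : HasFactor (H.induce (core H I : Set V)) F) : HasFactor H (host F a b) := by
  obtain ⟨κ, Ψ, hΨ⟩ := hF
  obtain ⟨u₀, hu₀⟩ := hU
  have hfin : Finite κ := Finite.of_injective
    (fun i => Ψ (i, (⟨u₀, Finset.mem_coe.2 hu₀⟩ : (core H I : Set V))))
    (fun i j h => congrArg Prod.fst (Ψ.injective h))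
  have hκ : Nat.card κ = m' := by
    have h1 : Nat.card (κ × (core H I : Set V)) = m := by
      rw [Nat.card_congr Ψ, Nat.card_eq_fintype_card, Fintype.card_fin]
    rw [Nat.card_prod, ← hm] at h1
    have h2 : Nat.card (core H I : Set V) = (core H I).card := by
      rw [Nat.card_coe_set_eq, Set.ncard_coe_finset]
    rw [h2, Nat.mul_comm] at h1
    exact Nat.eq_of_mul_eq_mul_left (Finset.card_pos.2 ⟨u₀, hu₀⟩) h1
  let cl : (κ ⊕ Fin N) × V → Fin 3 := cl2 (cA H I) (cB X₀)
  let A : κ × (core H I : Set V) ≃ {p : (κ ⊕ Fin N) × V // cl p = 0} :=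
    Equiv.ofBijective (fun z => ⟨(Sum.inl z.1, z.2.1), cA_zero.2 (Finset.mem_coe.1 z.2.2)⟩) (by
      constructor
      · rintro ⟨i, u, hu⟩ ⟨j, v, hv⟩ h
        have h1 := Subtype.ext_iff.1 h
        simp only [Prod.mk.injEq, Sum.inl.injEq] at h1
        obtain ⟨rfl, rfl⟩ := h1
        rfl
      · rintro ⟨⟨i | j, v⟩, hv⟩
        · exact ⟨(i, ⟨v, Finset.mem_coe.2 (cA_zero.1 hv)⟩), rfl⟩
        · exfalso
          have hv' : cB X₀ v = 0 := hv
          unfold cB at hv'
          split_ifs at hv'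
          · exact absurd hv' (by decide)
          · exact absurd hv' (by decide))
  let B : Fin m ≃ {q : Fin m ⊕ (Fin a ⊕ Fin b) // rk q = 0} :=
    Equiv.ofBijective (fun x => ⟨Sum.inl x, rfl⟩) ⟨fun x y h => Sum.inl.inj (Subtype.ext_iff.1 h), by
      rintro ⟨x | x | x, hx⟩
      · exact ⟨x, rfl⟩
      · exact absurd hx (by simp [rk])
      · exact absurd hx (by simp [rk])⟩
  obtain ⟨E, hE, hE0⟩ := glue cl (rk (m := m) (a := a) (b := b)) (A.symm.trans (Ψ.trans B))
    (by rw [card_cl2, hκ, card_cA_one, card_cB_one, card_rk1, ha])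
    (by rw [card_cl2, hκ, card_cA_two, card_cB_two, card_rk2, hb])
  have hE1 : ∀ (i : κ) (u : (core H I : Set V)), E (Sum.inl i, u.1) = Sum.inl (Ψ (i, u)) := by
    intro i u
    rw [hE0 (Sum.inl i, u.1) (cA_zero.2 (Finset.mem_coe.1 u.2))]
    change (B (Ψ (A.symm _))).1 = _
    have : A.symm ⟨(Sum.inl i, u.1), cA_zero.2 (Finset.mem_coe.1 u.2)⟩ = (i, u) := by
      rw [Equiv.symm_apply_eq]
      rfl
    rw [this]
    rfl
  refine ⟨κ ⊕ Fin N, E, fun s u v huv => ?_⟩
  have hne : E (s, u) ≠ E (s, v) := fun h => huv.ne (congrArg Prod.snd (E.injective h))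
  by_cases h2 : rk (E (s, u)) = 2 ∨ rk (E (s, v)) = 2
  · exact host_adj_of_two hne h2
  · push Not at h2
    rw [hE, hE] at h2
    rcases s with i | j
    · have h3 := cA_ne_two (H := H) h2.1
      have h4 := cA_ne_two (H := H) h2.2
      rcases h3 with h3 | h3 <;> rcases h4 with h4 | h4
      · rw [hE1 i ⟨u, Finset.mem_coe.2 h3⟩, hE1 i ⟨v, Finset.mem_coe.2 h4⟩]
        exact hΨ i _ _ huv
      · exact absurd huv.symm ((mem_core.1 h3).2 v h4)
      · exact absurd huv ((mem_core.1 h4).2 u h3)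
      · exact absurd huv (hI u h3 v h4)
    · exact absurd huv (hX u (cB_ne_two h2.1) v (cB_ne_two h2.2))

end Pool.Agent.H34.HF
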