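import Pool.Agent.H34.HF.Trn2

set_option autoImplicit false
set_option linter.unusedSectionVars false

/-!
# The host graph
-/

namespace Pool.Agent.H34.HF

open scoped Classical
open Finset Pool.Agent.H17.HF

/-! ### gluing bijections along classes -/

theorem glue {P Q : Type} [Finite P] [Finite Q] (cl : P → Fin 3) (cl' : Q → Fin 3)
    (E0 : {p // cl p = 0} ≃ {q // cl' q = 0})
    (h1 : Nat.card {p // cl p = 1} = Nat.card {q // cl' q = 1})
    (h2 : Nat.card {p // cl p = 2} = Nat.card {q // cl' q = 2}) :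
    ∃ E : P ≃ Q, (∀ p, cl' (E p) = cl p) ∧ ∀ (p : P) (h : cl p = 0), E p = (E0 ⟨p, h⟩).1 := by
  obtain ⟨E1⟩ := (Finite.card_eq (α := {p // cl p = 1}) (β := {q // cl' q = 1})).1 h1
  obtain ⟨E2⟩ := (Finite.card_eq (α := {p // cl p = 2}) (β := {q // cl' q = 2})).1 h2
  let Ec : ∀ c : Fin 3, {p // cl p = c} ≃ {q // cl' q = c} := fun c =>
    match c with
    | 0 => E0
    | 1 => E1
    | 2 => E2
  refine ⟨(Equiv.sigmaFiberEquiv cl).symm.trans
    ((Equiv.sigmaCongrRight Ec).trans (Equiv.sigmaFiberEquiv cl')), fun p => ?_, fun p h => ?_⟩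
  · change cl' (Ec (cl p) ⟨p, rfl⟩).1 = cl p
    exact (Ec (cl p) ⟨p, rfl⟩).2
  · change (Ec (cl p) ⟨p, rfl⟩).1 = _
    have : ∀ (c : Fin 3) (hc : cl p = c) (hc0 : c = 0),
        (Ec c ⟨p, hc⟩).1 = (E0 ⟨p, hc.trans hc0⟩).1 := by
      intro c hc hc0
      subst hc0
      rfl
    exact this (cl p) rfl h

/-! ### the graph -/

/-- The host: `F` together with `a` vertices joined only to the last `b` vertices, and `b` vertices
joined to everything. -/
def host {m : ℕ} (F : SimpleGraph (Fin m)) (a b : ℕ) : SimpleGraph (Fin m ⊕ (Fin a ⊕ Fin b)) where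
  Adj p q := match p, q with
    | Sum.inl x, Sum.inl y => F.Adj x y
    | Sum.inl _, Sum.inr (Sum.inl _) => False
    | Sum.inl _, Sum.inr (Sum.inr _) => True
    | Sum.inr (Sum.inl _), Sum.inl _ => False
    | Sum.inr (Sum.inl _), Sum.inr (Sum.inl _) => False
    | Sum.inr (Sum.inl _), Sum.inr (Sum.inr _) => True
    | Sum.inr (Sum.inr _), Sum.inl _ => True
    | Sum.inr (Sum.inr _), Sum.inr (Sum.inl _) => True
    | Sum.inr (Sum.inr x), Sum.inr (Sum.inr y) => x ≠ y
  symm := ⟨by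
    rintro (x | x | x) (y | y | y) h
    · exact F.adj_symm h
    · exact h
    · exact h
    · exact h
    · exact h
    · exact h
    · exact h
    · exact h
    · exact fun e => h e.symm⟩
  loopless := ⟨by
    rintro (x | x | x) h
    · exact F.loopless.irrefl x h
    · exact h
    · exact h rfl⟩

/-- the three classes -/
def rk {m a b : ℕ} : Fin m ⊕ (Fin a ⊕ Fin b) → Fin 3
  | Sum.inl _ => 0
  | Sum.inr (Sum.inl _) => 1
  | Sum.inr (Sum.inr _) => 2

variable {m a b : ℕ} {F : SimpleGraph (Fin m)}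

theorem host_adj_of_two {p q : Fin m ⊕ (Fin a ⊕ Fin b)} (hpq : p ≠ q) (h : rk p = 2 ∨ rk q = 2) :
    (host F a b).Adj p q := by
  rcases p with x | x | x <;> rcases q with y | y | y
  · rcases h with h | h <;> exact absurd h (by simp [rk])
  · rcases h with h | h <;> exact absurd h (by simp [rk])
  · trivial
  · rcases h with h | h <;> exact absurd h (by simp [rk])
  · rcases h with h | h <;> exact absurd h (by simp [rk])
  · trivial
  · trivial
  · trivial
  · exact fun e => hpq (by rw [e])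

theorem host_adj {p q : Fin m ⊕ (Fin a ⊕ Fin b)} (h : (host F a b).Adj p q) (hp : rk p ≠ 2)
    (hq : rk q ≠ 2) : ∃ x y, p = Sum.inl x ∧ q = Sum.inl y ∧ F.Adj x y := by
  rcases p with x | x | x <;> rcases q with y | y | y
  · exact ⟨x, y, rfl, rfl, h⟩
  · exact absurd h id
  · exact absurd rfl hq
  · exact absurd h id
  · exact absurd h id
  · exact absurd rfl hq
  · exact absurd rfl hp
  · exact absurd rfl hp
  · exact absurd rfl hp

theorem card_rk0 : Nat.card {q : Fin m ⊕ (Fin a ⊕ Fin b) // rk q = 0} = m := by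
  have e : Fin m ≃ {q : Fin m ⊕ (Fin a ⊕ Fin b) // rk q = 0} :=
    Equiv.ofBijective (fun x => ⟨Sum.inl x, rfl⟩) ⟨fun x y h => Sum.inl.inj (Subtype.ext_iff.1 h), by
      rintro ⟨x | x | x, hx⟩
      · exact ⟨x, rfl⟩
      · exact absurd hx (by simp [rk])
      · exact absurd hx (by simp [rk])⟩
  rw [← Nat.card_congr e, Nat.card_eq_fintype_card, Fintype.card_fin]

theorem card_rk1 : Nat.card {q : Fin m ⊕ (Fin a ⊕ Fin b) // rk q = 1} = a := by
  have e : Fin a ≃ {q : Fin m ⊕ (Fin a ⊕ Fin b) // rk q = 1} :=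
    Equiv.ofBijective (fun x => ⟨Sum.inr (Sum.inl x), rfl⟩) ⟨fun x y h =>
      Sum.inl.inj (Sum.inr.inj (Subtype.ext_iff.1 h)), by
      rintro ⟨x | x | x, hx⟩
      · exact absurd hx (by simp [rk])
      · exact ⟨x, rfl⟩
      · exact absurd hx (by simp [rk])⟩
  rw [← Nat.card_congr e, Nat.card_eq_fintype_card, Fintype.card_fin]

theorem card_rk2 : Nat.card {q : Fin m ⊕ (Fin a ⊕ Fin b) // rk q = 2} = b := by
  have e : Fin b ≃ {q : Fin m ⊕ (Fin a ⊕ Fin b) // rk q = 2} :=
    Equiv.ofBijective (fun x => ⟨Sum.inr (Sum.inr x), rfl⟩) ⟨fun x y h =>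
      Sum.inr.inj (Sum.inr.inj (Subtype.ext_iff.1 h)), by
      rintro ⟨x | x | x, hx⟩
      · exact absurd hx (by simp [rk])
      · exact absurd hx (by simp [rk])
      · exact ⟨x, rfl⟩⟩
  rw [← Nat.card_congr e, Nat.card_eq_fintype_card, Fintype.card_fin]

end Pool.Agent.H34.HF
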