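import Pool.Agent.H34.HF.Def

set_option autoImplicit false

/-!
# Splits of a graph and their cores
-/

namespace Pool.Agent.H34.HF

open scoped Classical

/-- `X` spans no edge of `H` -/
def Indep {V : Type} (H : SimpleGraph V) (X : Finset V) : Prop := ∀ x ∈ X, ∀ y ∈ X, ¬ H.Adj x y

/-- An `(s+1, l)`-split of `H`: two disjoint vertex sets `X`, `Y` such that `H[Y]` is `s`-colourable
and the rest of `H` is `l`-colourable (there is no condition on `X`). -/
structure Split {V : Type} [Fintype V] (H : SimpleGraph V) (s l : ℕ) (X Y : Finset V) : Prop where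
  disj : Disjoint X Y
  colY : (H.induce (Y : Set V)).Colorable s
  colR : (H.induce (((X ∪ Y)ᶜ : Finset V) : Set V)).Colorable l

/-- The core of `X`: the vertices of `X` with a neighbour in `X`. -/
noncomputable def coreOf {V : Type} (H : SimpleGraph V) (X : Finset V) : Finset V :=
  X.filter fun x => ∃ y ∈ X, H.Adj x y

end Pool.Agent.H34.HF
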