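import Pool.Agent.H34.HF.CertFin
import Pool.Agent.H34.HF.JLDef

set_option autoImplicit false
set_option linter.unusedSectionVars false

/-!
# Hosts with `s + 1` large and `l + 1` further classes
-/

namespace Pool.Agent.H34.HF

open scoped Classical
open Finset Pool.Agent.H17.HF

variable {V : Type} [Fintype V] {H : SimpleGraph V} {s l : ℕ}

/-- the classes -/
abbrev CJ (s l : ℕ) : Type := Fin (s + 1) ⊕ Fin (l + 1)

/-- the class containing the instance -/
def oJ (s l : ℕ) : CJ s l := Sum.inl 0

/-- the vertices in the class `o` -/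
noncomputable def Xof (φ : V → CJ s l) : Finset V := univ.filter fun v => φ v = Sum.inl 0

/-- the vertices in the other large classes -/
noncomputable def Yof (φ : V → CJ s l) : Finset V :=
  univ.filter fun v => ∃ i : Fin s, φ v = Sum.inl i.succ

theorem mem_Xof {φ : V → CJ s l} {v : V} : v ∈ Xof φ ↔ φ v = Sum.inl 0 := by simp [Xof]

theorem mem_Yof {φ : V → CJ s l} {v : V} : v ∈ Yof φ ↔ ∃ i : Fin s, φ v = Sum.inl i.succ := by
  simp [Yof]

theorem mem_compl {φ : V → CJ s l} {v : V} (h : v ∈ (Xof φ ∪ Yof φ)ᶜ) : ∃ i, φ v = Sum.inr i := by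
  rw [Finset.mem_compl, Finset.mem_union, mem_Xof, mem_Yof] at h
  push Not at h
  rcases hq : φ v with i | i
  · exfalso
    rcases Fin.eq_zero_or_eq_succ i with h0 | ⟨j, hj⟩
    · exact h.1 (by rw [hq, h0])
    · exact h.2 j (by rw [hq, hj])
  · exact ⟨i, rfl⟩

theorem tile_split {φ : V → CJ s l}
    (h : IsTile H (fun a b : CJ s l => a ≠ b) (Sum.inl 0) φ) :
    Split H s (l + 1) (Xof φ) (Yof φ) := by
  refine ⟨?_, ?_, ?_⟩
  · rw [Finset.disjoint_left]
    intro v hv hv'
    obtain ⟨i, hi⟩ := mem_Yof.1 hv'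
    rw [mem_Xof.1 hv] at hi
    exact (Fin.succ_ne_zero i) (Sum.inl.inj hi).symm
  · have hch : ∀ v : (Yof φ : Set V), ∃ i : Fin s, φ v.1 = Sum.inl i.succ := fun v =>
      mem_Yof.1 (Finset.mem_coe.1 v.2)
    choose f hf using hch
    refine ⟨SimpleGraph.Coloring.mk f fun {u v} huv he => ?_⟩
    have huv' : H.Adj u.1 v.1 := huv
    rcases h u.1 v.1 huv' with h1 | ⟨h1, -⟩
    · exact h1 (by rw [hf u, hf v, he])
    · rw [hf u] at h1
      exact (Fin.succ_ne_zero _) (Sum.inl.inj h1)
  · have hch : ∀ v : (((Xof φ ∪ Yof φ)ᶜ : Finset V) : Set V), ∃ i : Fin (l + 1),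
        φ v.1 = Sum.inr i := fun v => mem_compl (Finset.mem_coe.1 v.2)
    choose f hf using hch
    refine ⟨SimpleGraph.Coloring.mk f fun {u v} huv he => ?_⟩
    have huv' : H.Adj u.1 v.1 := huv
    rcases h u.1 v.1 huv' with h1 | ⟨h1, -⟩
    · exact h1 (by rw [hf u, hf v, he])
    · rw [hf u] at h1
      exact absurd h1 (by simp)

theorem tcore_eq (φ : V → CJ s l) : tcore H (Sum.inl 0) φ = coreOf H (Xof φ) := by
  ext v
  rw [mem_tcore, coreOf, Finset.mem_filter, mem_Xof]
  constructor
  · rintro ⟨h1, u, h2, h3⟩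
    exact ⟨h1, u, mem_Xof.2 h2, h3.symm⟩
  · rintro ⟨h1, u, h2, h3⟩
    exact ⟨h1, u, mem_Xof.1 h2, h3.symm⟩

theorem split_tile {X Y : Finset V} (h : Split H s (l + 1) X Y) :
    ∃ φ : V → CJ s l, IsTile H (fun a b : CJ s l => a ≠ b) (Sum.inl 0) φ ∧ Xof φ = X ∧
      Yof φ = Y := by
  obtain ⟨cY⟩ := h.colY
  obtain ⟨cR⟩ := h.colR
  have hmem : ∀ v, v ∉ X → v ∉ Y → v ∈ (((X ∪ Y)ᶜ : Finset V) : Set V) := by
    intro v h1 h2
    rw [Finset.mem_coe, Finset.mem_compl, Finset.mem_union]
    exact fun h => h.elim h1 h2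
  let φ : V → CJ s l := fun v =>
    if hX : v ∈ X then Sum.inl 0
    else if hY : v ∈ Y then Sum.inl (cY ⟨v, Finset.mem_coe.2 hY⟩).succ
    else Sum.inr (cR ⟨v, hmem v hX hY⟩)
  have hφX : ∀ v, v ∈ X → φ v = Sum.inl 0 := fun v hv => by
    simp only [φ]; rw [dif_pos hv]
  have hφY : ∀ v (hv : v ∈ Y), φ v = Sum.inl (cY ⟨v, Finset.mem_coe.2 hv⟩).succ := fun v hv => by
    simp only [φ]
    rw [dif_neg (fun h' => Finset.disjoint_left.1 h.disj h' hv), dif_pos hv]
  have hφR : ∀ v (h1 : v ∉ X) (h2 : v ∉ Y), φ v = Sum.inr (cR ⟨v, hmem v h1 h2⟩) :=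
    fun v h1 h2 => by
    simp only [φ]; rw [dif_neg h1, dif_neg h2]
  refine ⟨φ, ?_, ?_, ?_⟩
  · intro u v huv
    by_cases hu : u ∈ X
    · by_cases hv : v ∈ X
      · exact Or.inr ⟨hφX u hu, hφX v hv⟩
      · left
        by_cases hv' : v ∈ Y
        · rw [hφX u hu, hφY v hv']
          intro he
          exact (Fin.succ_ne_zero _) (Sum.inl.inj he).symm
        · rw [hφX u hu, hφR v hv hv']
          simp
    · left
      by_cases hu' : u ∈ Y
      · by_cases hv : v ∈ X
        · rw [hφY u hu', hφX v hv]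
          intro he
          exact (Fin.succ_ne_zero _) (Sum.inl.inj he)
        · by_cases hv' : v ∈ Y
          · rw [hφY u hu', hφY v hv']
            intro he
            have h1 := Fin.succ_injective _ (Sum.inl.inj he)
            have hadj : (H.induce (Y : Set V)).Adj ⟨u, Finset.mem_coe.2 hu'⟩
              ⟨v, Finset.mem_coe.2 hv'⟩ := huv
            exact cY.valid hadj h1
          · rw [hφY u hu', hφR v hv hv']
            simp
      · by_cases hv : v ∈ X
        · rw [hφR u hu hu', hφX v hv]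
          simp
        · by_cases hv' : v ∈ Y
          · rw [hφR u hu hu', hφY v hv']
            simp
          · rw [hφR u hu hu', hφR v hv hv']
            intro he
            have h1 := Sum.inr.inj he
            have hadj : (H.induce (((X ∪ Y)ᶜ : Finset V) : Set V)).Adj ⟨u, hmem u hu hu'⟩
              ⟨v, hmem v hv hv'⟩ := huv
            exact cR.valid hadj h1
  · ext v
    rw [mem_Xof]
    constructor
    · intro hv
      by_contra hX
      by_cases hY : v ∈ Y
      · rw [hφY v hY] at hv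
        exact (Fin.succ_ne_zero _) (Sum.inl.inj hv)
      · rw [hφR v hX hY] at hv
        exact absurd hv (by simp)
    · exact hφX v
  · ext v
    rw [mem_Yof]
    constructor
    · rintro ⟨i, hi⟩
      by_contra hY
      by_cases hX : v ∈ X
      · rw [hφX v hX] at hi
        exact (Fin.succ_ne_zero _) (Sum.inl.inj hi).symm
      · rw [hφR v hX hY] at hi
        exact absurd hi (by simp)
    · intro hv
      exact ⟨_, hφY v hv⟩

/-- the weights -/
def wJ (k : ℕ) : CJ s l → ℤ
  | Sum.inl _ => k
  | Sum.inr _ => 0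

theorem sum_wJ (k : ℕ) (φ : V → CJ s l) :
    ∑ v, wJ k (φ v) = k * ((Xof φ).card + (Yof φ).card : ℤ) := by
  have hd : Disjoint (Xof φ) (Yof φ) := by
    rw [Finset.disjoint_left]
    intro v hv hv'
    obtain ⟨i, hi⟩ := mem_Yof.1 hv'
    rw [mem_Xof.1 hv] at hi
    exact (Fin.succ_ne_zero i) (Sum.inl.inj hi).symm
  have h1 : ∀ v, wJ k (φ v) = if v ∈ Xof φ ∪ Yof φ then (k : ℤ) else 0 := by
    intro v
    by_cases hv : v ∈ Xof φ ∪ Yof φ
    · rw [if_pos hv]
      rcases Finset.mem_union.1 hv with hv | hv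
      · rw [mem_Xof.1 hv]; rfl
      · obtain ⟨i, hi⟩ := mem_Yof.1 hv
        rw [hi]; rfl
    · rw [if_neg hv]
      obtain ⟨i, hi⟩ := mem_compl (Finset.mem_compl.2 hv)
      rw [hi]; rfl
  rw [Finset.sum_congr rfl (fun v _ => h1 v), ← Finset.sum_filter, Finset.sum_const, nsmul_eq_mul]
  have h2 : univ.filter (fun v => v ∈ Xof φ ∪ Yof φ) = Xof φ ∪ Yof φ := by
    ext v; simp
  rw [h2, Finset.card_union_of_disjoint hd]
  push_cast
  ring

/-- rotations of the classes -/
def rot (r : Fin (s + 1) × Fin (l + 1)) : CJ s l → CJ s l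
  | Sum.inl i => Sum.inl (i + r.1)
  | Sum.inr i => Sum.inr (i + r.2)

theorem rot_inj (r : Fin (s + 1) × Fin (l + 1)) : Function.Injective (rot (s := s) (l := l) r) := by
  rintro (i | i) (j | j) h
  · have h1 : i + r.1 = j + r.1 := Sum.inl.inj h
    rw [add_right_cancel h1]
  · exact absurd h (by simp [rot])
  · exact absurd h (by simp [rot])
  · have h1 : i + r.2 = j + r.2 := Sum.inr.inj h
    rw [add_right_cancel h1]

theorem wJ_rot (k : ℕ) (r : Fin (s + 1) × Fin (l + 1)) (x : CJ s l) : wJ k (rot r x) = wJ k x := by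
  rcases x with i | i <;> rfl

/-- how many rotations map `y` to `x` -/
theorem card_rot (x y : CJ s l) :
    (univ.filter fun r : Fin (s + 1) × Fin (l + 1) => x = rot r y).card =
      (if (x.isLeft && y.isLeft) then l + 1 else 0) +
        (if (x.isRight && y.isRight) then s + 1 else 0) := by
  rcases x with i | i <;> rcases y with j | j
  · have h1 : univ.filter (fun r : Fin (s + 1) × Fin (l + 1) =>
        (Sum.inl i : CJ s l) = rot r (Sum.inl j)) = {i - j} ×ˢ univ := by
      ext r
      simp only [Finset.mem_filter, Finset.mem_univ, true_and, Finset.mem_product,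
        Finset.mem_singleton, and_true, rot, Sum.inl.injEq]
      exact ⟨fun h => by rw [h]; abel, fun h => by rw [h]; abel⟩
    rw [h1, Finset.card_product, Finset.card_singleton, Finset.card_univ, Fintype.card_fin]
    simp
  · have h1 : univ.filter (fun r : Fin (s + 1) × Fin (l + 1) =>
        (Sum.inl i : CJ s l) = rot r (Sum.inr j)) = ∅ := by
      ext r
      simp [rot]
    rw [h1]; simp
  · have h1 : univ.filter (fun r : Fin (s + 1) × Fin (l + 1) =>
        (Sum.inr i : CJ s l) = rot r (Sum.inl j)) = ∅ := by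
      ext r
      simp [rot]
    rw [h1]; simp
  · have h1 : univ.filter (fun r : Fin (s + 1) × Fin (l + 1) =>
        (Sum.inr i : CJ s l) = rot r (Sum.inr j)) = univ ×ˢ {i - j} := by
      ext r
      simp only [Finset.mem_filter, Finset.mem_univ, true_and, Finset.mem_product,
        Finset.mem_singleton, rot, Sum.inr.injEq]
      exact ⟨fun h => by rw [h]; abel, fun h => by rw [h]; abel⟩
    rw [h1, Finset.card_product, Finset.card_singleton, Finset.card_univ, Fintype.card_fin]
    simp

theorem card_left (φ : V → CJ s l) :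
    (univ.filter fun v => (φ v).isLeft).card = (Xof φ).card + (Yof φ).card := by
  have hd : Disjoint (Xof φ) (Yof φ) := by
    rw [Finset.disjoint_left]
    intro v hv hv'
    obtain ⟨i, hi⟩ := mem_Yof.1 hv'
    rw [mem_Xof.1 hv] at hi
    exact (Fin.succ_ne_zero i) (Sum.inl.inj hi).symm
  rw [← Finset.card_union_of_disjoint hd]
  congr 1
  ext v
  constructor
  · intro hv
    by_contra hc
    obtain ⟨i, hi⟩ := mem_compl (Finset.mem_compl.2 hc)
    have h1 := (Finset.mem_filter.1 hv).2
    rw [hi] at h1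
    exact absurd h1 (by simp)
  · intro hv
    rcases Finset.mem_union.1 hv with hv | hv
    · exact Finset.mem_filter.2 ⟨Finset.mem_univ _, by rw [mem_Xof.1 hv]; rfl⟩
    · obtain ⟨i, hi⟩ := mem_Yof.1 hv
      exact Finset.mem_filter.2 ⟨Finset.mem_univ _, by rw [hi]; rfl⟩

/-- the degrees -/
theorem sum_rot (φ : V → CJ s l) (x : CJ s l) :
    ∑ r : Fin (s + 1) × Fin (l + 1), (univ.filter fun v => x ≠ rot r (φ v)).card +
      (if x.isLeft then (l + 1) * ((Xof φ).card + (Yof φ).card)
        else (s + 1) * (Fintype.card V - ((Xof φ).card + (Yof φ).card))) =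
      (s + 1) * (l + 1) * Fintype.card V := by
  have h1 : ∀ r : Fin (s + 1) × Fin (l + 1), (univ.filter fun v => x ≠ rot r (φ v)).card +
      (univ.filter fun v => x = rot r (φ v)).card = Fintype.card V := by
    intro r
    have h2 : (univ.filter fun v => x ≠ rot r (φ v)) = (univ.filter fun v => x = rot r (φ v))ᶜ := by
      ext v; simp
    rw [h2, Finset.card_compl]
    have := Finset.card_le_univ (univ.filter fun v => x = rot r (φ v))
    omega
  have h3 : ∑ r : Fin (s + 1) × Fin (l + 1), (univ.filter fun v => x ≠ rot r (φ v)).card +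
      ∑ r : Fin (s + 1) × Fin (l + 1), (univ.filter fun v => x = rot r (φ v)).card =
      (s + 1) * (l + 1) * Fintype.card V := by
    rw [← Finset.sum_add_distrib, Finset.sum_congr rfl (fun r _ => h1 r), Finset.sum_const,
      Finset.card_univ, Fintype.card_prod, Fintype.card_fin, Fintype.card_fin, smul_eq_mul]
  rw [← h3]
  congr 1
  have h4 : ∑ r : Fin (s + 1) × Fin (l + 1), (univ.filter fun v => x = rot r (φ v)).card =
      ∑ v, (univ.filter fun r : Fin (s + 1) × Fin (l + 1) => x = rot r (φ v)).card := by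
    simp_rw [Finset.card_filter]
    exact Finset.sum_comm
  rw [h4, Finset.sum_congr rfl (fun v _ => card_rot x (φ v)), ← card_left φ]
  rcases x with i | i
  · simp only [Sum.isLeft_inl, Bool.true_and, Sum.isRight_inl, Bool.false_and, if_true,
      Bool.false_eq_true, if_false, add_zero]
    rw [← Finset.sum_filter, Finset.sum_const, smul_eq_mul, Nat.mul_comm]
  · simp only [Sum.isLeft_inr, Bool.false_and, Sum.isRight_inr, Bool.true_and,
      Bool.false_eq_true, if_false, zero_add]
    rw [← Finset.sum_filter, Finset.sum_const, smul_eq_mul, Nat.mul_comm]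
    congr 1
    have h5 : (univ.filter fun v => (φ v).isRight = true) =
        (univ.filter fun v => (φ v).isLeft = true)ᶜ := by
      ext v
      rcases hq : φ v with j | j <;> simp [hq]
    rw [h5, Finset.card_compl]

end Pool.Agent.H34.HF
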