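import Pool.Agent.H34.HF.JL

set_option autoImplicit false
set_option linter.unusedSectionVars false

/-!
# The reduction from a common core
-/

namespace Pool.Agent.H34.HF

open scoped Classical
open Finset Pool.Agent.H17.HF

variable {V : Type} [Fintype V] {H : SimpleGraph V} {s l : ℕ}

theorem core_nonempty_of_not_indep {X : Finset V} (h : ¬ Indep H X) : (coreOf H X).Nonempty := by
  unfold Indep at h
  push Not at h
  obtain ⟨x, hx, y, hy, hxy⟩ := h
  exact ⟨x, Finset.mem_filter.2 ⟨hx, y, hy, hxy⟩⟩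

theorem core_empty_of_indep {X : Finset V} (h : Indep H X) : coreOf H X = ∅ := by
  rw [Finset.eq_empty_iff_forall_notMem]
  intro x hx
  obtain ⟨hx, y, hy, hxy⟩ := Finset.mem_filter.1 hx
  exact h x hx y hy hxy

theorem hasFactor_empty {W : Type} {K : SimpleGraph W} {D : Finset V} (hD : D = ∅) :
    HasFactor K (H.induce (D : Set V)) := by
  subst hD
  have h1 : IsEmpty (PEmpty × W) := ⟨fun x => x.1.elim⟩
  have h2 : IsEmpty ((∅ : Finset V) : Set V) := ⟨fun x => by
    have := x.2
    simp at this⟩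
  exact ⟨PEmpty, Equiv.equivOfIsEmpty _ _, fun i => i.elim⟩

/-- **The reduction from a common core.** -/
theorem reducesTo_of_core (H : SimpleGraph V) (s l α : ℕ)
    (hα : IsGreatest {n | ∃ X Y : Finset V, Split H s (l + 1) X Y ∧ Indep H X ∧
      X.card + Y.card = n} α)
    (X₁ Y₁ : Finset V) (h₁ : Split H s (l + 1) X₁ Y₁) (hpos : α < X₁.card + Y₁.card)
    (hopt : ∀ X Y : Finset V, Split H s (l + 1) X Y → ¬ Indep H X →
      ((X.card : ℤ) + Y.card - α) * (coreOf H X₁).card ≤
        ((X₁.card : ℤ) + Y₁.card - α) * (coreOf H X).card)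
    (hfac : ∀ X Y : Finset V, Split H s (l + 1) X Y → ¬ Indep H X →
      ((X.card : ℤ) + Y.card - α) * (coreOf H X₁).card =
        ((X₁.card : ℤ) + Y₁.card - α) * (coreOf H X).card →
      HasFactor (H.induce (coreOf H X₁ : Set V)) (H.induce (coreOf H X : Set V)))
    (c : ℝ) (hc₁ : c < 1 - (α : ℝ) / ((s + 1) * Fintype.card V))
    (hc₂ : c < 1 - ((Fintype.card V : ℝ) - α) / ((l + 1) * Fintype.card V)) :
    ReducesTo (H.induce (coreOf H X₁ : Set V)) H c := by
  obtain ⟨⟨X₀, Y₀, h₀, hi₀, hc₀⟩, hmax⟩ := hα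
  have hn₁ : ¬ Indep H X₁ := by
    intro hi
    have h2 := hmax ⟨X₁, Y₁, h₁, hi, rfl⟩
    omega
  have hle : α ≤ Fintype.card V := by
    rw [← hc₀, ← Finset.card_union_of_disjoint h₀.disj]
    exact Finset.card_le_univ _
  have hV : 0 < Fintype.card V := by
    obtain ⟨x, -⟩ := core_nonempty_of_not_indep hn₁
    exact Fintype.card_pos_iff.2 ⟨x⟩
  obtain ⟨φ₀, ht₀, hX₀, hY₀⟩ := split_tile h₀
  obtain ⟨ψ, htψ, hXψ, hYψ⟩ := split_tile h₁
  have hprop : ∀ u v, H.Adj u v → φ₀ u ≠ φ₀ v := by
    intro u v huv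
    rcases ht₀ u v huv with h | ⟨h2, h3⟩
    · exact h
    · exfalso
      exact hi₀ u (by rw [← hX₀]; exact mem_Xof.2 h2) v (by rw [← hX₀]; exact mem_Xof.2 h3) huv
  have htc := tcore_eq (H := H) ψ
  rw [hXψ] at htc
  have hle' : ∀ φ : V → CJ s l, IsTile H (fun a b : CJ s l => a ≠ b) (Sum.inl 0) φ →
      (((Xof φ).card : ℤ) + (Yof φ).card - α) * (coreOf H X₁).card ≤
        ((X₁.card : ℤ) + Y₁.card - α) * (coreOf H (Xof φ)).card := by
    intro φ hφ
    have h2 := tile_split hφ
    by_cases hi : Indep H (Xof φ)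
    · have h3 := hmax ⟨_, _, h2, hi, rfl⟩
      have h4 : ((Xof φ).card : ℤ) + (Yof φ).card - α ≤ 0 := by
        have : (((Xof φ).card + (Yof φ).card : ℕ) : ℤ) ≤ α := by exact_mod_cast h3
        push_cast at this
        linarith
      have h5 : 0 ≤ ((X₁.card : ℤ) + Y₁.card - α) := by
        have : (α : ℤ) < ((X₁.card + Y₁.card : ℕ) : ℤ) := by exact_mod_cast hpos
        push_cast at this
        linarith
      exact (mul_nonpos_of_nonpos_of_nonneg h4 (Nat.cast_nonneg _)).trans
        (mul_nonneg h5 (Nat.cast_nonneg _))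
    · exact hopt _ _ h2 hi
  have hcert : Cert H (fun a b : CJ s l => a ≠ b) (Sum.inl 0) (wJ (coreOf H X₁).card)
      ((coreOf H X₁).card * (α : ℤ)) ((X₁.card : ℤ) + Y₁.card - α) ψ
      (fun (r : Fin (s + 1) × Fin (l + 1)) v => rot r (φ₀ v)) := by
    refine ⟨fun x y h => h.symm, fun h => h rfl, htψ, ?_, ?_, ?_, ?_, ?_, ?_, ?_⟩
    · intro r u v huv h
      exact hprop u v huv (rot_inj r h)
    · have : (α : ℤ) < ((X₁.card + Y₁.card : ℕ) : ℤ) := by exact_mod_cast hpos
      push_cast at this
      linarith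
    · rw [htc]
      exact core_nonempty_of_not_indep hn₁
    · rw [sum_wJ, htc, hXψ, hYψ]
      ring
    · intro r
      have h2 : ∀ v, wJ (coreOf H X₁).card (rot r (φ₀ v)) = wJ (coreOf H X₁).card (φ₀ v) :=
        fun v => wJ_rot _ _ _
      rw [Finset.sum_congr rfl (fun v _ => h2 v), sum_wJ, hX₀, hY₀, ← hc₀]
      push_cast
      ring
    · intro φ hφ
      have h2 := hle' φ hφ
      rw [sum_wJ, tcore_eq]
      linarith
    · intro φ hφ he
      rw [sum_wJ, tcore_eq] at he
      rw [htc, tcore_eq]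
      by_cases hi : Indep H (Xof φ)
      · exact hasFactor_empty (core_empty_of_indep hi)
      · refine hfac _ _ (tile_split hφ) hi ?_
        linarith
  have key := hcert.reducesTo (c := c) (by
    intro x
    have h2 := sum_rot φ₀ x
    rw [hX₀, hY₀, hc₀] at h2
    set S := ∑ r : Fin (s + 1) × Fin (l + 1), (univ.filter fun v => x ≠ rot r (φ₀ v)).card with hS
    have hVR : (0 : ℝ) < Fintype.card V := by exact_mod_cast hV
    have hcast : (((s + 1) * (l + 1) * Fintype.card V : ℕ) : ℝ) =
        ((s : ℝ) + 1) * (l + 1) * Fintype.card V := by push_cast; ring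
    rw [Fintype.card_prod, Fintype.card_fin, Fintype.card_fin, hcast]
    suffices hh : c * (((s : ℝ) + 1) * (l + 1) * Fintype.card V) < (S : ℝ) by
      refine lt_of_lt_of_eq hh ?_
      rw [hS]
      congr 1
      refine Finset.sum_congr rfl fun r _ => ?_
      congr 1
      ext v
      simp only [Finset.mem_filter]
    rcases x with i | i
    · simp only [Sum.isLeft_inl, if_true] at h2
      have h3 : (S : ℝ) + (l + 1) * α = (s + 1) * (l + 1) * Fintype.card V := by exact_mod_cast h2
      have h4 : c * ((s + 1) * Fintype.card V) < (s + 1) * Fintype.card V - α := by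
        have h5 : (0 : ℝ) < (s + 1) * Fintype.card V := by positivity
        have h6 := mul_lt_mul_of_pos_right hc₁ h5
        have h7 : (1 - (α : ℝ) / ((s + 1) * Fintype.card V)) * ((s + 1) * Fintype.card V) =
            (s + 1) * Fintype.card V - α := by field_simp
        rw [h7] at h6
        exact h6
      have h8 : (0 : ℝ) < (l : ℝ) + 1 := by positivity
      have h9 := mul_lt_mul_of_pos_right h4 h8
      have h10 : (S : ℝ) = ((s + 1) * Fintype.card V - α) * (l + 1) := by linarith
      rw [h10]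
      linarith
    · simp only [Sum.isLeft_inr, Bool.false_eq_true, if_false] at h2
      have h3 : (S : ℝ) + (s + 1) * ((Fintype.card V : ℝ) - α) =
          (s + 1) * (l + 1) * Fintype.card V := by
        have h4 : ((Fintype.card V - α : ℕ) : ℝ) = (Fintype.card V : ℝ) - α := Nat.cast_sub hle
        rw [← h4]
        exact_mod_cast h2
      have h4 : c * ((l + 1) * Fintype.card V) <
          (l + 1) * Fintype.card V - ((Fintype.card V : ℝ) - α) := by
        have h5 : (0 : ℝ) < (l + 1) * Fintype.card V := by positivity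
        have h6 := mul_lt_mul_of_pos_right hc₂ h5
        have h7 : (1 - ((Fintype.card V : ℝ) - α) / ((l + 1) * Fintype.card V)) *
            ((l + 1) * Fintype.card V) =
            (l + 1) * Fintype.card V - ((Fintype.card V : ℝ) - α) := by field_simp
        rw [h7] at h6
        exact h6
      have h8 : (0 : ℝ) < (s : ℝ) + 1 := by positivity
      have h9 := mul_lt_mul_of_pos_right h4 h8
      have h10 : (S : ℝ) = ((l + 1) * Fintype.card V - ((Fintype.card V : ℝ) - α)) * (s + 1) := by
        linarith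
      rw [h10]
      linarith)
  rw [htc] at key
  exact key

end Pool.Agent.H34.HF
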