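import Pool.Agent.H34.HF.JLFin
import Pool.Agent.H17.HF.Cor5

set_option autoImplicit false
set_option linter.unusedSectionVars false

/-!
# Bipartite graphs with the strict normalised matching property have the whole graph as common core
-/

namespace Pool.Agent.H34.HF

open scoped Classical
open Finset Pool.Agent.H17.HF

variable {V : Type} [Fintype V] {H : SimpleGraph V}

theorem split_zero_one {X Y : Finset V} (h : Split H 0 1 X Y) : Y = ∅ ∧ Indep H Xᶜ := by
  have hY : Y = ∅ := by
    rw [Finset.eq_empty_iff_forall_notMem]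
    intro y hy
    obtain ⟨c⟩ := h.colY
    exact (c ⟨y, Finset.mem_coe.2 hy⟩).elim0
  refine ⟨hY, fun x hx y hy hxy => ?_⟩
  obtain ⟨c⟩ := h.colR
  rw [hY, Finset.union_empty] at c
  have hadj : (H.induce ((Xᶜ : Finset V) : Set V)).Adj ⟨x, Finset.mem_coe.2 hx⟩
    ⟨y, Finset.mem_coe.2 hy⟩ := hxy
  exact c.valid hadj (Subsingleton.elim _ _)

theorem split_of_indep {X : Finset V} (h : Indep H Xᶜ) : Split H 0 1 X ∅ := by
  refine ⟨Finset.disjoint_empty_right _, ?_, ?_⟩
  · refine ⟨SimpleGraph.Coloring.mk (fun v => absurd v.2 (by simp)) fun {u v} _ => ?_⟩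
    exact absurd u.2 (by simp)
  · refine ⟨SimpleGraph.Coloring.mk (fun _ => 0) fun {u v} huv => ?_⟩
    exfalso
    have h1 : u.1 ∈ Xᶜ := by simpa using u.2
    have h2 : v.1 ∈ Xᶜ := by simpa using v.2
    exact h u.1 h1 v.1 h2 huv

/-- the facts about `I`, the isolated vertices of `H[X]`, and `Z = Xᶜ` -/
theorem nm_key (hconn : H.Connected) {P : Finset V}
    (hbip : ∀ u v, H.Adj u v → (u ∈ P ↔ v ∉ P)) (hP : P.card ≤ (Pᶜ).card) (hP0 : P.Nonempty)
    (hexp : ∀ X : Finset V, X.Nonempty → X ⊂ Pᶜ → P.card * X.card < (Pᶜ).card * (bdry H X).card)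
    {I Z : Finset V} (hIZ : ∀ x ∈ I, ∀ v, H.Adj x v → v ∈ Z) :
    P.card * I.card ≤ (Pᶜ).card * Z.card ∧
      (P.card * I.card = (Pᶜ).card * Z.card → (I = ∅ ∧ Z = ∅) ∨ P ⊆ Z ∨ Pᶜ ⊆ Z) := by
  have hQ0 : 0 < (Pᶜ).card := lt_of_lt_of_le (Finset.card_pos.2 hP0) hP
  have hnb : ∀ v, ∃ w, H.Adj v w := by
    intro v
    obtain ⟨p, hp⟩ := hP0
    obtain ⟨q, hq⟩ := Finset.card_pos.1 hQ0
    have : Nontrivial V := ⟨p, q, fun e => (Finset.mem_compl.1 hq) (e ▸ hp)⟩
    exact hconn.preconnected.exists_adj_of_nontrivial v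
  set IQ := I ∩ Pᶜ with hIQ
  set IP := I ∩ P with hIP
  set ZQ := Z ∩ Pᶜ with hZQ
  set ZP := Z ∩ P with hZP
  have hI : I.card = IP.card + IQ.card := by
    rw [← Finset.card_union_of_disjoint (by
      rw [Finset.disjoint_left]
      intro v hv hv'
      exact (Finset.mem_compl.1 (Finset.mem_inter.1 hv').2) (Finset.mem_inter.1 hv).2)]
    congr 1
    ext v
    simp only [hIP, hIQ, Finset.mem_union, Finset.mem_inter, Finset.mem_compl]
    tauto
  have hZ : Z.card = ZP.card + ZQ.card := by
    rw [← Finset.card_union_of_disjoint (by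
      rw [Finset.disjoint_left]
      intro v hv hv'
      exact (Finset.mem_compl.1 (Finset.mem_inter.1 hv').2) (Finset.mem_inter.1 hv).2)]
    congr 1
    ext v
    simp only [hZP, hZQ, Finset.mem_union, Finset.mem_inter, Finset.mem_compl]
    tauto
  -- the part in the large class
  have hb : bdry H IQ ⊆ ZP := by
    intro v hv
    obtain ⟨-, x, hx, hxv⟩ := mem_bdry.1 hv
    obtain ⟨hx1, hx2⟩ := Finset.mem_inter.1 hx
    refine Finset.mem_inter.2 ⟨hIZ x hx1 v hxv, ?_⟩
    by_contra hvP
    exact (Finset.mem_compl.1 hx2) ((hbip x v hxv).2 hvP)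
  have hQ : P.card * IQ.card ≤ (Pᶜ).card * ZP.card ∧
      (P.card * IQ.card = (Pᶜ).card * ZP.card → (IQ = ∅ ∧ ZP = ∅) ∨ P ⊆ Z) := by
    rcases IQ.eq_empty_or_nonempty with he | hne
    · rw [he, Finset.card_empty, Nat.mul_zero]
      refine ⟨Nat.zero_le _, fun h => Or.inl ⟨rfl, ?_⟩⟩
      rcases Nat.mul_eq_zero.1 h.symm with h1 | h1
      · omega
      · exact Finset.card_eq_zero.1 h1
    · have hsub : IQ ⊆ Pᶜ := Finset.inter_subset_right
      rcases hsub.eq_or_ssubset with he | hss
      · have hPZ : P ⊆ Z := by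
          intro v hv
          obtain ⟨w, hw⟩ := hnb v
          have hwP : w ∉ P := (hbip v w hw).1 hv
          have hwI : w ∈ IQ := by rw [he]; exact Finset.mem_compl.2 hwP
          exact hIZ w (Finset.mem_inter.1 hwI).1 v hw.symm
        have hZP' : ZP = P := Finset.inter_eq_right.2 hPZ
        rw [he, hZP', Nat.mul_comm]
        exact ⟨le_rfl, fun _ => Or.inr hPZ⟩
      · have h1 := hexp IQ hne hss
        have h2 := Nat.mul_le_mul_left (Pᶜ).card (Finset.card_le_card hb)
        exact ⟨by omega, fun h => by omega⟩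
  -- the part in the small class
  have hPp : P.card * IP.card ≤ (Pᶜ).card * ZQ.card ∧
      (P.card * IP.card = (Pᶜ).card * ZQ.card → (IP = ∅ ∧ ZQ = ∅) ∨ Pᶜ ⊆ Z) := by
    set A := Pᶜ \ Z with hA
    have hAc : A.card + ZQ.card = (Pᶜ).card := by
      have h1 : ZQ = Z ∩ Pᶜ := rfl
      rw [h1, Finset.inter_comm, hA]
      exact Finset.card_sdiff_add_card_inter _ _
    have hbA : bdry H A ⊆ P \ IP := by
      intro v hv
      obtain ⟨-, x, hx, hxv⟩ := mem_bdry.1 hv
      obtain ⟨hx1, hx2⟩ := Finset.mem_sdiff.1 hx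
      have hvP : v ∈ P := by
        by_contra hvP
        exact (Finset.mem_compl.1 hx1) ((hbip x v hxv).2 hvP)
      refine Finset.mem_sdiff.2 ⟨hvP, fun hvI => ?_⟩
      exact hx2 (hIZ v (Finset.mem_inter.1 hvI).1 x hxv.symm)
    have hIPc : (P \ IP).card + IP.card = P.card :=
      Finset.card_sdiff_add_card_eq_card Finset.inter_subset_right
    have hIPle : IP.card ≤ P.card := Finset.card_le_card Finset.inter_subset_right
    rcases A.eq_empty_or_nonempty with he | hne
    · have hQZ : Pᶜ ⊆ Z := Finset.sdiff_eq_empty_iff_subset.1 he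
      rw [he, Finset.card_empty, Nat.zero_add] at hAc
      refine ⟨?_, fun _ => Or.inr hQZ⟩
      rw [hAc]
      calc P.card * IP.card ≤ P.card * P.card := Nat.mul_le_mul_left _ hIPle
        _ ≤ (Pᶜ).card * (Pᶜ).card := Nat.mul_le_mul hP hP
    · have hsub : A ⊆ Pᶜ := Finset.sdiff_subset
      rcases hsub.eq_or_ssubset with he | hss
      · have hZQ0 : ZQ.card = 0 := by
          have : A.card = (Pᶜ).card := by rw [he]
          omega
        have hIP0 : IP = ∅ := by
          rw [Finset.eq_empty_iff_forall_notMem]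
          intro v hv
          obtain ⟨w, hw⟩ := hnb v
          have hwP : w ∉ P := (hbip v w hw).1 (Finset.mem_inter.1 hv).2
          have hwZ : w ∈ ZQ := Finset.mem_inter.2 ⟨hIZ v (Finset.mem_inter.1 hv).1 w hw,
            Finset.mem_compl.2 hwP⟩
          rw [Finset.card_eq_zero.1 hZQ0] at hwZ
          exact absurd hwZ (Finset.notMem_empty w)
        rw [hIP0, Finset.card_empty, Nat.mul_zero]
        exact ⟨Nat.zero_le _, fun _ => Or.inl ⟨rfl, Finset.card_eq_zero.1 hZQ0⟩⟩
      · have h1 := hexp A hne hss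
        have h2 := Nat.mul_le_mul_left (Pᶜ).card (Finset.card_le_card hbA)
        have h3 : P.card * A.card + P.card * ZQ.card = P.card * (Pᶜ).card := by
          rw [← Nat.mul_add, hAc]
        have h4 : (Pᶜ).card * (P \ IP).card + (Pᶜ).card * IP.card = (Pᶜ).card * P.card := by
          rw [← Nat.mul_add, hIPc]
        have h5 : P.card * (Pᶜ).card = (Pᶜ).card * P.card := Nat.mul_comm _ _
        have h6 : P.card * IP.card ≤ (Pᶜ).card * IP.card := Nat.mul_le_mul_right _ hP
        have h7 : P.card * ZQ.card ≤ (Pᶜ).card * ZQ.card := Nat.mul_le_mul_right _ hP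
        exact ⟨by omega, fun h => by omega⟩
  have e1 : P.card * I.card = P.card * IP.card + P.card * IQ.card := by rw [hI, Nat.mul_add]
  have e2 : (Pᶜ).card * Z.card = (Pᶜ).card * ZP.card + (Pᶜ).card * ZQ.card := by
    rw [hZ, Nat.mul_add]
  refine ⟨by omega, fun h => ?_⟩
  rcases hQ.2 (by omega) with ⟨h1, h2⟩ | h1
  · rcases hPp.2 (by omega) with ⟨h3, h4⟩ | h3
    · left
      refine ⟨Finset.card_eq_zero.1 ?_, Finset.card_eq_zero.1 ?_⟩
      · rw [hI, h1, h3]; rfl
      · rw [hZ, h2, h4]; rfl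
    · exact Or.inr (Or.inr h3)
  · exact Or.inr (Or.inl h1)

/-- the hypotheses of `reducesTo_of_core` hold for `s = l = 0`, `X₁ = V` -/
theorem normalizedMatching (hconn : H.Connected) {P : Finset V}
    (hbip : ∀ u v, H.Adj u v → (u ∈ P ↔ v ∉ P)) (hP : P.card ≤ (Pᶜ).card) (hP0 : P.Nonempty)
    (hexp : ∀ X : Finset V, X.Nonempty → X ⊂ Pᶜ → P.card * X.card < (Pᶜ).card * (bdry H X).card)
    (c : ℝ) (hc : c < (P.card : ℝ) / Fintype.card V) :
    ReducesTo (H.induce (coreOf H univ : Set V)) H c := by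
  have hQ0 : 0 < (Pᶜ).card := lt_of_lt_of_le (Finset.card_pos.2 hP0) hP
  have hnb : ∀ v, ∃ w, H.Adj v w := by
    intro v
    obtain ⟨p, hp⟩ := hP0
    obtain ⟨q, hq⟩ := Finset.card_pos.1 hQ0
    have : Nontrivial V := ⟨p, q, fun e => (Finset.mem_compl.1 hq) (e ▸ hp)⟩
    exact hconn.preconnected.exists_adj_of_nontrivial v
  have hcu : coreOf H univ = univ := by
    ext v
    simp only [coreOf, Finset.mem_filter, Finset.mem_univ, true_and, iff_true]
    exact hnb v
  have hPQ : P.card + (Pᶜ).card = Fintype.card V := by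
    rw [Finset.card_compl]
    have := Finset.card_le_univ P
    omega
  have hindP : Indep H P := fun x hx y hy hxy => (hbip x y hxy).1 hx hy
  have hindQ : Indep H Pᶜ := fun x hx y hy hxy =>
    (Finset.mem_compl.1 hx) ((hbip x y hxy).2 (Finset.mem_compl.1 hy))
  -- the inequality
  have main : ∀ X : Finset V, Indep H Xᶜ →
      X.card * Fintype.card V ≤ (Pᶜ).card * Fintype.card V + P.card * (coreOf H X).card ∧
      (X.card * Fintype.card V = (Pᶜ).card * Fintype.card V + P.card * (coreOf H X).card →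
        ¬ Indep H X → X = univ) := by
    intro X hX
    set D := coreOf H X with hD
    have hDX : D ⊆ X := Finset.filter_subset _ _
    have hIZ : ∀ x ∈ X \ D, ∀ v, H.Adj x v → v ∈ Xᶜ := by
      intro x hx v hxv
      obtain ⟨h1, h2⟩ := Finset.mem_sdiff.1 hx
      refine Finset.mem_compl.2 fun hv => h2 (Finset.mem_filter.2 ⟨h1, v, hv, hxv⟩)
    have hk := nm_key hconn hbip hP hP0 hexp hIZ
    have hcD : (X \ D).card + D.card = X.card := Finset.card_sdiff_add_card_eq_card hDX
    have hcX : X.card + (Xᶜ).card = Fintype.card V := by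
      rw [Finset.card_compl]
      have := Finset.card_le_univ X
      omega
    have f1 : X.card * Fintype.card V = (X \ D).card * P.card + (X \ D).card * (Pᶜ).card +
        D.card * P.card + D.card * (Pᶜ).card := by
      rw [← hPQ, ← hcD]; ring
    have f2 : (Pᶜ).card * Fintype.card V = (Pᶜ).card * (X \ D).card + (Pᶜ).card * D.card +
        (Pᶜ).card * (Xᶜ).card := by
      rw [← hcX, ← hcD]; ring
    have f3 : (X \ D).card * P.card = P.card * (X \ D).card := Nat.mul_comm _ _
    have f4 : (X \ D).card * (Pᶜ).card = (Pᶜ).card * (X \ D).card := Nat.mul_comm _ _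
    have f5 : D.card * P.card = P.card * D.card := Nat.mul_comm _ _
    have f6 : D.card * (Pᶜ).card = (Pᶜ).card * D.card := Nat.mul_comm _ _
    refine ⟨by omega, fun he hni => ?_⟩
    rcases hk.2 (by omega) with ⟨-, h2⟩ | h2 | h2
    · rw [← Finset.compl_eq_empty_iff]
      exact h2
    · exfalso
      refine hni fun x hx y hy hxy => ?_
      have hx1 : x ∉ P := fun h => (Finset.mem_compl.1 (h2 h)) hx
      have hy1 : y ∉ P := fun h => (Finset.mem_compl.1 (h2 h)) hy
      exact hx1 ((hbip x y hxy).2 hy1)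
    · exfalso
      refine hni fun x hx y hy hxy => ?_
      have hx1 : x ∈ P := by
        by_contra h
        exact (Finset.mem_compl.1 (h2 (Finset.mem_compl.2 h))) hx
      have hy1 : y ∈ P := by
        by_contra h
        exact (Finset.mem_compl.1 (h2 (Finset.mem_compl.2 h))) hy
      exact (hbip x y hxy).1 hx1 hy1
  have hV : 0 < Fintype.card V := by omega
  have hVR : (0 : ℝ) < Fintype.card V := by exact_mod_cast hV
  refine reducesTo_of_core H 0 0 (Pᶜ).card ⟨?_, ?_⟩ univ ∅ (split_of_indep ?_) ?_ ?_ ?_ c ?_ ?_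
  · refine ⟨Pᶜ, ∅, split_of_indep ?_, hindQ, by simp⟩
    rw [compl_compl]
    exact hindP
  · rintro n ⟨X, Y, hs, hi, rfl⟩
    obtain ⟨rfl, hX⟩ := split_zero_one hs
    have h1 := (main X hX).1
    rw [core_empty_of_indep hi, Finset.card_empty, Nat.mul_zero, Nat.add_zero] at h1
    rw [Finset.card_empty, Nat.add_zero]
    exact Nat.le_of_mul_le_mul_right h1 hV
  · intro x hx
    simp at hx
  · rw [Finset.card_univ, Finset.card_empty]
    have := Finset.card_pos.2 hP0
    omega
  · intro X Y hs hi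
    obtain ⟨rfl, hX⟩ := split_zero_one hs
    have h1 := (main X hX).1
    rw [hcu, Finset.card_univ, Finset.card_empty]
    have h2 : ((X.card * Fintype.card V : ℕ) : ℤ) ≤
        (((Pᶜ).card * Fintype.card V + P.card * (coreOf H X).card : ℕ) : ℤ) := by exact_mod_cast h1
    have h3 : ((Fintype.card V : ℕ) : ℤ) = P.card + (Pᶜ).card := by exact_mod_cast hPQ.symm
    push_cast at h2 ⊢
    have h4 : ((Fintype.card V : ℤ) - (Pᶜ).card) = P.card := by linarith
    rw [add_zero, add_zero, h4]
    linarith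
  · intro X Y hs hi he
    obtain ⟨rfl, hX⟩ := split_zero_one hs
    have h3 : ((Fintype.card V : ℕ) : ℤ) = P.card + (Pᶜ).card := by exact_mod_cast hPQ.symm
    have h4 : ((Fintype.card V : ℤ) - (Pᶜ).card) = P.card := by linarith
    rw [hcu, Finset.card_univ, Finset.card_empty] at he
    push_cast at he
    rw [add_zero, add_zero, h4] at he
    have h5 : X.card * Fintype.card V = (Pᶜ).card * Fintype.card V + P.card * (coreOf H X).card := by
      have h6 : ((X.card : ℤ) * Fintype.card V) =
          (Pᶜ).card * Fintype.card V + P.card * (coreOf H X).card := by linarith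
      exact_mod_cast h6
    have h6 := (main X hX).2 h5 hi
    rw [h6]
    refine ⟨Unit, Equiv.uniqueProd _ Unit, fun i u v huv => huv⟩
  · have h1 : (((Pᶜ).card : ℕ) : ℝ) = Fintype.card V - P.card := by
      rw [← hPQ]; push_cast; ring
    have h2 : 1 - (((Pᶜ).card : ℕ) : ℝ) / ((((0 : ℕ) : ℝ) + 1) * Fintype.card V) =
        (P.card : ℝ) / Fintype.card V := by
      rw [h1]
      push_cast
      field_simp
      ring
    rw [h2]
    exact hc
  · have h1 : (((Pᶜ).card : ℕ) : ℝ) = Fintype.card V - P.card := by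
      rw [← hPQ]; push_cast; ring
    have h2 : 1 - ((Fintype.card V : ℝ) - (((Pᶜ).card : ℕ) : ℝ)) /
        ((((0 : ℕ) : ℝ) + 1) * Fintype.card V) = 1 - (P.card : ℝ) / Fintype.card V := by
      rw [h1]
      push_cast
      congr 1
      rw [zero_add, one_mul]
      congr 1
      ring
    rw [h2]
    refine lt_of_lt_of_le hc ?_
    have h3 : (P.card : ℝ) ≤ (Pᶜ).card := by exact_mod_cast hP
    rw [h1] at h3
    rw [div_le_iff₀ hVR]
    have h4 : (1 - (P.card : ℝ) / Fintype.card V) * Fintype.card V =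
        Fintype.card V - P.card := by field_simp
    rw [h4]
    linarith

end Pool.Agent.H34.HF
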