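import Pool.Agent.H34.HF.Host

set_option autoImplicit false
set_option linter.unusedSectionVars false

/-!
# From a factor of the host to a factor of `F`
-/

namespace Pool.Agent.H34.HF

open scoped Classical
open Finset Pool.Agent.H17.HF

variable {V : Type} [Fintype V] {H : SimpleGraph V} {X₀ : Finset V}

/-- the vertices of `X` with a neighbour in `X` -/
noncomputable def nis (H : SimpleGraph V) (X : Finset V) : Finset V :=
  X.filter fun x => ∃ y ∈ X, H.Adj x y

theorem mem_nis {X : Finset V} {x : V} : x ∈ nis H X ↔ x ∈ X ∧ ∃ y ∈ X, H.Adj x y :=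
  Finset.mem_filter

theorem sdiff_nis_ind (X : Finset V) : Ind H (X \ nis H X) := by
  intro x hx y hy hxy
  obtain ⟨hx1, hx2⟩ := Finset.mem_sdiff.1 hx
  exact hx2 (mem_nis.2 ⟨hx1, y, (Finset.mem_sdiff.1 hy).1, hxy⟩)

theorem nis_sub_core (X : Finset V) : nis H X ⊆ core H (X \ nis H X) := by
  intro v hv
  refine mem_core.2 ⟨fun h => (Finset.mem_sdiff.1 h).2 hv, fun x hx hxv => ?_⟩
  obtain ⟨hx1, hx2⟩ := Finset.mem_sdiff.1 hx
  exact hx2 (mem_nis.2 ⟨hx1, v, (mem_nis.1 hv).1, hxv⟩)

/-- the tile inequality -/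
theorem VT.tile (h : VT H X₀) (X : Finset V) :
    Fintype.card V * X.card ≤ Fintype.card V * X₀.card +
      (Fintype.card V - X₀.card) * (nis H X).card := by
  have h1 := h.expand (sdiff_nis_ind (H := H) X)
  have h2 := card_core H (X \ nis H X)
  have h3 := Finset.card_le_card (nis_sub_core (H := H) X)
  have h4 : (X \ nis H X).card + (nis H X).card = X.card :=
    Finset.card_sdiff_add_card_eq_card (Finset.filter_subset _ _)
  have h5 : X₀.card * (core H (X \ nis H X)).card + X₀.card * (nb H (X \ nis H X)).card =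
      Fintype.card V * X₀.card := by rw [← Nat.mul_add, h2, Nat.mul_comm]
  have h6 : X₀.card * (nis H X).card ≤ X₀.card * (core H (X \ nis H X)).card :=
    Nat.mul_le_mul_left _ h3
  have h7 : Fintype.card V * X.card = Fintype.card V * (X \ nis H X).card +
      Fintype.card V * (nis H X).card := by rw [← Nat.mul_add, h4]
  obtain ⟨d, hd⟩ := Nat.exists_eq_add_of_le (Finset.card_le_univ X₀)
  have h8 : Fintype.card V - X₀.card = d := by omega
  have h9 : Fintype.card V * (nis H X).card = X₀.card * (nis H X).card + d * (nis H X).card := by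
    conv_lhs => rw [hd]
    ring
  rw [h8]
  omega

theorem VT.tile_eq (h : VT H X₀) {X : Finset V}
    (he : Fintype.card V * X.card = Fintype.card V * X₀.card +
      (Fintype.card V - X₀.card) * (nis H X).card) :
    Opt H X₀ (X \ nis H X) ∧ core H (X \ nis H X) = nis H X := by
  have hα : 0 < X₀.card := Finset.card_pos.2 h.ne
  have h1 := h.expand (sdiff_nis_ind (H := H) X)
  have h2 := card_core H (X \ nis H X)
  have h3 := Finset.card_le_card (nis_sub_core (H := H) X)
  have h4 : (X \ nis H X).card + (nis H X).card = X.card :=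
    Finset.card_sdiff_add_card_eq_card (Finset.filter_subset _ _)
  have h5 : X₀.card * (core H (X \ nis H X)).card + X₀.card * (nb H (X \ nis H X)).card =
      Fintype.card V * X₀.card := by rw [← Nat.mul_add, h2, Nat.mul_comm]
  have h6 : X₀.card * (nis H X).card ≤ X₀.card * (core H (X \ nis H X)).card :=
    Nat.mul_le_mul_left _ h3
  have h7 : Fintype.card V * X.card = Fintype.card V * (X \ nis H X).card +
      Fintype.card V * (nis H X).card := by rw [← Nat.mul_add, h4]
  obtain ⟨d, hd⟩ := Nat.exists_eq_add_of_le (Finset.card_le_univ X₀)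
  have h8 : Fintype.card V - X₀.card = d := by omega
  have h9 : Fintype.card V * (nis H X).card = X₀.card * (nis H X).card + d * (nis H X).card := by
    conv_lhs => rw [hd]
    ring
  rw [h8] at he
  refine ⟨⟨sdiff_nis_ind X, by omega⟩, ?_⟩
  have h10 : X₀.card * (nis H X).card = X₀.card * (core H (X \ nis H X)).card := by omega
  exact (Finset.eq_of_subset_of_card_le (nis_sub_core X)
    (Nat.eq_of_mul_eq_mul_left hα h10).ge).symm

/-- counting along the tiles -/
theorem sum_tiles {ι Q : Type} [Fintype ι] [Finite Q] (Φ : ι × V ≃ Q) (P : Q → Prop) :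
    ∑ i, (univ.filter (fun v => P (Φ (i, v)))).card = Nat.card {q // P q} := by
  have e : (Σ i : ι, {v : V // P (Φ (i, v))}) ≃ {q // P q} :=
    Equiv.ofBijective (fun z => ⟨Φ (z.1, z.2.1), z.2.2⟩) (by
      constructor
      · rintro ⟨i, v, hv⟩ ⟨j, w, hw⟩ h
        have h1 := Φ.injective (Subtype.ext_iff.1 h)
        simp only [Prod.mk.injEq] at h1
        obtain ⟨rfl, rfl⟩ := h1
        rfl
      · rintro ⟨q, hq⟩
        refine ⟨⟨(Φ.symm q).1, (Φ.symm q).2, ?_⟩, ?_⟩
        · simpa using hq
        · simp)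
  rw [← Nat.card_congr e, Nat.card_eq_fintype_card, Fintype.card_sigma]
  refine Finset.sum_congr rfl fun i _ => ?_
  rw [Fintype.card_subtype]

theorem VT.host_rev (h : VT H X₀) (hlt : X₀.card < Fintype.card V) {I : Finset V}
    (hI : Prim H X₀ I) {m m' N a b : ℕ}
    (hm : (core H I).card * m' = m) {F : SimpleGraph (Fin m)}
    (ha : a = m' * I.card + N * X₀.card)
    (hb : b = m' * (Fintype.card V - (core H I).card - I.card) + N * (Fintype.card V - X₀.card))
    (hG : HasFactor H (host F a b)) : HasFactor (H.induce (core H I : Set V)) F := by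
  obtain ⟨ι, Φ, hΦ⟩ := hG
  obtain ⟨x₀, hx₀⟩ := h.ne
  have hfin : Finite ι := Finite.of_injective (fun i => Φ (i, x₀))
    (fun i j e => congrArg Prod.fst (Φ.injective e))
  obtain ⟨instι⟩ := nonempty_fintype ι
  have hV : 0 < Fintype.card V := Fintype.card_pos_iff.2 ⟨x₀⟩
  have hcore := hI.opt.core_eq
  have hUI : (core H I).card + I.card ≤ Fintype.card V := by
    rw [← Finset.card_union_of_disjoint (disj_core (Finset.Subset.refl (core H I))).symm]
    exact Finset.card_le_univ _
  obtain ⟨e, he⟩ := Nat.exists_eq_add_of_le hUI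
  obtain ⟨d, hd⟩ := Nat.exists_eq_add_of_le (Finset.card_le_univ X₀)
  have hd' : Fintype.card V - X₀.card = d := by omega
  have he' : Fintype.card V - (core H I).card - I.card = e := by omega
  rw [hd', he'] at hb
  -- the number of tiles
  have hι : Fintype.card ι = m' + N := by
    have h1 : Nat.card (ι × V) = Nat.card (Fin m ⊕ (Fin a ⊕ Fin b)) := Nat.card_congr Φ
    rw [Nat.card_eq_fintype_card, Nat.card_eq_fintype_card, Fintype.card_prod, Fintype.card_sum,
      Fintype.card_sum, Fintype.card_fin, Fintype.card_fin, Fintype.card_fin] at h1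
    have h2 : Fintype.card ι * Fintype.card V = (m' + N) * Fintype.card V := by
      rw [h1, ha, hb, ← hm]
      calc (core H I).card * m' + (m' * I.card + N * X₀.card + (m' * e + N * d))
          = m' * ((core H I).card + I.card + e) + N * (X₀.card + d) := by ring
        _ = (m' + N) * Fintype.card V := by rw [← he, ← hd]; ring
    exact Nat.eq_of_mul_eq_mul_right hV h2
  set X : ι → Finset V := fun i => univ.filter (fun v => rk (Φ (i, v)) ≠ 2) with hX
  set Fi : ι → Finset V := fun i => univ.filter (fun v => rk (Φ (i, v)) = 0) with hFi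
  have hsumF : ∑ i, (Fi i).card = m := by
    have h1 := sum_tiles Φ (fun q => rk q = 0)
    rw [card_rk0] at h1
    rw [← h1]
    refine Finset.sum_congr rfl fun i _ => ?_
    congr 1
    ext v
    simp [hFi]
  have hsumX : ∑ i, (X i).card = m + a := by
    have h1 : ∑ i, ((X i).card + (univ.filter (fun v => rk (Φ (i, v)) = 2)).card) =
        ∑ _i : ι, Fintype.card V := by
      refine Finset.sum_congr rfl fun i _ => ?_
      have h2 : X i = (univ.filter (fun v => rk (Φ (i, v)) = 2))ᶜ := by
        ext v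
        simp [hX]
      rw [h2, Finset.card_compl]
      have := Finset.card_le_univ (univ.filter (fun v => rk (Φ (i, v)) = 2))
      omega
    have h4 : ∑ i, (univ.filter (fun v => rk (Φ (i, v)) = 2)).card = b := by
      have h5 := sum_tiles Φ (fun q => rk q = 2)
      rw [card_rk2] at h5
      refine Eq.trans ?_ h5
      refine Finset.sum_congr rfl fun i _ => ?_
      congr 1
      ext v
      simp
    rw [Finset.sum_add_distrib, h4, Finset.sum_const, Finset.card_univ, smul_eq_mul] at h1
    have h3 : Nat.card (ι × V) = Nat.card (Fin m ⊕ (Fin a ⊕ Fin b)) := Nat.card_congr Φ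
    rw [Nat.card_eq_fintype_card, Nat.card_eq_fintype_card, Fintype.card_prod, Fintype.card_sum,
      Fintype.card_sum, Fintype.card_fin, Fintype.card_fin, Fintype.card_fin] at h3
    omega
  have hnis : ∀ i, nis H (X i) ⊆ Fi i := by
    intro i v hv
    obtain ⟨hv1, w, hw, hvw⟩ := mem_nis.1 hv
    obtain ⟨x, y, hx, -, -⟩ := host_adj (hΦ i v w hvw) (Finset.mem_filter.1 hv1).2
      (Finset.mem_filter.1 hw).2
    refine Finset.mem_filter.2 ⟨Finset.mem_univ _, ?_⟩
    rw [hx]
    rfl
  have htile : ∀ i, Fintype.card V * (X i).card ≤ Fintype.card V * X₀.card +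
      d * (nis H (X i)).card := by
    intro i
    have h1 := h.tile (X i)
    rw [hd'] at h1
    exact h1
  have htile2 : ∀ i, Fintype.card V * X₀.card + d * (nis H (X i)).card ≤
      Fintype.card V * X₀.card + d * (Fi i).card := by
    intro i
    exact Nat.add_le_add_left (Nat.mul_le_mul_left _ (Finset.card_le_card (hnis i))) _
  have htot : ∑ i, Fintype.card V * (X i).card =
      ∑ i, (Fintype.card V * X₀.card + d * (Fi i).card) := by
    have hs1 : ∑ i, d * (Fi i).card = d * m := by rw [← Finset.mul_sum, hsumF]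
    rw [Finset.sum_add_distrib, hs1, ← Finset.mul_sum, hsumX,
      Finset.sum_const, Finset.card_univ, smul_eq_mul, hι, ha, ← hm]
    have h1 : Fintype.card V * (core H I).card =
        X₀.card * (core H I).card + d * (core H I).card := by
      conv_lhs => rw [hd]
      ring
    calc Fintype.card V * ((core H I).card * m' + (m' * I.card + N * X₀.card))
        = m' * (Fintype.card V * (core H I).card + Fintype.card V * I.card) +
          N * (Fintype.card V * X₀.card) := by ring
      _ = m' * (d * (core H I).card + (X₀.card * (core H I).card + Fintype.card V * I.card)) +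
          N * (Fintype.card V * X₀.card) := by rw [h1]; ring
      _ = (m' + N) * (Fintype.card V * X₀.card) + d * ((core H I).card * m') := by
          rw [hcore]; ring
  have heq1 : ∀ i, Fintype.card V * (X i).card =
      Fintype.card V * X₀.card + d * (Fi i).card := fun i =>
    (Finset.sum_eq_sum_iff_of_le (fun i _ => (htile i).trans (htile2 i))).1 htot i
      (Finset.mem_univ _)
  have hd0 : 0 < d := by omega
  have heq2 : ∀ i, nis H (X i) = Fi i := by
    intro i
    have h1 := htile i
    have h2 := htile2 i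
    have h3 := heq1 i
    have h4 : d * (nis H (X i)).card = d * (Fi i).card := by omega
    exact Finset.eq_of_subset_of_card_le (hnis i) (Nat.eq_of_mul_eq_mul_left hd0 h4).ge
  have hopt : ∀ i, Opt H X₀ (X i \ nis H (X i)) ∧ core H (X i \ nis H (X i)) = nis H (X i) := by
    intro i
    refine h.tile_eq ?_
    rw [hd', heq2 i]
    exact heq1 i
  have hfac : ∀ i, HasFactor (H.induce (core H I : Set V)) (H.induce (Fi i : Set V)) := by
    intro i
    have h1 := h.factor hI (hopt i).1
    rw [(hopt i).2, heq2 i] at h1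
    exact h1
  choose κ Ψ hΨ using hfac
  have hpt : ∀ z : (Σ i : ι, (Fi i : Set V)), ∃ x : Fin m, Φ (z.1, z.2.1) = Sum.inl x := by
    rintro ⟨i, v, hv⟩
    have h1 := (Finset.mem_filter.1 (Finset.mem_coe.1 hv)).2
    rcases hq : Φ (i, v) with x | x | x
    · exact ⟨x, rfl⟩
    · rw [hq] at h1; exact absurd h1 (by simp [rk])
    · rw [hq] at h1; exact absurd h1 (by simp [rk])
  choose g hg using hpt
  have hgb : Function.Bijective g := by
    constructor
    · rintro ⟨i, v, hv⟩ ⟨j, w, hw⟩ h1
      have h2 := hg ⟨i, v, hv⟩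
      have h3 := hg ⟨j, w, hw⟩
      rw [h1, ← h3] at h2
      have h4 := Φ.injective h2
      simp only [Prod.mk.injEq] at h4
      obtain ⟨rfl, rfl⟩ := h4
      rfl
    · intro x
      have h1 : Φ ((Φ.symm (Sum.inl x)).1, (Φ.symm (Sum.inl x)).2) = Sum.inl x := by simp
      have h2 : (Φ.symm (Sum.inl x)).2 ∈ (Fi (Φ.symm (Sum.inl x)).1 : Set V) := by
        refine Finset.mem_coe.2 (Finset.mem_filter.2 ⟨Finset.mem_univ _, ?_⟩)
        rw [h1]
        rfl
      refine ⟨⟨(Φ.symm (Sum.inl x)).1, (Φ.symm (Sum.inl x)).2, h2⟩, ?_⟩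
      have h3 := hg ⟨(Φ.symm (Sum.inl x)).1, (Φ.symm (Sum.inl x)).2, h2⟩
      exact Sum.inl.inj (h3.symm.trans h1)
  let T : (Σ i : ι, κ i) × (core H I : Set V) ≃ Fin m :=
    (Equiv.sigmaProdDistrib (fun i => κ i) _).trans
      ((Equiv.sigmaCongrRight Ψ).trans (Equiv.ofBijective g hgb))
  refine ⟨Σ i : ι, κ i, T, ?_⟩
  rintro ⟨i, k⟩ u v huv
  change F.Adj (g ⟨i, Ψ i (k, u)⟩) (g ⟨i, Ψ i (k, v)⟩)
  have h1 : H.Adj (Ψ i (k, u)).1 (Ψ i (k, v)).1 := hΨ i k u v huv
  have h2 := hΦ i _ _ h1
  rw [hg ⟨i, Ψ i (k, u)⟩, hg ⟨i, Ψ i (k, v)⟩] at h2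
  exact h2

end Pool.Agent.H34.HF
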