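import Pool.Agent.H34.HF.Fwd
import Pool.Agent.H34.HF.Rev
import Pool.Agent.H34.HF.Def

set_option autoImplicit false
set_option linter.unusedSectionVars false

/-!
# The output graph: numbering, minimum degree, polynomial time
-/

namespace Pool.Agent.H34.HF

open scoped Classical
open Finset Pool.Agent.H17.HF Pool.Agent.H80.Poly Pool.Agent.H72.NP

/-- the number of vertices of the second class -/
def szA (k i α R m : ℕ) : ℕ := (m / k) * i + (R * (m + 1)) * α

/-- the number of vertices of the third class -/
def szB (k r β R m : ℕ) : ℕ := (m / k) * r + (R * (m + 1)) * β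

/-- the numbering of the vertices of the host -/
def enum (m a b : ℕ) : Fin m ⊕ (Fin a ⊕ Fin b) ≃ Fin (m + (a + b)) :=
  (Equiv.sumCongr (Equiv.refl _) finSumFinEquiv).trans finSumFinEquiv

theorem enum_0 (m a b : ℕ) (x : Fin m) : (enum m a b (Sum.inl x)).val = x.val := by
  simp [enum]

theorem enum_1 (m a b : ℕ) (x : Fin a) : (enum m a b (Sum.inr (Sum.inl x))).val = m + x.val := by
  simp [enum]

theorem enum_2 (m a b : ℕ) (x : Fin b) :
    (enum m a b (Sum.inr (Sum.inr x))).val = m + (a + x.val) := by
  simp [enum]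

/-- the output graph -/
def hout (k i α r β R : ℕ) (g : Gr) : Gr :=
  ⟨g.1 + (szA k i α R g.1 + szB k r β R g.1),
    (host g.2 (szA k i α R g.1) (szB k r β R g.1)).comap
      (enum g.1 (szA k i α R g.1) (szB k r β R g.1)).symm⟩

/-! ### the minimum degree -/

theorem deg_host {m a b : ℕ} {F : SimpleGraph (Fin m)} (ha : 0 < a)
    (w : Fin m ⊕ (Fin a ⊕ Fin b)) : b ≤ ((host F a b).neighborSet w).ncard := by
  by_cases hw : rk w = 2
  · have hsub : ({w}ᶜ : Set (Fin m ⊕ (Fin a ⊕ Fin b))) ⊆ (host F a b).neighborSet w := by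
      intro z hz
      have hz' : z ≠ w := hz
      exact host_adj_of_two hz'.symm (Or.inl hw)
    refine le_trans ?_ (Set.ncard_le_ncard hsub (Set.toFinite _))
    rw [Set.ncard_compl, Set.ncard_singleton, Nat.card_eq_fintype_card, Fintype.card_sum,
      Fintype.card_sum, Fintype.card_fin, Fintype.card_fin, Fintype.card_fin]
    omega
  · have hc : ({z | rk z = 2} : Set (Fin m ⊕ (Fin a ⊕ Fin b))).ncard = b := by
      rw [← Nat.card_coe_set_eq]
      exact card_rk2
    have hsub : ({z | rk z = 2} : Set (Fin m ⊕ (Fin a ⊕ Fin b))) ⊆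
        (host F a b).neighborSet w := by
      intro z hz
      have hz' : rk z = 2 := hz
      exact host_adj_of_two (fun e => hw (by rw [e]; exact hz')) (Or.inr hz')
    exact hc.symm.le.trans (Set.ncard_le_ncard hsub (Set.toFinite _))

theorem deg_hout {m a b : ℕ} {F : SimpleGraph (Fin m)} (ha : 0 < a) (v : Fin (m + (a + b))) :
    b ≤ (((host F a b).comap (enum m a b).symm).neighborSet v).ncard := by
  have h1 : (((host F a b).comap (enum m a b).symm).neighborSet v) =
      (enum m a b) '' ((host F a b).neighborSet ((enum m a b).symm v)) := by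
    ext w
    constructor
    · intro hw
      exact ⟨(enum m a b).symm w, hw, (enum m a b).apply_symm_apply w⟩
    · rintro ⟨z, hz, rfl⟩
      change (host F a b).Adj ((enum m a b).symm v) ((enum m a b).symm (enum m a b z))
      rw [(enum m a b).symm_apply_apply]
      exact hz
  rw [h1, Set.ncard_image_of_injective _ (enum m a b).injective]
  exact deg_host ha _

theorem minDeg_hout {k i α r β R : ℕ} (hα : 0 < α) {c : ℝ} (hR : 0 < R)
    (hc : |c| * (1 + i + r) ≤ R * (β - c * (α + β))) (g : Gr) :
    MinDeg c (hout k i α r β R g) := by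
  intro v
  have ha : 0 < szA k i α R g.1 := by
    unfold szA
    have : 0 < (R * (g.1 + 1)) * α := Nat.mul_pos (Nat.mul_pos hR (Nat.succ_pos _)) hα
    omega
  have h2 : szB k r β R g.1 ≤ ((hout k i α r β R g).2.neighborSet v).ncard :=
    deg_hout (F := g.2) ha v
  have h3 : ((szB k r β R g.1 : ℕ) : ℝ) ≤ (((hout k i α r β R g).2.neighborSet v).ncard : ℝ) := by
    exact_mod_cast h2
  refine le_trans ?_ h3
  have h5 : ((hout k i α r β R g).1 : ℝ) = g.1 + (szA k i α R g.1 + szB k r β R g.1 : ℕ) := by
    simp [hout]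
  rw [h5]
  unfold szA szB
  have hq : g.1 / k ≤ g.1 := Nat.div_le_self _ _
  set q := g.1 / k with hq'
  have hqR : (q : ℝ) ≤ g.1 := by exact_mod_cast hq
  have hq0 : (0 : ℝ) ≤ q := Nat.cast_nonneg _
  have hm0 : (0 : ℝ) ≤ g.1 := Nat.cast_nonneg _
  have hi0 : (0 : ℝ) ≤ i := Nat.cast_nonneg _
  have hr0 : (0 : ℝ) ≤ r := Nat.cast_nonneg _
  push_cast
  set x : ℝ := (g.1 : ℝ) + q * i + q * r with hx
  have hx0 : 0 ≤ x := by positivity
  have hx1 : x ≤ (1 + i + r) * (g.1 + 1) := by
    have e1 : (q : ℝ) * i ≤ (g.1 + 1) * i := mul_le_mul_of_nonneg_right (by linarith) hi0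
    have e2 : (q : ℝ) * r ≤ (g.1 + 1) * r := mul_le_mul_of_nonneg_right (by linarith) hr0
    rw [hx]
    nlinarith
  have h6 : c * x ≤ |c| * ((1 + i + r) * (g.1 + 1)) := by
    have e1 : c * x ≤ |c| * x := mul_le_mul_of_nonneg_right (le_abs_self c) hx0
    exact e1.trans (mul_le_mul_of_nonneg_left hx1 (abs_nonneg c))
  have h7 : |c| * (1 + i + r) * (g.1 + 1) ≤ R * (β - c * (α + β)) * (g.1 + 1) :=
    mul_le_mul_of_nonneg_right hc (by positivity)
  have h8 : (0 : ℝ) ≤ q * r := by positivity
  have e3 : c * ((g.1 : ℝ) + (q * i + R * (g.1 + 1) * α + (q * r + R * (g.1 + 1) * β))) =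
      c * x + c * (R * (g.1 + 1) * (α + β)) := by rw [hx]; ring
  rw [e3]
  nlinarith

/-! ### polynomial time -/

/-- the entry `(u, v)` of the output matrix, from the input matrix -/
def entry2 (k i α R : ℕ) (w : List (List Bool) × ℕ × ℕ) : Bool :=
  bif (decide (w.2.1 < w.1.length) && decide (w.2.2 < w.1.length)) then
    (w.1.getD w.2.1 []).getD w.2.2 false
  else
    !(decide (w.2.1 = w.2.2)) &&
      (!(decide (w.2.1 < w.1.length + szA k i α R w.1.length)) ||
        !(decide (w.2.2 < w.1.length + szA k i α R w.1.length)))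

theorem szA_poly {β : Type} [BEnc β] {f : β → ℕ} (hf : PolyTime f) (k i α R : ℕ) :
    PolyTime (fun x => szA k i α R (f x)) :=
  ((hf.div (PolyTime.const k)).mul (PolyTime.const i)).add
    (((PolyTime.const R).mul hf.succ).mul (PolyTime.const α))

theorem entry2_poly (k i α R : ℕ) : PolyTime (entry2 k i α R) := by
  have hw : PolyTime (fun w : List (List Bool) × ℕ × ℕ => w) := PolyTime.id
  have hn : PolyTime (fun w : List (List Bool) × ℕ × ℕ => w.1.length) := hw.fst.length
  have hf : PolyTime (fun _ : List (List Bool) × ℕ × ℕ => false) := PolyTime.const false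
  have hnil : PolyTime (fun _ : List (List Bool) × ℕ × ℕ => ([] : List Bool)) :=
    PolyTime.const []
  have hN : PolyTime (fun w : List (List Bool) × ℕ × ℕ => w.1.length + szA k i α R w.1.length) :=
    hn.add (szA_poly hn k i α R)
  exact PolyTime.cond (PolyTime.and (PolyTime.lt hw.snd.fst hn) (PolyTime.lt hw.snd.snd hn))
    (PolyTime.list_getD (PolyTime.list_getD hw.fst hw.snd.fst hnil) hw.snd.snd hf)
    (PolyTime.and (PolyTime.not (PolyTime.eq hw.snd.fst hw.snd.snd))
      (PolyTime.or (PolyTime.not (PolyTime.lt hw.snd.fst hN))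
        (PolyTime.not (PolyTime.lt hw.snd.snd hN))))

/-- the number of vertices of the output -/
def osz2 (k i α r β R n : ℕ) : ℕ := n + (szA k i α R n + szB k r β R n)

/-- the output matrix -/
def outMat2 (k i α r β R : ℕ) (M : List (List Bool)) : List (List Bool) :=
  (List.range (osz2 k i α r β R M.length)).map fun u =>
    (List.range (osz2 k i α r β R M.length)).map fun v => entry2 k i α R (M, u, v)

theorem outMat2_poly (k i α r β R : ℕ) : PolyTime (outMat2 k i α r β R) := by
  have hM : PolyTime (fun M : List (List Bool) => M) := PolyTime.id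
  have hN : PolyTime (fun M : List (List Bool) => osz2 k i α r β R M.length) :=
    hM.length.add ((szA_poly hM.length k i α R).add (szA_poly hM.length k r β R))
  have bd : ∃ b, PB b ∧ ∀ M : List (List Bool), osz2 k i α r β R M.length ≤ b (size M) := by
    refine ⟨fun n => n + ((n * i + (R * (n + 1)) * α) + (n * r + (R * (n + 1)) * β)),
      PB.id.add (((PB.id.mul (PB.const i)).add (((PB.const R).mul
      (PB.id.add (PB.const 1))).mul (PB.const α))).add ((PB.id.mul (PB.const r)).add
      (((PB.const R).mul (PB.id.add (PB.const 1))).mul (PB.const β)))), fun M => ?_⟩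
    have h1 := length_le_size M
    have h2 : M.length / k ≤ size M := (Nat.div_le_self _ _).trans h1
    unfold osz2 szA szB
    have h3 : ∀ s, (R * (M.length + 1)) * s ≤ (R * (size M + 1)) * s := fun s =>
      Nat.mul_le_mul_right _ (Nat.mul_le_mul_left _ (Nat.succ_le_succ h1))
    have h4 : ∀ s, (M.length / k) * s ≤ size M * s := fun s => Nat.mul_le_mul_right _ h2
    exact Nat.add_le_add h1 (Nat.add_le_add (Nat.add_le_add (h4 i) (h3 α))
      (Nat.add_le_add (h4 r) (h3 β)))
  have hR : PolyTime (fun M : List (List Bool) => List.range (osz2 k i α r β R M.length)) :=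
    PolyTime.range hN bd
  have hR2 : PolyTime (fun w : List (List Bool) × ℕ =>
      List.range (osz2 k i α r β R w.1.length)) :=
    hR.comp (g := fun M : List (List Bool) => List.range (osz2 k i α r β R M.length))
      PolyTime.fst'
  have hw : PolyTime (fun w : (List (List Bool) × ℕ) × ℕ => w) := PolyTime.id
  refine PolyTime.map (l := fun M : List (List Bool) => List.range (osz2 k i α r β R M.length))
    (g := fun w : List (List Bool) × ℕ =>
      (List.range (osz2 k i α r β R w.1.length)).map fun v => entry2 k i α R (w.1, w.2, v)) hR ?_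
  refine PolyTime.map (l := fun w : List (List Bool) × ℕ =>
      List.range (osz2 k i α r β R w.1.length))
    (g := fun z : (List (List Bool) × ℕ) × ℕ => entry2 k i α R (z.1.1, z.1.2, z.2)) hR2 ?_
  exact (entry2_poly k i α R).comp (hw.fst.fst.pair (hw.fst.snd.pair hw.snd))

theorem entry2_eq (k i α R : ℕ) (g : Gr) (b : ℕ)
    (p q : Fin g.1 ⊕ (Fin (szA k i α R g.1) ⊕ Fin b)) :
    entry2 k i α R (matrix g, (enum _ _ _ p).val, (enum _ _ _ q).val) =
      decide ((host g.2 (szA k i α R g.1) b).Adj p q) := by
  unfold entry2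
  rcases p with x | x | x <;> rcases q with y | y | y
  · simp only [enum_0, length_matrix, x.2, y.2, decide_true, Bool.and_self, cond_true]
    exact getD_matrix g x y
  · have h1 : ¬ (g.1 + y.val < g.1) := by omega
    have h2 : x.val < g.1 + szA k i α R g.1 := by omega
    have h3 : g.1 + y.val < g.1 + szA k i α R g.1 := by omega
    simp only [enum_0, enum_1, length_matrix, h1, h2, h3, decide_true, decide_false, Bool.and_false,
      cond_false, Bool.not_true, Bool.or_self]
    symm
    rw [decide_eq_false_iff_not]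
    exact fun h => h
  · have h1 : ¬ (g.1 + (szA k i α R g.1 + y.val) < g.1) := by omega
    have h2 : ¬ (x.val = g.1 + (szA k i α R g.1 + y.val)) := by omega
    have h3 : ¬ (g.1 + (szA k i α R g.1 + y.val) < g.1 + szA k i α R g.1) := by omega
    simp only [enum_0, enum_2, length_matrix, h1, h2, h3, decide_false, Bool.and_false,
      cond_false, Bool.not_false, Bool.or_true, Bool.and_self]
    symm
    rw [decide_eq_true_eq]
    trivial
  · have h1 : ¬ (g.1 + x.val < g.1) := by omega
    have h2 : y.val < g.1 + szA k i α R g.1 := by omega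
    have h3 : g.1 + x.val < g.1 + szA k i α R g.1 := by omega
    simp only [enum_0, enum_1, length_matrix, h1, h2, h3, decide_true, decide_false,
      Bool.false_and, Bool.and_false, cond_false, Bool.not_true, Bool.or_self]
    symm
    rw [decide_eq_false_iff_not]
    exact fun h => h
  · have h1 : ¬ (g.1 + x.val < g.1) := by omega
    have h2 : g.1 + x.val < g.1 + szA k i α R g.1 := by omega
    have h3 : g.1 + y.val < g.1 + szA k i α R g.1 := by omega
    simp only [enum_1, length_matrix, h1, h2, h3, decide_true, decide_false,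
      Bool.false_and, Bool.and_false, cond_false, Bool.not_true, Bool.or_self]
    symm
    rw [decide_eq_false_iff_not]
    exact fun h => h
  · have h1 : ¬ (g.1 + x.val < g.1) := by omega
    have h2 : ¬ (g.1 + x.val = g.1 + (szA k i α R g.1 + y.val)) := by omega
    have h3 : ¬ (g.1 + (szA k i α R g.1 + y.val) < g.1 + szA k i α R g.1) := by omega
    simp only [enum_1, enum_2, length_matrix, h1, h2, h3, decide_false, Bool.false_and,
      cond_false, Bool.not_false, Bool.or_true, Bool.and_self]
    symm
    rw [decide_eq_true_eq]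
    trivial
  · have h1 : ¬ (g.1 + (szA k i α R g.1 + x.val) < g.1) := by omega
    have h2 : ¬ (g.1 + (szA k i α R g.1 + x.val) = y.val) := by omega
    have h3 : ¬ (g.1 + (szA k i α R g.1 + x.val) < g.1 + szA k i α R g.1) := by omega
    simp only [enum_0, enum_2, length_matrix, h1, h2, h3, decide_false, Bool.false_and,
      cond_false, Bool.not_false, Bool.true_or, Bool.and_self]
    symm
    rw [decide_eq_true_eq]
    trivial
  · have h1 : ¬ (g.1 + (szA k i α R g.1 + x.val) < g.1) := by omega
    have h2 : ¬ (g.1 + (szA k i α R g.1 + x.val) = g.1 + y.val) := by omega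
    have h3 : ¬ (g.1 + (szA k i α R g.1 + x.val) < g.1 + szA k i α R g.1) := by omega
    simp only [enum_1, enum_2, length_matrix, h1, h2, h3, decide_false, Bool.false_and,
      cond_false, Bool.not_false, Bool.true_or, Bool.and_self]
    symm
    rw [decide_eq_true_eq]
    trivial
  · have h1 : ¬ (g.1 + (szA k i α R g.1 + x.val) < g.1) := by omega
    have h2 : (g.1 + (szA k i α R g.1 + x.val) = g.1 + (szA k i α R g.1 + y.val)) ↔ x = y := by
      rw [Fin.ext_iff]
      omega
    have h3 : ¬ (g.1 + (szA k i α R g.1 + x.val) < g.1 + szA k i α R g.1) := by omega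
    simp only [enum_2, length_matrix, h1, h2, h3, decide_false, Bool.false_and,
      cond_false, Bool.not_false, Bool.true_or, Bool.and_true]
    rw [Bool.eq_iff_iff]
    simp only [Bool.not_eq_true', decide_eq_true_eq, decide_eq_false_iff_not]
    exact Iff.rfl

theorem entry2_eq' (k i α R : ℕ) (g : Gr) (b : ℕ)
    (u v : Fin (g.1 + (szA k i α R g.1 + b))) :
    entry2 k i α R (matrix g, u.val, v.val) =
      decide (((host g.2 (szA k i α R g.1) b).comap (enum g.1 (szA k i α R g.1) b).symm).Adj u v) := by
  have h := entry2_eq k i α R g b ((enum g.1 (szA k i α R g.1) b).symm u)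
    ((enum g.1 (szA k i α R g.1) b).symm v)
  rw [Equiv.apply_symm_apply, Equiv.apply_symm_apply] at h
  rw [h]
  exact decide_eq_decide.2 Iff.rfl

theorem matrix_hout (k i α r β R : ℕ) (g : Gr) :
    matrix (hout k i α r β R g) = outMat2 k i α r β R (matrix g) := by
  have hlen : osz2 k i α r β R (matrix g).length = (hout k i α r β R g).1 := by
    rw [length_matrix]; rfl
  unfold outMat2
  rw [hlen]
  have hr : List.range (hout k i α r β R g).1 =
      (List.finRange (hout k i α r β R g).1).map Fin.val := by
    rw [List.map_coe_finRange_eq_range]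
  rw [hr, List.map_map]
  unfold matrix
  refine List.map_congr_left fun u _ => ?_
  simp only [Function.comp_apply]
  rw [List.map_map]
  refine List.map_congr_left fun v _ => ?_
  simp only [Function.comp_apply]
  exact (entry2_eq' k i α R g (szB k r β R g.1) u v).symm

theorem hout_poly (k i α r β R : ℕ) {c : ℝ} (hmin : ∀ g, MinDeg c (hout k i α r β R g)) :
    PolyTimeFun encGr (fun g : {g : Gr // MinDeg c g} => encGr g.1)
      (fun g => ⟨hout k i α r β R g, hmin g⟩) := by
  obtain ⟨p, b, ⟨t, ht⟩, hp⟩ := outMat2_poly k i α r β R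
  refine Prog.tm2 _ _ _ p t fun g => ?_
  obtain ⟨n, hn, h⟩ := hp (matrix g)
  refine ⟨n, hn.trans (ht _), ?_⟩
  have h1 := matrix_hout k i α r β R g
  unfold encGr
  simp only
  rw [h1]
  exact h

end Pool.Agent.H34.HF
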