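import Pool.Agent.H17.HF.Cor4

set_option autoImplicit false
set_option linter.unusedSectionVars false

/-!
# Vertex-transitive graphs: optimal cores are unions of blocks
-/

namespace Pool.Agent.H34.HF

open scoped Classical
open Finset Pool.Agent.H17.HF

variable {V : Type} [Fintype V]

/-- independent sets -/
def Ind (H : SimpleGraph V) (X : Finset V) : Prop := ∀ x ∈ X, ∀ y ∈ X, ¬ H.Adj x y

/-- closed neighbourhood -/
noncomputable def nb (H : SimpleGraph V) (I : Finset V) : Finset V := I ∪ bdry H I

/-- the vertices not dominated by `I` -/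
noncomputable def core (H : SimpleGraph V) (I : Finset V) : Finset V := (nb H I)ᶜ

theorem mem_nb {H : SimpleGraph V} {I : Finset V} {v : V} :
    v ∈ nb H I ↔ v ∈ I ∨ ∃ x ∈ I, H.Adj x v := by
  unfold nb
  rw [Finset.mem_union, mem_bdry]
  constructor
  · rintro (h | h)
    · exact Or.inl h
    · exact Or.inr h.2
  · rintro (h | h)
    · exact Or.inl h
    · by_cases hv : v ∈ I
      · exact Or.inl hv
      · exact Or.inr ⟨hv, h⟩

theorem mem_core {H : SimpleGraph V} {I : Finset V} {v : V} :
    v ∈ core H I ↔ v ∉ I ∧ ∀ x ∈ I, ¬ H.Adj x v := by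
  unfold core
  rw [Finset.mem_compl, mem_nb]
  push Not
  rfl

theorem card_core (H : SimpleGraph V) (I : Finset V) :
    (core H I).card + (nb H I).card = Fintype.card V := by
  unfold core
  rw [Finset.card_compl]
  have := Finset.card_le_univ (nb H I)
  omega

/-! ### counting automorphisms -/

theorem aut_count {H : SimpleGraph V} [Nonempty V] (htr : ∀ u v, ∃ γ : H ≃g H, γ u = v) :
    ∃ (inst : Fintype (H ≃g H)) (K : ℕ), 0 < K ∧ Fintype.card V * K = Fintype.card (H ≃g H) ∧
      ∀ X Y : Finset V, ∑ γ : H ≃g H, (X.filter (fun x => γ x ∈ Y)).card = X.card * Y.card * K := by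
  have : Finite (H ≃g H) := DFunLike.finite _
  obtain ⟨inst⟩ := nonempty_fintype (H ≃g H)
  have hcnt : ∀ x y x' y' : V, (univ.filter (fun γ : H ≃g H => γ x = y)).card =
      (univ.filter (fun γ : H ≃g H => γ x' = y')).card := by
    intro x y x' y'
    obtain ⟨σ, hσ⟩ := htr x' x
    obtain ⟨τ, hτ⟩ := htr y y'
    refine Finset.card_bij' (fun γ _ => (σ.trans γ).trans τ)
      (fun γ _ => (σ.symm.trans γ).trans τ.symm) ?_ ?_ ?_ ?_
    · intro γ hγ
      simp only [Finset.mem_filter, Finset.mem_univ, true_and] at hγ ⊢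
      simp [RelIso.trans_apply, hσ, hγ, hτ]
    · intro γ hγ
      simp only [Finset.mem_filter, Finset.mem_univ, true_and] at hγ ⊢
      have h1 : σ.symm x = x' := by rw [← hσ]; simp
      have h2 : τ.symm y' = y := by rw [← hτ]; simp
      simp [RelIso.trans_apply, h1, hγ, h2]
    · intro γ _
      ext v
      simp [RelIso.trans_apply]
    · intro γ _
      ext v
      simp [RelIso.trans_apply]
  obtain ⟨v₀⟩ := ‹Nonempty V›
  refine ⟨inst, (univ.filter (fun γ : H ≃g H => γ v₀ = v₀)).card, ?_, ?_, ?_⟩
  · exact Finset.card_pos.2 ⟨RelIso.refl _, by simp⟩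
  · have h1 : ∑ y : V, (univ.filter (fun γ : H ≃g H => γ v₀ = y)).card =
        Fintype.card (H ≃g H) := by
      have := Finset.card_eq_sum_card_fiberwise (s := (univ : Finset (H ≃g H)))
        (t := (univ : Finset V)) (f := fun γ => γ v₀) (fun _ _ => Finset.mem_coe.2 (Finset.mem_univ _))
      rw [Finset.card_univ] at this
      exact this.symm
    rw [← h1, Finset.sum_congr rfl (fun y _ => hcnt v₀ y v₀ v₀), Finset.sum_const,
      Finset.card_univ, smul_eq_mul]
  · intro X Y
    have h1 : ∀ γ : H ≃g H, (X.filter (fun x => γ x ∈ Y)).card =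
        ∑ x ∈ X, ∑ y ∈ Y, if γ x = y then 1 else 0 := by
      intro γ
      rw [Finset.card_filter]
      refine Finset.sum_congr rfl fun x _ => ?_
      rw [Finset.sum_ite_eq]
    rw [Finset.sum_congr rfl (fun γ _ => h1 γ), Finset.sum_comm]
    have h2 : ∀ x ∈ X, ∑ γ : H ≃g H, ∑ y ∈ Y, (if γ x = y then 1 else 0) =
        Y.card * (univ.filter (fun γ : H ≃g H => γ v₀ = v₀)).card := by
      intro x _
      rw [Finset.sum_comm]
      have h3 : ∀ y ∈ Y, ∑ γ : H ≃g H, (if γ x = y then 1 else 0) =
          (univ.filter (fun γ : H ≃g H => γ v₀ = v₀)).card := by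
        intro y _
        rw [← Finset.card_filter]
        exact hcnt x y v₀ v₀
      rw [Finset.sum_congr rfl h3, Finset.sum_const, smul_eq_mul]
    rw [Finset.sum_congr rfl h2, Finset.sum_const, smul_eq_mul]
    ring

/-! ### the setting -/

/-- a vertex-transitive graph with a maximum independent set `X₀` -/
structure VT (H : SimpleGraph V) (X₀ : Finset V) : Prop where
  tr : ∀ u v, ∃ γ : H ≃g H, γ u = v
  ind : Ind H X₀
  max : ∀ X : Finset V, Ind H X → X.card ≤ X₀.card
  ne : X₀.Nonempty

variable {H : SimpleGraph V} {X₀ : Finset V}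

theorem Ind.image {X : Finset V} (h : Ind H X) (γ : H ≃g H) : Ind H (X.image γ) := by
  intro x hx y hy hxy
  obtain ⟨x', hx', rfl⟩ := Finset.mem_image.1 hx
  obtain ⟨y', hy', rfl⟩ := Finset.mem_image.1 hy
  exact h x' hx' y' hy' (γ.map_adj_iff.1 hxy)

theorem Ind.mono {X Y : Finset V} (h : Ind H X) (hY : Y ⊆ X) : Ind H Y :=
  fun x hx y hy => h x (hY hx) y (hY hy)

theorem Ind.union {I J : Finset V} (hI : Ind H I) (hJ : Ind H J) (hJc : J ⊆ core H I) :
    Ind H (I ∪ J) := by
  intro x hx y hy hxy
  rcases Finset.mem_union.1 hx with hx | hx <;> rcases Finset.mem_union.1 hy with hy | hy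
  · exact hI x hx y hy hxy
  · exact (mem_core.1 (hJc hy)).2 x hx hxy
  · exact (mem_core.1 (hJc hx)).2 y hy hxy.symm
  · exact hJ x hx y hy hxy

theorem disj_core {I J : Finset V} (hJc : J ⊆ core H I) : Disjoint I J := by
  rw [Finset.disjoint_left]
  intro x hx hx'
  exact (mem_core.1 (hJc hx')).1 hx

/-- every set contains an independent set of the expected proportion -/
theorem VT.exists_ind (h : VT H X₀) (Y : Finset V) :
    ∃ Z ⊆ Y, Ind H Z ∧ X₀.card * Y.card ≤ Fintype.card V * Z.card := by
  obtain ⟨γ, hγ⟩ := exists_image h.tr X₀ Y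
  refine ⟨(X₀.filter (fun x => γ x ∈ Y)).image γ, ?_, ?_, ?_⟩
  · intro z hz
    obtain ⟨x, hx, rfl⟩ := Finset.mem_image.1 hz
    exact (Finset.mem_filter.1 hx).2
  · exact (h.ind.mono (Finset.filter_subset _ _)).image γ
  · rw [Finset.card_image_of_injective _ γ.injective]
    exact hγ

/-- an independent set inside the core of `I` is small -/
theorem VT.card_le (h : VT H X₀) {I J : Finset V} (hI : Ind H I) (hJ : Ind H J)
    (hJc : J ⊆ core H I) : I.card + J.card ≤ X₀.card := by
  rw [← Finset.card_union_of_disjoint (disj_core hJc)]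
  exact h.max _ (hI.union hJ hJc)

/-- independent sets expand -/
theorem VT.expand (h : VT H X₀) {I : Finset V} (hI : Ind H I) :
    Fintype.card V * I.card ≤ X₀.card * (nb H I).card := by
  obtain ⟨Z, hZ, hZi, hZc⟩ := h.exists_ind (core H I)
  have h1 := h.card_le hI hZi hZ
  have h2 := card_core H I
  have h3 : Fintype.card V * (I.card + Z.card) ≤ Fintype.card V * X₀.card :=
    Nat.mul_le_mul_left _ h1
  have h4 : X₀.card * (core H I).card + X₀.card * (nb H I).card = X₀.card * Fintype.card V := by
    rw [← Nat.mul_add, h2]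
  rw [Nat.mul_add] at h3
  rw [Nat.mul_comm X₀.card (Fintype.card V)] at h4
  omega

/-- optimal independent sets -/
structure Opt (H : SimpleGraph V) (X₀ I : Finset V) : Prop where
  ind : Ind H I
  eq : Fintype.card V * I.card = X₀.card * (nb H I).card

theorem Opt.core_eq {I : Finset V} (hI : Opt H X₀ I) :
    X₀.card * (core H I).card + Fintype.card V * I.card = Fintype.card V * X₀.card := by
  have h2 := card_core H I
  have h4 : X₀.card * (core H I).card + X₀.card * (nb H I).card = X₀.card * Fintype.card V := by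
    rw [← Nat.mul_add, h2]
  rw [hI.eq, h4, Nat.mul_comm]

theorem nb_image (γ : H ≃g H) (I : Finset V) : nb H (I.image γ) = (nb H I).image γ := by
  ext v
  constructor
  · intro hv
    rcases mem_nb.1 hv with hv | ⟨x, hx, hxv⟩
    · obtain ⟨x, hx, rfl⟩ := Finset.mem_image.1 hv
      exact Finset.mem_image_of_mem _ (mem_nb.2 (Or.inl hx))
    · obtain ⟨y, hy, rfl⟩ := Finset.mem_image.1 hx
      refine Finset.mem_image.2 ⟨γ.symm v, mem_nb.2 (Or.inr ⟨y, hy, ?_⟩), by simp⟩
      rw [← γ.map_adj_iff]
      simpa using hxv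
  · intro hv
    obtain ⟨x, hx, rfl⟩ := Finset.mem_image.1 hv
    rcases mem_nb.1 hx with hx | ⟨y, hy, hyx⟩
    · exact mem_nb.2 (Or.inl (Finset.mem_image_of_mem _ hx))
    · exact mem_nb.2 (Or.inr ⟨γ y, Finset.mem_image_of_mem _ hy, γ.map_adj_iff.2 hyx⟩)

theorem core_image (γ : H ≃g H) (I : Finset V) : core H (I.image γ) = (core H I).image γ := by
  unfold core
  rw [nb_image]
  ext v
  rw [Finset.mem_compl, Finset.mem_image, Finset.mem_image]
  constructor
  · intro hv
    refine ⟨γ.symm v, ?_, by simp⟩
    rw [Finset.mem_compl]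
    intro h
    exact hv ⟨_, h, by simp⟩
  · rintro ⟨x, hx, rfl⟩ ⟨y, hy, hyx⟩
    rw [γ.injective hyx] at hy
    exact (Finset.mem_compl.1 hx) hy

theorem Opt.image {I : Finset V} (hI : Opt H X₀ I) (γ : H ≃g H) : Opt H X₀ (I.image γ) :=
  ⟨hI.ind.image γ, by
    rw [nb_image, Finset.card_image_of_injective _ γ.injective,
      Finset.card_image_of_injective _ γ.injective, hI.eq]⟩

/-- the closed neighbourhood inside the core -/
theorem nb_union {I J : Finset V} :
    (nb H (I ∪ J)).card ≤ (nb H I).card + (nb H J ∩ core H I).card := by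
  have h1 : nb H (I ∪ J) ⊆ nb H I ∪ (nb H J ∩ core H I) := by
    intro v hv
    by_cases hc : v ∈ nb H I
    · exact Finset.mem_union_left _ hc
    · refine Finset.mem_union_right _ (Finset.mem_inter.2 ⟨?_, Finset.mem_compl.2 hc⟩)
      rcases mem_nb.1 hv with hv | ⟨x, hx, hxv⟩
      · rcases Finset.mem_union.1 hv with hv | hv
        · exact absurd (mem_nb.2 (Or.inl hv)) hc
        · exact mem_nb.2 (Or.inl hv)
      · rcases Finset.mem_union.1 hx with hx | hx
        · exact absurd (mem_nb.2 (Or.inr ⟨x, hx, hxv⟩)) hc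
        · exact mem_nb.2 (Or.inr ⟨x, hx, hxv⟩)
  exact (Finset.card_le_card h1).trans (Finset.card_union_le _ _)

/-- expansion inside an optimal core -/
theorem VT.expand_core (h : VT H X₀) {I J : Finset V} (hI : Opt H X₀ I) (hJ : Ind H J)
    (hJc : J ⊆ core H I) :
    Fintype.card V * J.card ≤ X₀.card * (nb H J ∩ core H I).card := by
  have h1 := h.expand (hI.ind.union hJ hJc)
  rw [Finset.card_union_of_disjoint (disj_core hJc)] at h1
  have h2 : X₀.card * (nb H (I ∪ J)).card ≤
      X₀.card * ((nb H I).card + (nb H J ∩ core H I).card) := Nat.mul_le_mul_left _ nb_union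
  rw [Nat.mul_add] at h1 h2
  have h3 := hI.eq
  omega

/-- primitive optimal sets: of maximal size among those with a nonempty core -/
structure Prim (H : SimpleGraph V) (X₀ I : Finset V) : Prop where
  opt : Opt H X₀ I
  lt : I.card < X₀.card
  max : ∀ J : Finset V, Opt H X₀ J → J.card < X₀.card → J.card ≤ I.card

theorem VT.exists_prim (h : VT H X₀) : ∃ I, Prim H X₀ I := by
  have hne : (univ.filter fun I : Finset V => Opt H X₀ I ∧ I.card < X₀.card).Nonempty := by
    refine ⟨∅, ?_⟩
    rw [Finset.mem_filter]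
    refine ⟨Finset.mem_univ _, ⟨fun x hx => absurd hx (Finset.notMem_empty x), ?_⟩, ?_⟩
    · have : nb H (∅ : Finset V) = ∅ := by
        ext v
        rw [mem_nb]
        simp
      rw [this]
      simp
    · rw [Finset.card_empty]
      exact Finset.card_pos.2 h.ne
  obtain ⟨I, hI, hmax⟩ := Finset.exists_max_image _ Finset.card hne
  rw [Finset.mem_filter] at hI
  refine ⟨I, hI.2.1, hI.2.2, fun J hJ hJ' => hmax J ?_⟩
  rw [Finset.mem_filter]
  exact ⟨Finset.mem_univ _, hJ, hJ'⟩

theorem Prim.image {I : Finset V} (hI : Prim H X₀ I) (γ : H ≃g H) : Prim H X₀ (I.image γ) := by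
  have hc : (I.image γ).card = I.card := Finset.card_image_of_injective _ γ.injective
  exact ⟨hI.opt.image γ, by rw [hc]; exact hI.lt, fun J hJ hJ' => by rw [hc]; exact hI.max J hJ hJ'⟩

theorem Prim.core_nonempty {I : Finset V} (h : VT H X₀) (hI : Prim H X₀ I) :
    (core H I).Nonempty := by
  by_contra hcon
  rw [Finset.not_nonempty_iff_eq_empty] at hcon
  have h1 := hI.opt.core_eq
  rw [hcon, Finset.card_empty, Nat.mul_zero, Nat.zero_add] at h1
  obtain ⟨x, hx⟩ := h.ne
  have h2 : 0 < Fintype.card V := Fintype.card_pos_iff.2 ⟨x⟩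
  have h3 := Nat.eq_of_mul_eq_mul_left h2 h1
  have h4 := hI.lt
  omega

/-- strict expansion inside a primitive core -/
theorem VT.strict (h : VT H X₀) {I J : Finset V} (hI : Prim H X₀ I) (hJ : Ind H J)
    (hJc : J ⊆ core H I) (hJn : J.Nonempty) (hJl : I.card + J.card < X₀.card) :
    Fintype.card V * J.card < X₀.card * (nb H J ∩ core H I).card := by
  rcases (h.expand_core hI.opt hJ hJc).lt_or_eq with h1 | h1
  · exact h1
  exfalso
  have h2 := h.expand (hI.opt.ind.union hJ hJc)
  have hc : (I ∪ J).card = I.card + J.card := Finset.card_union_of_disjoint (disj_core hJc)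
  have h3 : X₀.card * (nb H (I ∪ J)).card ≤
      X₀.card * ((nb H I).card + (nb H J ∩ core H I).card) := Nat.mul_le_mul_left _ nb_union
  have h4 := hI.opt.eq
  have h5 : Opt H X₀ (I ∪ J) := by
    refine ⟨hI.opt.ind.union hJ hJc, ?_⟩
    rw [hc] at h2 ⊢
    rw [Nat.mul_add] at h2 h3 ⊢
    omega
  have h6 := hI.max _ h5 (by rw [hc]; exact hJl)
  rw [hc] at h6
  have h7 := Finset.card_pos.2 hJn
  omega

/-! ### the block lemma -/

/-- pointwise inequality -/
theorem VT.point (h : VT H X₀) {I J : Finset V} (hI : Opt H X₀ I) (hJ : Opt H X₀ J) :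
    X₀.card * (core H I ∩ core H J).card + Fintype.card V * (core H I ∩ J).card ≤
      X₀.card * (core H I).card := by
  have hA : Ind H (core H I ∩ J) := hJ.ind.mono Finset.inter_subset_right
  have h1 := h.expand_core hI hA Finset.inter_subset_left
  have h2 : Disjoint (core H I ∩ core H J) (nb H (core H I ∩ J) ∩ core H I) := by
    rw [Finset.disjoint_left]
    intro v hv hv'
    have h3 := mem_core.1 (Finset.mem_inter.1 hv).2
    rcases mem_nb.1 (Finset.mem_inter.1 hv').1 with h4 | ⟨x, hx, hxv⟩
    · exact h3.1 (Finset.mem_inter.1 h4).2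
    · exact h3.2 x (Finset.mem_inter.1 hx).2 hxv
  have h3 : (core H I ∩ core H J) ∪ (nb H (core H I ∩ J) ∩ core H I) ⊆ core H I :=
    Finset.union_subset Finset.inter_subset_left Finset.inter_subset_right
  have h4 := Finset.card_le_card h3
  rw [Finset.card_union_of_disjoint h2] at h4
  have h5 : X₀.card * ((core H I ∩ core H J).card + (nb H (core H I ∩ J) ∩ core H I).card) ≤
      X₀.card * (core H I).card := Nat.mul_le_mul_left _ h4
  rw [Nat.mul_add] at h5
  omega

theorem filter_card_image (γ : H ≃g H) (X Y : Finset V) :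
    (X.filter (fun x => γ x ∈ Y)).card = (Y ∩ X.image γ).card := by
  rw [← Finset.card_image_of_injective (X.filter (fun x => γ x ∈ Y)) γ.injective]
  congr 1
  ext v
  rw [Finset.mem_image, Finset.mem_inter, Finset.mem_image]
  constructor
  · rintro ⟨x, hx, rfl⟩
    obtain ⟨h1, h2⟩ := Finset.mem_filter.1 hx
    exact ⟨h2, x, h1, rfl⟩
  · rintro ⟨hv, x, hx, rfl⟩
    exact ⟨x, Finset.mem_filter.2 ⟨hx, hv⟩, rfl⟩

/-- equality holds by averaging -/
theorem VT.point_eq (h : VT H X₀) {I J : Finset V} (hI : Opt H X₀ I) (hJ : Opt H X₀ J) :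
    X₀.card * (core H I ∩ core H J).card + Fintype.card V * (core H I ∩ J).card =
      X₀.card * (core H I).card := by
  obtain ⟨x₀, -⟩ := h.ne
  have : Nonempty V := ⟨x₀⟩
  obtain ⟨inst, K, hK, hcard, hsum⟩ := aut_count h.tr
  have hp : ∀ γ : H ≃g H, X₀.card * (core H I ∩ core H (J.image γ)).card +
      Fintype.card V * (core H I ∩ J.image γ).card ≤ X₀.card * (core H I).card := fun γ =>
    h.point hI (hJ.image γ)
  have htot : ∑ γ : H ≃g H, (X₀.card * (core H I ∩ core H (J.image γ)).card +
      Fintype.card V * (core H I ∩ J.image γ).card) = ∑ _γ : H ≃g H, X₀.card * (core H I).card := by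
    rw [Finset.sum_add_distrib, ← Finset.mul_sum, ← Finset.mul_sum]
    have e1 : ∑ γ : H ≃g H, (core H I ∩ core H (J.image γ)).card =
        (core H J).card * (core H I).card * K := by
      rw [← hsum]
      refine Finset.sum_congr rfl fun γ _ => ?_
      rw [core_image, filter_card_image]
    have e2 : ∑ γ : H ≃g H, (core H I ∩ J.image γ).card = J.card * (core H I).card * K := by
      rw [← hsum]
      refine Finset.sum_congr rfl fun γ _ => ?_
      rw [filter_card_image]
    rw [e1, e2, Finset.sum_const, Finset.card_univ, smul_eq_mul, ← hcard]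
    have h1 := hJ.core_eq
    calc X₀.card * ((core H J).card * (core H I).card * K) +
          Fintype.card V * (J.card * (core H I).card * K)
        = (X₀.card * (core H J).card + Fintype.card V * J.card) * (core H I).card * K := by ring
      _ = (Fintype.card V * X₀.card) * (core H I).card * K := by rw [h1]
      _ = Fintype.card V * K * (X₀.card * (core H I).card) := by ring
  have h1 := (Finset.sum_eq_sum_iff_of_le (fun γ _ => hp γ)).1 htot (RelIso.refl _)
    (Finset.mem_univ _)
  have h2 : J.image (RelIso.refl H.Adj : H ≃g H) = J := by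
    ext v
    simp
  rw [h2] at h1
  exact h1

/-- **Blocks.** A primitive core is inside or outside of every optimal core. -/
theorem VT.block (h : VT H X₀) {I J : Finset V} (hI : Prim H X₀ I) (hJ : Opt H X₀ J) :
    core H I ⊆ core H J ∨ Disjoint (core H I) (core H J) := by
  have hE := h.point_eq hI.opt hJ
  have hα : 0 < X₀.card := Finset.card_pos.2 h.ne
  set A := core H I ∩ J with hA
  have hAi : Ind H A := hJ.ind.mono Finset.inter_subset_right
  have hAc : A ⊆ core H I := Finset.inter_subset_left
  have hle := h.card_le hI.opt.ind hAi hAc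
  rcases A.eq_empty_or_nonempty with he | hne
  · left
    rw [he, Finset.card_empty, Nat.mul_zero, Nat.add_zero] at hE
    have h1 := Nat.eq_of_mul_eq_mul_left hα hE
    have h2 : core H I ∩ core H J = core H I :=
      Finset.eq_of_subset_of_card_le Finset.inter_subset_left h1.ge
    exact Finset.inter_eq_left.1 h2
  · right
    rcases hle.lt_or_eq with hlt | heq
    · exfalso
      have hs := h.strict hI hAi hAc hne hlt
      have h2 : Disjoint (core H I ∩ core H J) (nb H A ∩ core H I) := by
        rw [Finset.disjoint_left]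
        intro v hv hv'
        have h3 := mem_core.1 (Finset.mem_inter.1 hv).2
        rcases mem_nb.1 (Finset.mem_inter.1 hv').1 with h4 | ⟨x, hx, hxv⟩
        · exact h3.1 (Finset.mem_inter.1 h4).2
        · exact h3.2 x (Finset.mem_inter.1 hx).2 hxv
      have h3 : (core H I ∩ core H J) ∪ (nb H A ∩ core H I) ⊆ core H I :=
        Finset.union_subset Finset.inter_subset_left Finset.inter_subset_right
      have h4 := Finset.card_le_card h3
      rw [Finset.card_union_of_disjoint h2] at h4
      have h5 : X₀.card * ((core H I ∩ core H J).card + (nb H A ∩ core H I).card) ≤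
          X₀.card * (core H I).card := Nat.mul_le_mul_left _ h4
      rw [Nat.mul_add] at h5
      omega
    · have h1 := hI.opt.core_eq
      have h2 : Fintype.card V * A.card + Fintype.card V * I.card = Fintype.card V * X₀.card := by
        rw [← heq]; ring
      have h3 : X₀.card * (core H I ∩ core H J).card = 0 := by omega
      rcases Nat.mul_eq_zero.1 h3 with h4 | h4
      · omega
      · exact Finset.disjoint_iff_inter_eq_empty.2 (Finset.card_eq_zero.1 h4)

end Pool.Agent.H34.HF
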