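import Pool.Agent.H34.HF.Trn

set_option autoImplicit false
set_option linter.unusedSectionVars false

/-!
# Vertex-transitive graphs: the block structure and the size of the primitive core
-/

namespace Pool.Agent.H34.HF

open scoped Classical
open Finset Pool.Agent.H17.HF

variable {V : Type} [Fintype V] {H : SimpleGraph V} {X₀ : Finset V}

/-- **Every optimal core has a factor into copies of the primitive core.** -/
theorem VT.factor (h : VT H X₀) {I J : Finset V} (hI : Prim H X₀ I) (hJ : Opt H X₀ J) :
    HasFactor (H.induce (core H I : Set V)) (H.induce (core H J : Set V)) := by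
  have hch : ∀ B : {B : Finset V // B ⊆ core H J ∧ ∃ γ : H ≃g H, B = (core H I).image γ},
      ∃ γ : H ≃g H, B.1 = (core H I).image γ := fun B => B.2.2
  choose γ hγ using hch
  have hmem : ∀ (B : {B : Finset V // B ⊆ core H J ∧ ∃ γ : H ≃g H, B = (core H I).image γ})
      (u : (core H I : Set V)), γ B u.1 ∈ B.1 := by
    intro B u
    rw [hγ B]
    exact Finset.mem_image_of_mem _ (Finset.mem_coe.1 u.2)
  let f : {B : Finset V // B ⊆ core H J ∧ ∃ γ : H ≃g H, B = (core H I).image γ} ×
      (core H I : Set V) → (core H J : Set V) :=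
    fun p => ⟨γ p.1 p.2.1, Finset.mem_coe.2 (p.1.2.1 (hmem p.1 p.2))⟩
  have hinj : Function.Injective f := by
    rintro ⟨B, u⟩ ⟨B', u'⟩ he
    have he' : γ B u.1 = γ B' u'.1 := congrArg Subtype.val he
    have hB : B = B' := by
      apply Subtype.ext
      have h1 := h.block (hI.image (γ B)) (hI.image (γ B')).opt
      rw [core_image, core_image, ← hγ B, ← hγ B'] at h1
      have hc : B.1.card = B'.1.card := by
        rw [hγ B, hγ B', Finset.card_image_of_injective _ (γ B).injective,
          Finset.card_image_of_injective _ (γ B').injective]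
      rcases h1 with h1 | h1
      · exact Finset.eq_of_subset_of_card_le h1 hc.ge
      · exfalso
        have h2 := hmem B u
        rw [he'] at h2
        rw [← he'] at h2
        exact Finset.disjoint_left.1 h1 h2 (he' ▸ hmem B' u')
    subst hB
    have hu : u = u' := Subtype.ext ((γ B).injective he')
    rw [hu]
  have hsurj : Function.Surjective f := by
    rintro ⟨v, hv⟩
    obtain ⟨u₀, hu₀⟩ := hI.core_nonempty h
    obtain ⟨σ, hσ⟩ := h.tr u₀ v
    have h1 := h.block (hI.image σ) hJ
    rw [core_image] at h1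
    have h2 : v ∈ (core H I).image σ := by
      rw [← hσ]
      exact Finset.mem_image_of_mem _ hu₀
    rcases h1 with h1 | h1
    · let B : {B : Finset V // B ⊆ core H J ∧ ∃ γ : H ≃g H, B = (core H I).image γ} :=
        ⟨(core H I).image σ, h1, σ, rfl⟩
      have h3 : v ∈ (core H I).image (γ B) := by
        rw [← hγ B]
        exact h2
      obtain ⟨u, hu, huv⟩ := Finset.mem_image.1 h3
      exact ⟨(B, ⟨u, Finset.mem_coe.2 hu⟩), Subtype.ext huv⟩
    · exact absurd (Finset.mem_coe.1 hv) (Finset.disjoint_left.1 h1 h2)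
  refine ⟨_, Equiv.ofBijective f ⟨hinj, hsurj⟩, fun B u v huv => ?_⟩
  change H.Adj (γ B u.1) (γ B v.1)
  exact (γ B).map_adj_iff.2 huv

/-! ### connectedness -/

/-- **The primitive core is connected.** -/
theorem VT.connected (h : VT H X₀) {I : Finset V} (hI : Prim H X₀ I) :
    (H.induce (core H I : Set V)).Connected := by
  obtain ⟨u₀, hu₀⟩ := hI.core_nonempty h
  set T := cls H (core H I) u₀ with hT
  have hTU : T ⊆ core H I := cls_subset
  have huT : u₀ ∈ T := mem_cls.2 ⟨Finset.mem_coe.2 hu₀, Finset.mem_coe.2 hu₀,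
    SimpleGraph.Reachable.refl _⟩
  have hclosed : ∀ x ∈ T, ∀ y ∈ core H I, H.Adj x y → y ∈ T := by
    intro x hx y hy hxy
    exact mem_cls.2 ((mem_cls.1 hx).trans (Same.of_adj (hTU hx) hy hxy))
  suffices hTe : T = core H I by
    rw [← hTe]
    exact cls_connected hu₀
  by_contra hne
  have hA : (core H I \ T).Nonempty := by
    rw [Finset.nonempty_iff_ne_empty]
    intro he
    exact hne (Finset.Subset.antisymm hTU (Finset.sdiff_eq_empty_iff_subset.1 he))
  have hα : 0 < X₀.card := Finset.card_pos.2 h.ne
  obtain ⟨Z, hZ, hZi, hZc⟩ := h.exists_ind T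
  obtain ⟨Y, hY, hYi, hYc⟩ := h.exists_ind (core H I \ T)
  have hYU : Y ⊆ core H I := hY.trans Finset.sdiff_subset
  have hZY : Disjoint Z Y := by
    rw [Finset.disjoint_left]
    intro x hx hx'
    exact (Finset.mem_sdiff.1 (hY hx')).2 (hZ hx)
  have hind : Ind H (Z ∪ Y) := by
    intro x hx y hy hxy
    rcases Finset.mem_union.1 hx with hx | hx <;> rcases Finset.mem_union.1 hy with hy | hy
    · exact hZi x hx y hy hxy
    · exact (Finset.mem_sdiff.1 (hY hy)).2 (hclosed x (hZ hx) y (hYU hy) hxy)
    · exact (Finset.mem_sdiff.1 (hY hx)).2 (hclosed y (hZ hy) x (hYU hx) hxy.symm)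
    · exact hYi x hx y hy hxy
  have h1 := h.card_le hI.opt.ind hind (Finset.union_subset (hZ.trans hTU) hYU)
  rw [Finset.card_union_of_disjoint hZY] at h1
  have h2 := hI.opt.core_eq
  have h3 : (core H I \ T).card + T.card = (core H I).card := Finset.card_sdiff_add_card_eq_card hTU
  have h4 : X₀.card * (core H I).card = X₀.card * T.card + X₀.card * (core H I \ T).card := by
    rw [← Nat.mul_add, ← h3, Nat.add_comm]
  have h5 : Fintype.card V * (I.card + (Z.card + Y.card)) ≤ Fintype.card V * X₀.card :=
    Nat.mul_le_mul_left _ h1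
  rw [Nat.mul_add, Nat.mul_add] at h5
  have h6 : X₀.card * T.card = Fintype.card V * Z.card := by omega
  have hYp : 0 < Y.card := by
    by_contra hc
    have hc' : Y.card = 0 := by omega
    rw [hc', Nat.mul_zero] at hYc
    have := Finset.card_pos.2 hA
    have := Nat.mul_pos hα this
    omega
  have hZp : Z.Nonempty := by
    rw [← Finset.card_pos]
    by_contra hc
    have hc' : Z.card = 0 := by omega
    rw [hc', Nat.mul_zero] at hZc
    have := Finset.card_pos.2 ⟨u₀, huT⟩
    have := Nat.mul_pos hα this
    omega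
  have h7 := h.strict hI hZi (hZ.trans hTU) hZp (by omega)
  have h8 : nb H Z ∩ core H I ⊆ T := by
    intro v hv
    obtain ⟨hv1, hv2⟩ := Finset.mem_inter.1 hv
    rcases mem_nb.1 hv1 with hv1 | ⟨x, hx, hxv⟩
    · exact hZ hv1
    · exact hclosed x (hZ hx) v hv2 hxv
  have h9 : X₀.card * (nb H Z ∩ core H I).card ≤ X₀.card * T.card :=
    Nat.mul_le_mul_left _ (Finset.card_le_card h8)
  omega

/-! ### the size -/

theorem VT.card_lt (h : VT H X₀) {a b : V} (hab : H.Adj a b) : X₀.card < Fintype.card V := by
  rcases (Finset.card_le_univ X₀).lt_or_eq with h1 | h1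
  · exact h1
  · exfalso
    have h2 : X₀ = univ := Finset.eq_univ_of_card X₀ h1
    exact h.ind a (by rw [h2]; exact Finset.mem_univ _) b (by rw [h2]; exact Finset.mem_univ _) hab

/-- if `2 α = |V|`, every edge meets every maximum independent set in exactly one vertex -/
theorem VT.edge (h : VT H X₀) (h2 : 2 * X₀.card = Fintype.card V) {S : Finset V} (hS : Ind H S)
    (hSc : S.card = X₀.card) {p q : V} (hpq : H.Adj p q) : p ∈ S ∨ q ∈ S := by
  have : Nonempty V := ⟨p⟩
  obtain ⟨inst, K, hK, hcard, hsum⟩ := aut_count h.tr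
  have hle : ∀ γ : H ≃g H, (S.filter (fun x => γ x ∈ ({p, q} : Finset V))).card ≤ 1 := by
    intro γ
    rw [Finset.card_le_one]
    intro x hx y hy
    obtain ⟨hx1, hx2⟩ := Finset.mem_filter.1 hx
    obtain ⟨hy1, hy2⟩ := Finset.mem_filter.1 hy
    rw [Finset.mem_insert, Finset.mem_singleton] at hx2 hy2
    rcases hx2 with hx2 | hx2 <;> rcases hy2 with hy2 | hy2
    · exact γ.injective (hx2.trans hy2.symm)
    · exfalso
      refine hS x hx1 y hy1 (γ.map_adj_iff.1 ?_)
      rw [hx2, hy2]
      exact hpq
    · exfalso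
      refine hS x hx1 y hy1 (γ.map_adj_iff.1 ?_)
      rw [hx2, hy2]
      exact hpq.symm
    · exact γ.injective (hx2.trans hy2.symm)
  have htot : ∑ γ : H ≃g H, (S.filter (fun x => γ x ∈ ({p, q} : Finset V))).card =
      ∑ _γ : H ≃g H, 1 := by
    rw [hsum, Finset.sum_const, Finset.card_univ, smul_eq_mul, Nat.mul_one, ← hcard,
      Finset.card_pair hpq.ne, hSc, ← h2]
    ring
  have h1 := (Finset.sum_eq_sum_iff_of_le (fun γ _ => hle γ)).1 htot (RelIso.refl _)
    (Finset.mem_univ _)
  have h3 : (S.filter (fun x => (RelIso.refl H.Adj : H ≃g H) x ∈ ({p, q} : Finset V))).Nonempty := by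
    rw [← Finset.card_pos, h1]
    exact Nat.one_pos
  obtain ⟨x, hx⟩ := h3
  obtain ⟨hx1, hx2⟩ := Finset.mem_filter.1 hx
  rw [Finset.mem_insert, Finset.mem_singleton] at hx2
  rcases hx2 with hx2 | hx2
  · left
    have : x = p := hx2
    rw [← this]; exact hx1
  · right
    have : x = q := hx2
    rw [← this]; exact hx1

/-- **The primitive core has at least three vertices** -/
theorem VT.three_le (h : VT H X₀) {I : Finset V} (hI : Prim H X₀ I) {a b b' : V}
    (hab : H.Adj a b) (hab' : H.Adj a b') (hne : b ≠ b') : 3 ≤ (core H I).card := by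
  have hα : 0 < X₀.card := Finset.card_pos.2 h.ne
  have hlt := h.card_lt hab
  have h1 := hI.opt.core_eq
  have h2 := Finset.card_pos.2 (hI.core_nonempty h)
  have h3 := hI.lt
  obtain ⟨d, hd⟩ := Nat.exists_eq_add_of_lt h3
  have h4 : X₀.card * (core H I).card = Fintype.card V * (d + 1) := by
    have : Fintype.card V * X₀.card = Fintype.card V * (d + 1) + Fintype.card V * I.card := by
      conv_lhs => rw [hd]
      ring
    omega
  have h5 : Fintype.card V ≤ Fintype.card V * (d + 1) := by
    rw [Nat.mul_add, Nat.mul_one]; omega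
  by_contra hcon
  have h6 : (core H I).card = 1 ∨ (core H I).card = 2 := by omega
  rcases h6 with h6 | h6
  · rw [h6, Nat.mul_one] at h4
    omega
  · rw [h6] at h4
    have hd0 : d = 0 := by
      by_contra hd0
      have : Fintype.card V * 2 ≤ Fintype.card V * (d + 1) := Nat.mul_le_mul_left _ (by omega)
      omega
    subst hd0
    have h7 : 2 * X₀.card = Fintype.card V := by omega
    obtain ⟨x, y, hxy, hU⟩ := Finset.card_eq_two.1 h6
    have hx : x ∈ core H I := by rw [hU]; simp
    have hy : y ∈ core H I := by rw [hU]; simp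
    have hSx : Ind H (I ∪ {x}) := hI.opt.ind.union (by
      intro s hs t ht
      rw [Finset.mem_singleton.1 hs, Finset.mem_singleton.1 ht]
      exact H.loopless.irrefl x) (Finset.singleton_subset_iff.2 hx)
    have hSy : Ind H (I ∪ {y}) := hI.opt.ind.union (by
      intro s hs t ht
      rw [Finset.mem_singleton.1 hs, Finset.mem_singleton.1 ht]
      exact H.loopless.irrefl y) (Finset.singleton_subset_iff.2 hy)
    have hcx : (I ∪ {x}).card = X₀.card := by
      rw [Finset.card_union_of_disjoint (disj_core (Finset.singleton_subset_iff.2 hx)),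
        Finset.card_singleton]
      omega
    have hcy : (I ∪ {y}).card = X₀.card := by
      rw [Finset.card_union_of_disjoint (disj_core (Finset.singleton_subset_iff.2 hy)),
        Finset.card_singleton]
      omega
    have huniq : ∀ q, H.Adj x q → q = y := by
      intro q hq
      have hqS : q ∉ I ∪ {x} := fun hq' => hSx x (Finset.mem_union_right _
        (Finset.mem_singleton_self x)) q hq' hq
      rcases h.edge h7 hSy hcy hq with h8 | h8
      · exfalso
        rcases Finset.mem_union.1 h8 with h8 | h8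
        · exact (mem_core.1 hx).1 h8
        · exact hxy (Finset.mem_singleton.1 h8)
      · rcases Finset.mem_union.1 h8 with h8 | h8
        · exact absurd (Finset.mem_union_left _ h8) hqS
        · exact Finset.mem_singleton.1 h8
    obtain ⟨γ, hγ⟩ := h.tr a x
    have h9 := huniq (γ b) (by rw [← hγ]; exact γ.map_adj_iff.2 hab)
    have h10 := huniq (γ b') (by rw [← hγ]; exact γ.map_adj_iff.2 hab')
    exact hne (γ.injective (h9.trans h10.symm))

theorem Opt.dvd {I : Finset V} (hI : Opt H X₀ I) :
    Fintype.card V ∣ X₀.card * (core H I).card := by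
  have h1 := hI.core_eq
  exact (Nat.dvd_add_left ⟨I.card, rfl⟩).1 ⟨X₀.card, h1⟩

end Pool.Agent.H34.HF
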